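import Pool.Agent.MDS.Defs

/-!
# MDS.COC: dimension two

`no_arc_two`: in dimension `2`, `q + 2` pairwise independent vectors would give `q + 2` distinct
points of the projective line, which has `q + 1` points. (E.g. map `i` to `none` if `v i 0 = 0` and
to `some (v i 1 / v i 0)` otherwise; this map `Fin (q + 2) → Option F` is not injective, and two
vectors with the same image are proportional.)
-/

set_option autoImplicit false

namespace MDS

open Finset

theorem no_arc_two {F : Type*} [Field F] [Fintype F] [DecidableEq F]
    (v : Fin (Fintype.card F + 2) → (Fin 2 → F)) : ¬ IsArc (F := F) v 2 := by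
  intro h
  let f : Fin (Fintype.card F + 2) → Option F :=
    fun i => if v i 0 = 0 then none else some (v i 1 / v i 0)
  have hc : Fintype.card (Option F) < Fintype.card (Fin (Fintype.card F + 2)) := by
    simp [Fintype.card_option]
  obtain ⟨i, j, hij, hf⟩ := Fintype.exists_ne_map_eq_of_card_lt f hc
  have hi := h {i, j} (by rw [Finset.card_pair hij])
  rw [Finset.coe_pair, LinearIndepOn.pair_iff _ hij] at hi
  by_cases h1 : v i 0 = 0
  · by_cases h2 : v j 0 = 0
    · have h3 := hi (v j 1) (-(v i 1)) (by
        funext t
        fin_cases t
        · simp [h1, h2]
        · simp; ring)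
      have h4 := hi 1 0 (by
        funext t
        fin_cases t
        · simp [h1]
        · simpa using h3.2)
      exact one_ne_zero h4.1
    · simp [f, h1, h2] at hf
  · by_cases h2 : v j 0 = 0
    · simp [f, h1, h2] at hf
    · simp only [f, h1, h2, if_false, Option.some.injEq] at hf
      rw [div_eq_div_iff h1 h2] at hf
      have h3 := hi (v j 0) (-(v i 0)) (by
        funext t
        fin_cases t
        · simp; ring
        · simp; linear_combination hf)
      exact h2 h3.1

end MDS
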