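import Pool.Agent.MDS.Defs

/-!
# MDS.GAL: Gale duality

`galeSub v` is the space of the functions `i ↦ ψ (v i)`, `ψ` a linear functional, a subspace of
`ι → F`, and `gale v i` the class of `Pi.single i 1` in the quotient.

* `gale_rel`: `∑ i, ψ (v i) • gale v i` is the class of `i ↦ ψ (v i)`, which is `0`.
* `gale_arc`: let `|Y| ≤ N - k` and `∑ i ∈ Y, a i • gale v i = 0`. Extend `a` by `0` outside `Y`:
  the class of `a` is `0`, so `a i = ψ (v i)` for all `i` with some `ψ`. The complement of `Y` has
  at least `k` elements; `k` of the vectors `v i` there are linearly independent, hence span `V`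
  (`finrank V = k`), and `ψ` vanishes on them; so `ψ = 0` and `a = 0`.
* `finrank_gale`: `ψ ↦ (i ↦ ψ (v i))` is injective (the same argument with `Y = ∅`), so
  `finrank (galeSub v) = finrank (Module.Dual F V) = k`.
-/

set_option autoImplicit false

namespace MDS

open Finset

variable {F V ι : Type*} [Field F] [AddCommGroup V] [Module F V] [DecidableEq ι]

/-- The functions `i ↦ ψ (v i)`. -/
def galeSub (F : Type*) {V ι : Type*} [Field F] [AddCommGroup V] [Module F V]
    (v : ι → V) : Submodule F (ι → F) :=
  LinearMap.range (LinearMap.pi (fun i => Module.Dual.eval F V (v i)) :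
    Module.Dual F V →ₗ[F] (ι → F))

/-- The Gale dual vectors. -/
def gale (F : Type*) {V ι : Type*} [Field F] [AddCommGroup V] [Module F V] [DecidableEq ι]
    (v : ι → V) (i : ι) : (ι → F) ⧸ galeSub F v :=
  (galeSub F v).mkQ (Pi.single i 1)

variable [Fintype ι]

private theorem gal_sum (v : ι → V) (c : ι → F) :
    ∑ i, c i • gale F v i = (galeSub F v).mkQ c := by
  have h : c = ∑ i, c i • (Pi.single i (1 : F) : ι → F) := by
    funext j
    rw [Finset.sum_apply, Finset.sum_eq_single j]
    · simp
    · intro b _ hb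
      simp [Pi.single_apply, Ne.symm hb]
    · intro hj
      exact absurd (Finset.mem_univ j) hj
  conv_rhs => rw [h]
  rw [map_sum]
  refine Finset.sum_congr rfl fun i _ => ?_
  rw [map_smul]
  rfl

private theorem gal_mem (v : ι → V) (c : ι → F) :
    c ∈ galeSub F v ↔ ∃ ψ : Module.Dual F V, ∀ i, ψ (v i) = c i := by
  unfold galeSub
  rw [LinearMap.mem_range]
  constructor
  · rintro ⟨ψ, hψ⟩
    refine ⟨ψ, fun i => ?_⟩
    rw [← hψ]
    rfl
  · rintro ⟨ψ, hψ⟩
    refine ⟨ψ, ?_⟩
    funext i
    rw [← hψ i]
    rfl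

theorem gale_rel (v : ι → V) (ψ : Module.Dual F V) :
    ∑ i, ψ (v i) • gale F v i = 0 := by
  rw [gal_sum, Submodule.mkQ_apply, Submodule.Quotient.mk_eq_zero, gal_mem]
  exact ⟨ψ, fun i => rfl⟩

/-- A functional vanishing at many of the vectors is zero. -/
private theorem gal_zero [FiniteDimensional F V] (v : ι → V) (k : ℕ)
    (hk : Module.finrank F V = k) (hv : IsArc (F := F) v k) (C : Finset ι) (hC : k ≤ C.card)
    (ψ : Module.Dual F V) (hψ : ∀ i ∈ C, ψ (v i) = 0) : ψ = 0 := by
  obtain ⟨D, hDC, hD⟩ := Finset.exists_subset_card_eq hC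
  have hli : LinearIndepOn F v (D : Set ι) := hv D (le_of_eq hD)
  have hli' : LinearIndependent F (fun i : (D : Set ι) => v i) := hli
  have hcard : Fintype.card (D : Set ι) = Module.finrank F V := by
    rw [hk, ← hD]
    simp
  have hspan : Submodule.span F (Set.range (fun i : (D : Set ι) => v i)) = ⊤ :=
    hli'.span_eq_top_of_card_eq_finrank' hcard
  apply LinearMap.ext_on_range hspan
  rintro ⟨i, hi⟩
  simpa using hψ i (hDC (by simpa using hi))

theorem gale_arc [FiniteDimensional F V] (v : ι → V) (k : ℕ) (hk : Module.finrank F V = k)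
    (hv : IsArc (F := F) v k) (hkN : k ≤ Fintype.card ι) :
    IsArc (F := F) (gale F v) (Fintype.card ι - k) := by
  intro Y hY
  rw [linearIndepOn_finset_iff]
  intro a ha i hi
  classical
  set c : ι → F := fun i => if i ∈ Y then a i else 0 with hc
  have h1 : ∑ i, c i • gale F v i = 0 := by
    rw [← ha]
    rw [← Finset.sum_subset (Finset.subset_univ Y)]
    · refine Finset.sum_congr rfl fun j hj => ?_
      simp [hc, hj]
    · intro j _ hj
      simp [hc, hj]
  rw [gal_sum, Submodule.mkQ_apply, Submodule.Quotient.mk_eq_zero, gal_mem] at h1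
  obtain ⟨ψ, hψ⟩ := h1
  have h0 : ψ = 0 := by
    apply gal_zero v k hk hv Yᶜ
    · rw [Finset.card_compl]
      omega
    · intro j hj
      rw [hψ j, hc]
      simp [Finset.mem_compl.1 hj]
  have h2 := hψ i
  rw [h0] at h2
  simp only [LinearMap.zero_apply, hc, hi, if_true] at h2
  exact h2.symm

theorem finrank_gale [FiniteDimensional F V] (v : ι → V) (k : ℕ)
    (hk : Module.finrank F V = k)
    (hv : IsArc (F := F) v k) (hkN : k ≤ Fintype.card ι) :
    Module.finrank F ((ι → F) ⧸ galeSub F v) = Fintype.card ι - k := by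
  have h1 : Module.finrank F (galeSub F v) = k := by
    have hinj : Function.Injective (LinearMap.pi (fun i => Module.Dual.eval F V (v i)) :
        Module.Dual F V →ₗ[F] (ι → F)) := by
      rw [← LinearMap.ker_eq_bot, LinearMap.ker_eq_bot']
      intro ψ hψ
      apply gal_zero v k hk hv Finset.univ (by simpa using hkN)
      intro i _
      have := congrFun hψ i
      simpa using this
    unfold galeSub
    rw [LinearMap.finrank_range_of_inj hinj, Subspace.dual_finrank_eq, hk]
  have h2 := Submodule.finrank_quotient_add_finrank (galeSub F v)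
  rw [h1, Module.finrank_fintype_fun_eq_card] at h2
  omega

/-- Gale duality for arcs in coordinate spaces. -/
theorem arc_dual {N k : ℕ} (hkN : k ≤ N) (v : Fin N → (Fin k → F)) (hv : IsArc (F := F) v k) :
    ∃ v' : Fin N → (Fin (N - k) → F), IsArc (F := F) v' (N - k) := by
  have hk : Module.finrank F (Fin k → F) = k := by simp
  have hkN' : k ≤ Fintype.card (Fin N) := by simpa using hkN
  have h1 := gale_arc v k hk hv hkN'
  have h2 := finrank_gale v k hk hv hkN'
  rw [Fintype.card_fin] at h1 h2
  have e : ((Fin N → F) ⧸ galeSub F v) ≃ₗ[F] (Fin (N - k) → F) := by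
    apply LinearEquiv.ofFinrankEq
    rw [h2]
    simp
  refine ⟨fun i => e (gale F v i), ?_⟩
  intro Y hY
  have h3 := h1 Y hY
  exact h3.map_injOn e.toLinearMap e.injective.injOn

end MDS
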