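import Pool.Agent.MDS.Defs

/-!
# MDS.COA: from codes to arcs

`arc_of_code`: let `b : Fin k → C` be a basis and `v i := fun j => (b j : Fin n → F) i`, for
`i : Fin N` embedded in `Fin n` (`Fin.castLE`). A set `Y` of at most `k` indices of `Fin N` maps to
a subset of `Fin n` of the same size, contained in a set `Y'` of exactly `k` elements
(`k = finrank C ≤ n`). The vectors `v i`, `i ∈ Y'`, are linearly independent: the square matrix
`(b j) i`, `j : Fin k`, `i ∈ Y'`, is invertible since a combination `x` of the rows `b j` that
vanishes on `Y'` has `hammingNorm x ≤ n - k < n - k + 1`, so `x = 0`.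
-/

set_option autoImplicit false

namespace MDS

open Finset

theorem arc_of_code {F : Type*} [Field F] [DecidableEq F] {n N k : ℕ} (hN : N ≤ n)
    (C : Submodule F (Fin n → F)) (hC : Module.finrank F C = k)
    (hw : ∀ x ∈ C, x ≠ 0 → n - k + 1 ≤ hammingNorm x) :
    ∃ v : Fin N → (Fin k → F), IsArc (F := F) v k := by
  classical
  have hkn : k ≤ n := by
    have h1 := Submodule.finrank_le C
    rw [hC, Module.finrank_fintype_fun_eq_card, Fintype.card_fin] at h1
    exact h1
  let b : Module.Basis (Fin k) F C := Module.finBasisOfFinrankEq F C hC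
  let w : Fin n → (Fin k → F) := fun i j => (b j : Fin n → F) i
  have key : ∀ Y' : Finset (Fin n), Y'.card = k → LinearIndependent F (fun y : Y' => w y) := by
    intro Y' hY'
    let e : Y' ≃ Fin k := Y'.equivFinOfCardEq hY'
    let M : Matrix (Fin k) (Fin k) F := fun a j => w (e.symm a) j
    have hinj : Function.Injective M.mulVec := by
      have h0 : ∀ x : Fin k → F, M.mulVec x = 0 → x = 0 := by
        intro x hx
        let y : C := ∑ j, x j • b j
        have hy : ∀ i : Fin n, (y : Fin n → F) i = ∑ j, x j * w i j := by
          intro i
          simp only [y, w]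
          rw [Submodule.coe_sum, Finset.sum_apply]
          rfl
        have hz : ∀ i ∈ Y', (y : Fin n → F) i = 0 := by
          intro i hi
          have h2 := congrFun hx (e ⟨i, hi⟩)
          rw [hy i]
          simp only [Matrix.mulVec, dotProduct, M, Equiv.symm_apply_apply, Pi.zero_apply] at h2
          rw [← h2]
          exact Finset.sum_congr rfl fun j _ => mul_comm _ _
        have hnorm : hammingNorm (y : Fin n → F) ≤ n - k := by
          unfold hammingNorm
          have hsub : ({i | (y : Fin n → F) i ≠ 0} : Finset (Fin n)) ⊆ Y'ᶜ := by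
            intro i hi
            rw [Finset.mem_filter] at hi
            rw [Finset.mem_compl]
            intro h3
            exact hi.2 (hz i h3)
          refine (Finset.card_le_card hsub).trans ?_
          rw [Finset.card_compl, hY', Fintype.card_fin]
        have hy0 : (y : Fin n → F) = 0 := by
          by_contra hne
          have := hw _ y.2 hne
          omega
        have hy1 : y = 0 := Subtype.ext hy0
        have h4 := Fintype.linearIndependent_iff.1 b.linearIndependent x hy1
        funext j
        exact h4 j
      intro x y hxy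
      have h5 := h0 (x - y) (by rw [Matrix.mulVec_sub]; exact sub_eq_zero.2 hxy)
      exact sub_eq_zero.1 h5
    have hu := Matrix.mulVec_injective_iff_isUnit.1 hinj
    have hr := Matrix.linearIndependent_rows_iff_isUnit.2 hu
    have h6 : LinearIndependent F (fun a : Fin k => w (e.symm a)) := hr
    have h7 := h6.comp e e.injective
    have h8 : ((fun a : Fin k => w (e.symm a)) ∘ e) = fun y : Y' => w y := by
      funext y
      simp
    rw [h8] at h7
    exact h7
  refine ⟨fun i => w (Fin.castLE hN i), ?_⟩
  intro Y hY
  have hinj : Function.Injective (Fin.castLE hN) := Fin.castLE_injective hN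
  have hc : (Y.map ⟨Fin.castLE hN, hinj⟩).card ≤ k := by rw [Finset.card_map]; exact hY
  obtain ⟨Y', h1, -, h3⟩ := Finset.exists_subsuperset_card_eq
    (Finset.subset_univ (Y.map ⟨Fin.castLE hN, hinj⟩)) hc
    (by rw [Finset.card_univ, Fintype.card_fin]; exact hkn)
  have h4 := key Y' h3
  have hm : ∀ i : (Y : Set (Fin N)), Fin.castLE hN i ∈ Y' := by
    intro i
    exact h1 (Finset.mem_map_of_mem ⟨Fin.castLE hN, hinj⟩ i.2)
  exact h4.comp (fun i : (Y : Set (Fin N)) => (⟨Fin.castLE hN i, hm i⟩ : Y')) (by
    intro i j hij
    have h5 : Fin.castLE hN i = Fin.castLE hN j := congrArg Subtype.val hij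
    exact Subtype.ext (hinj h5))

end MDS
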