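import Pool.Agent.MDS.Defs

/-!
# MDS.COB: extended Reed-Solomon codes

`rs_code`: the extended Reed-Solomon code. Let `σ : Fin (q + 1) ≃ Option F`, and for a polynomial
`P` of degree `< k` let `x i := P.eval a` if `σ i = some a` and `x i := P.coeff (k - 1)` if
`σ i = none`. This is a linear map on `Polynomial.degreeLT F k` (`finrank = k`), `C` its range. If
`P ≠ 0` then the number of zero coordinates is at most `k - 1`: at most `natDegree P ≤ k - 1` roots,
and if `P.coeff (k - 1) = 0` then `natDegree P ≤ k - 2` (or `k = 1` and `P = 0`). As `k ≤ q` the
map is injective, and `hammingNorm x ≥ q + 1 - (k - 1)`.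
-/

set_option autoImplicit false

namespace MDS

open Finset

private theorem rs_zero {F : Type*} [Field F] [Fintype F] [DecidableEq F] (k : ℕ)
    (P : Polynomial F) (hP : P ≠ 0) (hk : P.natDegree < k)
    (S : Finset (Option F)) (hS0 : none ∈ S → P.coeff (k - 1) = 0)
    (hS1 : ∀ a : F, some a ∈ S → P.eval a = 0) : S.card ≤ k - 1 := by
  classical
  have hr : P.roots.toFinset.card ≤ P.natDegree :=
    (Multiset.toFinset_card_le _).trans (Polynomial.card_roots' P)
  by_cases h : none ∈ S
  · have h0 := hS0 h
    have hd : P.natDegree ≠ k - 1 := by
      intro hd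
      rw [← hd, Polynomial.coeff_natDegree] at h0
      exact hP (Polynomial.leadingCoeff_eq_zero.1 h0)
    have hsub : S ⊆ insert none (P.roots.toFinset.image some) := by
      intro o ho
      cases o with
      | none => exact Finset.mem_insert_self _ _
      | some a =>
        refine Finset.mem_insert_of_mem (Finset.mem_image_of_mem _ ?_)
        rw [Multiset.mem_toFinset, Polynomial.mem_roots hP]
        exact hS1 a ho
    have h1 := Finset.card_le_card hsub
    have h2 := Finset.card_insert_le (none : Option F) (P.roots.toFinset.image some)
    have h3 : (P.roots.toFinset.image some).card ≤ P.roots.toFinset.card :=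
      Finset.card_image_le
    omega
  · have hsub : S ⊆ P.roots.toFinset.image some := by
      intro o ho
      cases o with
      | none => exact absurd ho h
      | some a =>
        refine Finset.mem_image_of_mem _ ?_
        rw [Multiset.mem_toFinset, Polynomial.mem_roots hP]
        exact hS1 a ho
    have h1 := Finset.card_le_card hsub
    have h3 : (P.roots.toFinset.image some).card ≤ P.roots.toFinset.card :=
      Finset.card_image_le
    omega

/-- The coordinate functional attached to a point of the projective line. -/
private noncomputable def rsCoord {F : Type*} [Field F] (k : ℕ) :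
    Option F → (Polynomial F →ₗ[F] F)
  | none => Polynomial.lcoeff F (k - 1)
  | some a => Polynomial.leval a

theorem rs_code {F : Type*} [Field F] [Fintype F] [DecidableEq F] (k : ℕ) (hk1 : 1 ≤ k)
    (hk : k ≤ Fintype.card F) :
    ∃ C : Submodule F (Fin (Fintype.card F + 1) → F), Module.finrank F C = k ∧
      ∀ x ∈ C, x ≠ 0 → Fintype.card F + 1 - k + 1 ≤ hammingNorm x := by
  classical
  set q := Fintype.card F with hq
  let σ : Fin (q + 1) ≃ Option F := (Fintype.equivFinOfCardEq (by simp [hq])).symm
  let T : Polynomial F →ₗ[F] (Fin (q + 1) → F) := LinearMap.pi (fun i => rsCoord k (σ i))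
  let T' : Polynomial.degreeLT F k →ₗ[F] (Fin (q + 1) → F) :=
    T.comp (Polynomial.degreeLT F k).subtype
  have key : ∀ P : Polynomial.degreeLT F k, P ≠ 0 →
      (Finset.univ.filter (fun i => T' P i = 0)).card ≤ k - 1 := by
    intro P hP
    have hP0 : (P : Polynomial F) ≠ 0 := fun h => hP (Subtype.ext h)
    have hdeg : (P : Polynomial F).natDegree < k := by
      have := Polynomial.mem_degreeLT.1 P.2
      exact (Polynomial.natDegree_lt_iff_degree_lt hP0).2 this
    have hc : ((Finset.univ.filter (fun i => T' P i = 0)).map σ.toEmbedding).card ≤ k - 1 := by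
      refine rs_zero k P hP0 hdeg _ ?_ ?_
      · intro h
        rw [Finset.mem_map] at h
        obtain ⟨i, hi, hi'⟩ := h
        have h1 := (Finset.mem_filter.1 hi).2
        have h2 : T' P i = rsCoord k (σ i) (P : Polynomial F) := rfl
        rw [h2] at h1
        have h3 : σ i = none := hi'
        rw [h3] at h1
        exact h1
      · intro a h
        rw [Finset.mem_map] at h
        obtain ⟨i, hi, hi'⟩ := h
        have h1 := (Finset.mem_filter.1 hi).2
        have h2 : T' P i = rsCoord k (σ i) (P : Polynomial F) := rfl
        rw [h2] at h1
        have h3 : σ i = some a := hi'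
        rw [h3] at h1
        exact h1
    rwa [Finset.card_map] at hc
  have hpart : ∀ x : Fin (q + 1) → F,
      (Finset.univ.filter (fun i => x i = 0)).card + hammingNorm x = q + 1 := by
    intro x
    unfold hammingNorm
    have h1 := Finset.card_filter_add_card_filter_not (s := (Finset.univ : Finset (Fin (q + 1))))
      (fun i => x i = 0)
    rw [Finset.card_univ, Fintype.card_fin] at h1
    exact h1
  have hinj : Function.Injective T' := by
    rw [injective_iff_map_eq_zero]
    intro P hP
    by_contra h0
    have h1 := key P h0
    have h2 : (Finset.univ.filter (fun i => T' P i = 0)) = Finset.univ := by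
      rw [Finset.filter_eq_self]
      intro i _
      rw [hP]
      rfl
    rw [h2, Finset.card_univ, Fintype.card_fin] at h1
    omega
  refine ⟨LinearMap.range T', ?_, ?_⟩
  · rw [LinearMap.finrank_range_of_inj hinj, (Polynomial.degreeLTEquiv F k).finrank_eq,
      Module.finrank_fin_fun]
  · rintro x ⟨P, rfl⟩ hx
    have hP : P ≠ 0 := by
      rintro rfl
      exact hx (map_zero _)
    have h1 := key P hP
    have h2 := hpart (T' P)
    omega

end MDS
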