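import Pool.Agent.MDS.NOA
import Pool.Agent.MDS.COA
import Pool.Agent.MDS.COB
import Pool.Agent.MDS.COC

/-!
# MDS.FIN: the final theorem

Assembled from the stubs.
-/

set_option autoImplicit false

namespace MDS

open Finset

theorem no_arc_dual {F : Type*} [Field F] [Fintype F] [DecidableEq F] (p : ℕ) [Fact p.Prime]
    [CharP F p] (hp : p ≠ 2) (k : ℕ) (hk2 : 2 ≤ k) (hkq : k < Fintype.card F)
    (hk : (2 * p - 3) * k ≤ (Fintype.card F + 5) * (p - 2) + p ∨
      (2 * p - 3) * (Fintype.card F + 2 - k) ≤ (Fintype.card F + 5) * (p - 2) + p)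
    (v : Fin (Fintype.card F + 2) → (Fin k → F)) : ¬ IsArc (F := F) v k := by
  intro hv
  rcases Nat.eq_or_lt_of_le hk2 with h2 | h3
  · subst h2
    exact no_arc_two v hv
  · by_cases hs : 2 * k ≤ Fintype.card F + 2
    · refine no_arc p hp k h3 hs ?_ v hv
      rcases hk with h | h
      · exact h
      · refine le_trans ?_ h
        exact Nat.mul_le_mul_left _ (by omega)
    · obtain ⟨v', hv'⟩ := arc_dual (by omega) v hv
      refine no_arc p hp (Fintype.card F + 2 - k) (by omega) (by omega) ?_ v' hv'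
      rcases hk with h | h
      · refine le_trans ?_ h
        exact Nat.mul_le_mul_left _ (by omega)
      · exact h

theorem main (F : Type) [Field F] [Fintype F] [DecidableEq F] (p : ℕ) [Fact p.Prime]
    [CharP F p] (hp : p ≠ 2) (k : ℕ) (hk2 : 2 ≤ k) (hkq : k < Fintype.card F)
    (hk : (2 * p - 3) * k ≤ (Fintype.card F + 5) * (p - 2) + p ∨
      (2 * p - 3) * (Fintype.card F + 2 - k) ≤ (Fintype.card F + 5) * (p - 2) + p) :
    IsGreatest
      {n : ℕ | ∃ C : Submodule F (Fin n → F), Module.finrank F C = k ∧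
        ∀ x ∈ C, x ≠ 0 → n - k + 1 ≤ hammingNorm x}
      (Fintype.card F + 1) := by
  refine ⟨?_, ?_⟩
  · obtain ⟨C, hC, hw⟩ := rs_code (F := F) k (by omega) hkq.le
    exact ⟨C, hC, hw⟩
  · rintro n ⟨C, hC, hw⟩
    by_contra hn
    push Not at hn
    obtain ⟨v, hv⟩ := arc_of_code (N := Fintype.card F + 2) (by omega) C hC hw
    exact no_arc_dual p hp k hk2 hkq hk v hv

end MDS
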