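import Pool.Agent.MDS.FIN

/-!
# MDS.K1: lengths of MDS codes of all dimensions
-/

set_option autoImplicit false

namespace MDS

open Finset

theorem IsArc.comp {F V ι κ : Type*} [Field F] [AddCommGroup V] [Module F V] {v : ι → V}
    {k : ℕ} (hv : IsArc (F := F) v k) (f : κ → ι) (hf : Function.Injective f) :
    IsArc (F := F) (v ∘ f) k := by
  classical
  intro Y hY
  have h1 : LinearIndepOn F v ((Y.image f : Finset ι) : Set ι) := by
    apply hv
    exact le_trans Finset.card_image_le hY
  rw [Finset.coe_image] at h1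
  exact (h1.comp_of_image (hf.injOn))

theorem no_arc_two' {F : Type*} [Field F] [Fintype F] [DecidableEq F] (N : ℕ)
    (hN : Fintype.card F + 2 ≤ N)
    (v : Fin N → (Fin 2 → F)) : ¬ IsArc (F := F) v 2 := by
  intro hv
  exact no_arc_two _ (hv.comp (Fin.castLE hN) (Fin.castLE_injective hN))

theorem no_arc_big {F : Type*} [Field F] [Fintype F] [DecidableEq F] (k : ℕ)
    (hk : Fintype.card F ≤ k) (v : Fin (k + 2) → (Fin k → F)) : ¬ IsArc (F := F) v k := by
  intro hv
  have h := arc_dual (show k ≤ k + 2 by omega) v hv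
  have e : k + 2 - k = 2 := by omega
  rw [e] at h
  obtain ⟨v', hv'⟩ := h
  exact no_arc_two' (k + 2) (by omega) v' hv'

/-- There is no MDS code of length at least `q + 2` and dimension `k` in the range. -/
theorem no_mds {F : Type*} [Field F] [Fintype F] [DecidableEq F] (p : ℕ) [Fact p.Prime]
    [CharP F p] (hp : p ≠ 2) (n k : ℕ) (hk2 : 2 ≤ k) (hn : k + 2 ≤ n)
    (hnq : Fintype.card F + 2 ≤ n)
    (hk : (2 * p - 3) * min k (Fintype.card F + 2 - k) ≤ (Fintype.card F + 5) * (p - 2) + p)
    (C : Submodule F (Fin n → F)) (hC : Module.finrank F C = k)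
    (hw : ∀ x ∈ C, x ≠ 0 → n - k + 1 ≤ hammingNorm x) : False := by
  by_cases hkq : k < Fintype.card F
  · obtain ⟨v, hv⟩ := arc_of_code (N := Fintype.card F + 2) hnq C hC hw
    refine no_arc_dual p hp k hk2 hkq ?_ v hv
    rcases le_total k (Fintype.card F + 2 - k) with h | h
    · left
      rwa [min_eq_left h] at hk
    · right
      rwa [min_eq_right h] at hk
  · push Not at hkq
    obtain ⟨v, hv⟩ := arc_of_code (N := k + 2) hn C hC hw
    exact no_arc_big k hkq v hv

end MDS
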