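import Mathlib

/-!
# Project MDS: definitions

Project MDS proves new cases of the main conjecture for MDS codes (problem MP_b6c9b4_co).
The blueprint is /team-store/MDS_BLUEPRINT.md.
-/

set_option autoImplicit false

namespace MDS

open Finset

/-- The operator sigma on functions of finite sets: sum of the values at the sets with one
element removed. -/
def sg {ι E : Type*} [DecidableEq ι] [AddCommMonoid E] (f : Finset ι → E) : Finset ι → E :=
  fun Z => ∑ z ∈ Z, f (Z.erase z)

/-- A Koszul system: graded pieces `L r` of a vector space `Λ`, one operator `E s` for every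
index `s`, anticommuting with squares zero, and contractions for every set of at most `n`
indices. The model is the exterior algebra of a space in which any `n` of the vectors `w s` are
linearly independent, `E s` being left multiplication by `w s`. -/
structure KSys (F Λ ι : Type*) [Field F] [AddCommGroup Λ] [Module F Λ] [DecidableEq ι]
    (n : ℕ) where
  L : ℤ → Submodule F Λ
  E : ι → Λ →ₗ[F] Λ
  L_neg : ∀ r : ℤ, r < 0 → L r = ⊥
  E_mem : ∀ (s : ι) (r : ℤ) (x : Λ), x ∈ L r → E s x ∈ L (r + 1)
  E_sq : ∀ (s : ι) (x : Λ), E s (E s x) = 0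
  E_anti : ∀ (s t : ι) (x : Λ), E s (E t x) = - E t (E s x)
  contr : ∀ Y : Finset ι, Y.card ≤ n → ∀ s ∈ Y, ∃ c : Λ →ₗ[F] Λ,
    (∀ (r : ℤ) (x : Λ), x ∈ L (r + 1) → c x ∈ L r) ∧
    (∀ x : Λ, c (E s x) + E s (c x) = x) ∧
    (∀ t ∈ Y, t ≠ s → ∀ x : Λ, c (E t x) + E t (c x) = 0)

namespace KSys

variable {F Λ ι : Type*} [Field F] [AddCommGroup Λ] [Module F Λ] [DecidableEq ι] {n : ℕ}

/-- The part of degree `r` of the left ideal generated by the `E s`, `s ∈ M`. -/
def IdM (K : KSys F Λ ι n) (M : Finset ι) (r : ℤ) : Submodule F Λ :=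
  ⨆ s ∈ M, (K.L (r - 1)).map (K.E s)

/-- The Koszul differential, in the variables `(M, Z)`. -/
def dl (K : KSys F Λ ι n) (h : Finset ι → Finset ι → Λ) : Finset ι → Finset ι → Λ :=
  fun M Z => ∑ s ∈ Z, K.E s (h (insert s M) (Z.erase s))

/-- The operator sigma in the second variable of a function of pairs `(M, Z)`. -/
def sG {ι Λ : Type*} [DecidableEq ι] [AddCommMonoid Λ] (h : Finset ι → Finset ι → Λ) :
    Finset ι → Finset ι → Λ :=
  fun M => sg (h M)

/-- `h` vanishes modulo `IdM M r` at all disjoint pairs `(M, Z)` with `|M| = j`, `|Z| = d`. -/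
def Zer (K : KSys F Λ ι n) (h : Finset ι → Finset ι → Λ) (j : ℕ) (d r : ℤ) : Prop :=
  ∀ M Z : Finset ι, Disjoint M Z → M.card = j → (Z.card : ℤ) = d → h M Z ∈ K.IdM M r

/-- All values of `h` lie in `L r`. -/
def Val (K : KSys F Λ ι n) (h : Finset ι → Finset ι → Λ) (r : ℤ) : Prop :=
  ∀ M Z : Finset ι, h M Z ∈ K.L r

end KSys

/-- The bracket on the plane. -/
def br {F : Type*} [Field F] (a b : F × F) : F := a.1 * b.2 - a.2 * b.1

/-- Any at most `k` of the vectors `v i` are linearly independent. -/
def IsArc {F V ι : Type*} [Field F] [AddCommGroup V] [Module F V] (v : ι → V) (k : ℕ) : Prop :=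
  ∀ Y : Finset ι, Y.card ≤ k → LinearIndepOn F v (Y : Set ι)

/-- The functional attached to a set `C` of `m + 1` indices: the determinant of the vector `u`
and of the vectors with index in `C`, in increasing order (and `0` if `C` has the wrong size). -/
noncomputable def ell {F : Type*} [Field F] {N m : ℕ} (v : Fin N → (Fin (m + 2) → F))
    (C : Finset (Fin N)) (u : Fin (m + 2) → F) : F :=
  if h : C.card = m + 1 then
    Matrix.det (Matrix.of (Fin.cons u (fun i => v (C.orderEmbOfFin h i)) :
      Fin (m + 2) → (Fin (m + 2) → F)))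
  else 0

end MDS
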