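import Pool.Agent.MDS.IDM

/-!
# MDS.ALG: the Koszul system of a family of vectors

`Λ = ExteriorAlgebra F W`, `E s` = left multiplication by `ι (w s)`, and
`L r = (range ι)^r` for `r ≥ 0` (`ExteriorAlgebra.ι F : W →ₗ Λ`, power of the submodule
`LinearMap.range (ExteriorAlgebra.ι F)`), `L r = ⊥` for `r < 0`.

* `E_mem`: `pow_succ'`; for `r < 0`, `x = 0`.
* `E_sq`: `ExteriorAlgebra.ι_sq_zero`. `E_anti`: `ExteriorAlgebra.ι_add_mul_swap` (or expand
  `ι (a + b) * ι (a + b) = 0`).
* `contr`: as `w` restricted to `Y` is linearly independent there is `φ : Module.Dual F W` with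
  `φ (w s) = 1`, `φ (w t) = 0` for `t ∈ Y`, `t ≠ s`; `c` is
  `CliffordAlgebra.contractLeft φ` (the exterior algebra is the Clifford algebra of the form `0`),
  with `CliffordAlgebra.contractLeft_ι_mul : φ⌋(ι a * b) = φ a • b - ι a * (φ⌋b)`,
  `contractLeft_one`, `contractLeft_algebraMap`. That `c` maps `L (r+1)` to `L r`: by induction on
  `r ≥ -1` (`c` kills the scalars; `(range ι)^(m+1) = range ι * (range ι)^m` is spanned by the
  products `ι a * b`, `Submodule.mul_induction_on`).
-/

set_option autoImplicit false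

namespace MDS

open Finset

variable {F W ι : Type*} [Field F] [AddCommGroup W] [Module F W] [DecidableEq ι]

/-- The graded pieces of the exterior algebra, for all integers. -/
noncomputable def gr (F W : Type*) [Field F] [AddCommGroup W] [Module F W] (r : ℤ) :
    Submodule F (ExteriorAlgebra F W) :=
  if r < 0 then ⊥ else (LinearMap.range (ExteriorAlgebra.ι F : W →ₗ[F] _)) ^ r.toNat

/-- Left multiplication by the vector `a`. -/
noncomputable def mulV (F : Type*) {W : Type*} [Field F] [AddCommGroup W] [Module F W] (a : W) :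
    ExteriorAlgebra F W →ₗ[F] ExteriorAlgebra F W :=
  LinearMap.mulLeft F (ExteriorAlgebra.ι F a)

theorem algebraMap_mem_gr (c : F) :
    algebraMap F (ExteriorAlgebra F W) c ∈ gr F W 0 := by
  unfold gr
  rw [if_neg (by omega)]
  have h : (0 : ℤ).toNat = 0 := rfl
  rw [h, pow_zero]
  exact Submodule.algebraMap_mem c

theorem alg_gr_neg {r : ℤ} (h : r < 0) : gr F W r = ⊥ := by
  unfold gr
  rw [if_pos h]

theorem alg_gr_nat (k : ℕ) :
    gr F W (k : ℤ) = (LinearMap.range (ExteriorAlgebra.ι F : W →ₗ[F] _)) ^ k := by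
  unfold gr
  rw [if_neg (by omega), Int.toNat_natCast]

theorem alg_mul_mem (a : W) (r : ℤ) (x : ExteriorAlgebra F W) (hx : x ∈ gr F W r) :
    ExteriorAlgebra.ι F a * x ∈ gr F W (r + 1) := by
  rcases lt_or_ge r 0 with h | h
  · rw [alg_gr_neg h, Submodule.mem_bot] at hx
    rw [hx, mul_zero]
    exact Submodule.zero_mem _
  · obtain ⟨k, rfl⟩ := Int.eq_ofNat_of_zero_le h
    rw [alg_gr_nat] at hx
    have e : ((k : ℤ) + 1) = ((k + 1 : ℕ) : ℤ) := by push_cast; rfl
    rw [e, alg_gr_nat, pow_succ']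
    exact Submodule.mul_mem_mul ⟨a, rfl⟩ hx

theorem alg_dual (w : ι → W) (Y : Finset ι) (hw : LinearIndepOn F w (Y : Set ι)) (s : ι)
    (hs : s ∈ Y) : ∃ φ : Module.Dual F W, φ (w s) = 1 ∧ ∀ t ∈ Y, t ≠ s → φ (w t) = 0 := by
  classical
  have hli : LinearIndependent F (fun x : (Y : Set ι) => w x) := hw
  obtain ⟨g, hg⟩ := LinearMap.exists_extend
    ((Module.Basis.span hli).coord ⟨s, Finset.mem_coe.2 hs⟩)
  have key : ∀ t (ht : t ∈ Y), g (w t) = if t = s then 1 else 0 := by
    intro t ht
    have h1 : ((Module.Basis.span hli ⟨t, Finset.mem_coe.2 ht⟩ :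
        Submodule.span F (Set.range fun x : (Y : Set ι) => w x)) : W) = w t :=
      congrArg Subtype.val (Module.Basis.span_apply hli ⟨t, Finset.mem_coe.2 ht⟩)
    have h2 : g (w t) = (Module.Basis.span hli).coord ⟨s, Finset.mem_coe.2 hs⟩
        (Module.Basis.span hli ⟨t, Finset.mem_coe.2 ht⟩) := by
      rw [← hg, LinearMap.comp_apply, Submodule.subtype_apply, h1]
    rw [h2, Module.Basis.coord_apply, Module.Basis.repr_self, Finsupp.single_apply]
    simp only [Subtype.mk.injEq]
  refine ⟨g, ?_, ?_⟩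
  · rw [key s hs, if_pos rfl]
  · intro t ht hts
    rw [key t ht, if_neg hts]

theorem alg_contr_mem (φ : Module.Dual F W) (m : ℕ) : ∀ x : ExteriorAlgebra F W,
    x ∈ (LinearMap.range (ExteriorAlgebra.ι F : W →ₗ[F] _)) ^ (m + 1) →
    CliffordAlgebra.contractLeft φ x ∈
      (LinearMap.range (ExteriorAlgebra.ι F : W →ₗ[F] _)) ^ m := by
  induction m with
  | zero =>
    intro x hx
    rw [zero_add, pow_one] at hx
    obtain ⟨a, rfl⟩ := hx
    have h1 : CliffordAlgebra.contractLeft φ (ExteriorAlgebra.ι F a) =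
        algebraMap F (ExteriorAlgebra F W) (φ a) := CliffordAlgebra.contractLeft_ι _ _ _
    rw [h1, pow_zero]
    exact Submodule.algebraMap_mem _
  | succ m ih =>
    intro x hx
    rw [pow_succ'] at hx
    refine Submodule.mul_induction_on hx ?_ ?_
    · rintro y ⟨a, rfl⟩ b hb
      have h1 : CliffordAlgebra.contractLeft φ (ExteriorAlgebra.ι F a * b) =
          φ a • b - ExteriorAlgebra.ι F a * CliffordAlgebra.contractLeft φ b :=
        CliffordAlgebra.contractLeft_ι_mul _ _ _
      rw [h1]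
      refine Submodule.sub_mem _ (Submodule.smul_mem _ _ hb) ?_
      rw [pow_succ']
      exact Submodule.mul_mem_mul ⟨a, rfl⟩ (ih b hb)
    · intro y z hy hz
      rw [map_add]
      exact Submodule.add_mem _ hy hz

theorem alg_contr_gr (φ : Module.Dual F W) (r : ℤ) (x : ExteriorAlgebra F W)
    (hx : x ∈ gr F W (r + 1)) : CliffordAlgebra.contractLeft φ x ∈ gr F W r := by
  rcases lt_or_ge (r + 1) 0 with h | h
  · rw [alg_gr_neg h, Submodule.mem_bot] at hx
    rw [hx, map_zero]
    exact Submodule.zero_mem _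
  · obtain ⟨k, hk⟩ := Int.eq_ofNat_of_zero_le h
    rw [hk, alg_gr_nat] at hx
    rcases Nat.eq_zero_or_pos k with h0 | h0
    · rw [h0, pow_zero] at hx
      obtain ⟨c, rfl⟩ := Submodule.mem_one.1 hx
      have h1 : CliffordAlgebra.contractLeft φ (algebraMap F (ExteriorAlgebra F W) c) = 0 :=
        CliffordAlgebra.contractLeft_algebraMap _ _ _
      rw [h1]
      exact Submodule.zero_mem _
    · obtain ⟨m, rfl⟩ : ∃ m, k = m + 1 := ⟨k - 1, by omega⟩
      have hr : r = (m : ℤ) := by
        push_cast at hk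
        linarith
      rw [hr, alg_gr_nat]
      exact alg_contr_mem φ m x hx

theorem exists_ksys (w : ι → W) (n : ℕ) (hw : IsArc (F := F) w n) :
    ∃ K : KSys F (ExteriorAlgebra F W) ι n, K.L = gr F W ∧ K.E = fun s => mulV F (w s) := by
  refine ⟨{ L := gr F W
            E := fun s => mulV F (w s)
            L_neg := fun r hr => alg_gr_neg hr
            E_mem := fun s r x hx => alg_mul_mem (w s) r x hx
            E_sq := ?_
            E_anti := ?_
            contr := ?_ }, rfl, rfl⟩
  · intro s x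
    show ExteriorAlgebra.ι F (w s) * (ExteriorAlgebra.ι F (w s) * x) = 0
    rw [← mul_assoc, ExteriorAlgebra.ι_sq_zero, zero_mul]
  · intro s t x
    show ExteriorAlgebra.ι F (w s) * (ExteriorAlgebra.ι F (w t) * x) =
      - (ExteriorAlgebra.ι F (w t) * (ExteriorAlgebra.ι F (w s) * x))
    rw [← mul_assoc, ← mul_assoc, eq_neg_iff_add_eq_zero, ← add_mul,
      ExteriorAlgebra.ι_add_mul_swap, zero_mul]
  · intro Y hY s hs
    obtain ⟨φ, h1, h2⟩ := alg_dual w Y (hw Y hY) s hs
    refine ⟨CliffordAlgebra.contractLeft φ, ?_, ?_, ?_⟩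
    · intro r x hx
      exact alg_contr_gr φ r x hx
    · intro x
      have h3 : CliffordAlgebra.contractLeft φ (ExteriorAlgebra.ι F (w s) * x) =
          φ (w s) • x - ExteriorAlgebra.ι F (w s) * CliffordAlgebra.contractLeft φ x :=
        CliffordAlgebra.contractLeft_ι_mul _ _ _
      show CliffordAlgebra.contractLeft φ (ExteriorAlgebra.ι F (w s) * x) +
        ExteriorAlgebra.ι F (w s) * CliffordAlgebra.contractLeft φ x = x
      rw [h3, h1, one_smul, sub_add_cancel]
    · intro t ht hts x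
      have h3 : CliffordAlgebra.contractLeft φ (ExteriorAlgebra.ι F (w t) * x) =
          φ (w t) • x - ExteriorAlgebra.ι F (w t) * CliffordAlgebra.contractLeft φ x :=
        CliffordAlgebra.contractLeft_ι_mul _ _ _
      show CliffordAlgebra.contractLeft φ (ExteriorAlgebra.ι F (w t) * x) +
        ExteriorAlgebra.ι F (w t) * CliffordAlgebra.contractLeft φ x = 0
      rw [h3, h2 t ht hts, zero_smul, zero_sub, neg_add_cancel]

end MDS
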