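import Pool.Agent.MDS.Defs

/-!
# MDS.BRK: the determinant as a function of its first two rows

Write `φ u z` for the determinant of the rows `u`, `z`, `a 0, ..., a (m-1)` (`m + 2` rows in all);
it is bilinear in `(u, z)` and `φ u u = 0`. If `φ = 0` take `f = 0`. Otherwise choose
`u0`, `z0` with `c := φ u0 z0 ≠ 0`. By the rule of Cramer
`c • u = φ u z0 • u0 + φ u0 u • z0 +` a combination of the `a i`. Put
`f u := (φ u z0 / c, φ u0 u)`. Apply `φ · z` to this identity:
`c * φ u z = φ u z0 * φ u0 z - φ u0 u * φ z z0`, that is `φ u z = br (f u) (f z)`.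
-/

set_option autoImplicit false

namespace MDS

open Finset

/-- the determinant with the first two rows `u`, `z` -/
noncomputable def brkD {F : Type*} [Field F] {m : ℕ} (a : Fin m → (Fin (m + 2) → F))
    (u z : Fin (m + 2) → F) : F :=
  Matrix.det (Matrix.of (Fin.cons u (Fin.cons z a : Fin (m + 1) → (Fin (m + 2) → F)) :
        Fin (m + 2) → (Fin (m + 2) → F)))

theorem brk_add1 {F : Type*} [Field F] {m : ℕ} (a : Fin m → (Fin (m + 2) → F))
    (u u' z : Fin (m + 2) → F) : brkD a (u + u') z = brkD a u z + brkD a u' z := by
  exact MultilinearMap.cons_add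
    (Matrix.detRowAlternating (R := F) (n := Fin (m + 2))).toMultilinearMap
    (Fin.cons z a : Fin (m + 1) → (Fin (m + 2) → F)) u u'

theorem brk_smul1 {F : Type*} [Field F] {m : ℕ} (a : Fin m → (Fin (m + 2) → F))
    (c : F) (u z : Fin (m + 2) → F) : brkD a (c • u) z = c * brkD a u z := by
  exact MultilinearMap.cons_smul
    (Matrix.detRowAlternating (R := F) (n := Fin (m + 2))).toMultilinearMap
    (Fin.cons z a : Fin (m + 1) → (Fin (m + 2) → F)) c u

theorem brk_add2 {F : Type*} [Field F] {m : ℕ} (a : Fin m → (Fin (m + 2) → F))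
    (u z z' : Fin (m + 2) → F) : brkD a u (z + z') = brkD a u z + brkD a u z' := by
  exact MultilinearMap.cons_add
    ((Matrix.detRowAlternating (R := F) (n := Fin (m + 2))).toMultilinearMap.curryLeft u)
    (a : Fin m → (Fin (m + 2) → F)) z z'

theorem brk_smul2 {F : Type*} [Field F] {m : ℕ} (a : Fin m → (Fin (m + 2) → F))
    (c : F) (u z : Fin (m + 2) → F) : brkD a u (c • z) = c * brkD a u z := by
  exact MultilinearMap.cons_smul
    ((Matrix.detRowAlternating (R := F) (n := Fin (m + 2))).toMultilinearMap.curryLeft u)
    (a : Fin m → (Fin (m + 2) → F)) c z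

theorem brk_self {F : Type*} [Field F] {m : ℕ} (a : Fin m → (Fin (m + 2) → F))
    (u : Fin (m + 2) → F) : brkD a u u = 0 := by
  unfold brkD
  refine Matrix.det_zero_of_row_eq (i := 0) (j := 1) ?_ ?_
  · intro h
    have := congrArg Fin.val h
    simp at this
  · rfl

theorem brk_swap {F : Type*} [Field F] {m : ℕ} (a : Fin m → (Fin (m + 2) → F))
    (u z : Fin (m + 2) → F) : brkD a u z = - brkD a z u := by
  have h := brk_self a (u + z)
  rw [brk_add1, brk_add2, brk_add2, brk_self, brk_self] at h
  linear_combination h

theorem brk_row {F : Type*} [Field F] {m : ℕ} (a : Fin m → (Fin (m + 2) → F)) (k : Fin m)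
    (z : Fin (m + 2) → F) : brkD a (a k) z = 0 := by
  unfold brkD
  refine Matrix.det_zero_of_row_eq (i := 0) (j := k.succ.succ) ?_ ?_
  · exact (Fin.succ_ne_zero _).symm
  · rfl

theorem brk_sum {F : Type*} [Field F] {m : ℕ} (a : Fin m → (Fin (m + 2) → F)) {κ : Type*}
    (s : Finset κ) (g : κ → (Fin (m + 2) → F)) (z : Fin (m + 2) → F) :
    brkD a (∑ i ∈ s, g i) z = ∑ i ∈ s, brkD a (g i) z := by
  classical
  induction s using Finset.induction_on with
  | empty =>
    rw [Finset.sum_empty, Finset.sum_empty]
    have := brk_smul1 a 0 0 z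
    rwa [zero_smul, zero_mul] at this
  | insert i s hi ih =>
    rw [Finset.sum_insert hi, Finset.sum_insert hi, brk_add1, ih]

theorem exists_br {F : Type*} [Field F] {m : ℕ} (a : Fin m → (Fin (m + 2) → F)) :
    ∃ f : (Fin (m + 2) → F) →ₗ[F] F × F, ∀ u z : Fin (m + 2) → F,
      Matrix.det (Matrix.of (Fin.cons u (Fin.cons z a : Fin (m + 1) → (Fin (m + 2) → F)) :
        Fin (m + 2) → (Fin (m + 2) → F))) = br (f u) (f z) := by
  classical
  suffices H : ∃ f : (Fin (m + 2) → F) →ₗ[F] F × F, ∀ u z : Fin (m + 2) → F,
      brkD a u z = br (f u) (f z) from H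
  by_cases h0 : ∀ u z, brkD a u z = 0
  · refine ⟨0, fun u z => ?_⟩
    rw [h0 u z]
    simp [br]
  · push Not at h0
    obtain ⟨u0, z0, hc⟩ := h0
    obtain ⟨c, hcc⟩ : ∃ c, c = brkD a u0 z0 := ⟨_, rfl⟩
    rw [← hcc] at hc
    refine ⟨{ toFun := fun u => (brkD a u z0 / c, brkD a u0 u)
              map_add' := ?_
              map_smul' := ?_ }, ?_⟩
    · intro u u'
      rw [brk_add1, brk_add2, add_div]
      rfl
    · intro t u
      rw [brk_smul1, brk_smul2, mul_div_assoc]
      rfl
    · intro u z
      show brkD a u z = brkD a u z0 / c * brkD a u0 z - brkD a u0 u * (brkD a z z0 / c)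
      have key : c * brkD a u z = brkD a u z0 * brkD a u0 z - brkD a u0 u * brkD a z z0 := by
        obtain ⟨A, hA⟩ : ∃ A : Matrix (Fin (m + 2)) (Fin (m + 2)) F,
          A = Matrix.of (Fin.cons u0 (Fin.cons z0 a : Fin (m + 1) → (Fin (m + 2) → F)) :
            Fin (m + 2) → (Fin (m + 2) → F)) := ⟨_, rfl⟩
        have hdet : A.det = c := by
          rw [hA, hcc]
          rfl
        have h1 := Matrix.mulVec_cramer A.transpose u
        rw [Matrix.det_transpose, hdet] at h1
        have h2 : c • u = ∑ i, (A.updateRow i u).det • A i := by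
          rw [← h1]
          funext k
          rw [Finset.sum_apply]
          simp only [Matrix.mulVec, dotProduct, Matrix.transpose_apply, Matrix.cramer_transpose_apply,
            Pi.smul_apply, smul_eq_mul]
          refine Finset.sum_congr rfl fun i _ => ?_
          ring
        rw [Fin.sum_univ_succ, Fin.sum_univ_succ] at h2
        have r0 : A 0 = u0 := by
          rw [hA]
          rfl
        have r1 : A (Fin.succ 0) = z0 := by
          rw [hA]
          rfl
        have r2 : ∀ k : Fin m, A k.succ.succ = a k := by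
          intro k
          rw [hA]
          rfl
        have d0 : (A.updateRow 0 u).det = brkD a u z0 := by
          unfold brkD
          congr 1
          ext i j
          refine Fin.cases ?_ (fun i => ?_) i
          · rw [Matrix.updateRow_self]
            rfl
          · rw [Matrix.updateRow_ne (Fin.succ_ne_zero _), hA]
            rfl
        have d1 : (A.updateRow (Fin.succ 0) u).det = brkD a u0 u := by
          unfold brkD
          congr 1
          ext i j
          refine Fin.cases ?_ (fun i => ?_) i
          · rw [Matrix.updateRow_ne (Fin.succ_ne_zero _).symm, hA]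
            rfl
          · refine Fin.cases ?_ (fun i => ?_) i
            · rw [Matrix.updateRow_self]
              rfl
            · have hne : i.succ.succ ≠ Fin.succ (0 : Fin (m + 1)) := by
                intro h
                exact Fin.succ_ne_zero _ (Fin.succ_injective _ h)
              rw [Matrix.updateRow_ne hne, hA]
              rfl
        rw [r0, r1, d0, d1] at h2
        simp only [r2] at h2
        have h3 : brkD a (c • u) z = c * brkD a u z := brk_smul1 a c u z
        rw [← h3, h2, brk_add1, brk_add1, brk_smul1, brk_smul1, brk_sum]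
        have h4 : ∑ k : Fin m, brkD a ((A.updateRow k.succ.succ u).det • a k) z = 0 := by
          refine Finset.sum_eq_zero fun k _ => ?_
          rw [brk_smul1, brk_row, mul_zero]
        rw [h4, brk_swap a z0 z]
        ring
      field_simp
      linear_combination key

end MDS
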