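import Pool.Agent.MDS.Defs

/-!
# MDS.IDM: the ideals `IdM M r`

`IdM M r = ⨆ s ∈ M, (L (r - 1)).map (E s)`. First prove `mem_IdM` (induction on `M`, or
`Submodule.mem_iSup_finset_iff_exists_sum`), then everything follows:

* `E_mem_IdM`: `E t (E s w) = - E s (E t w)` with `E t w ∈ L r` (as `(r - 1) + 1 = (r + 1) - 1`).
* `E_mem_IdM_insert`: moreover `E s (E s w) = 0`.
* `exists_sub_mem_IdM`: split off the term `s` of the sum in `mem_IdM`.
* `contr_mem_IdM`: `c (E t w) = - E t (c w)` for `t ∈ M`, and `c w ∈ L (r - 1)`.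
* `IdM_inj`: let `c` be the contraction for `s` in `Y = insert s M`. From `E s w ∈ IdM M (r+1)`
  one gets `c (E s w) ∈ IdM M r` and `w = c (E s w) + E s (c w)` with `c w ∈ L (r - 1)`.
-/

set_option autoImplicit false

namespace MDS

open Finset

namespace KSys

variable {F Λ ι : Type*} [Field F] [AddCommGroup Λ] [Module F Λ] [DecidableEq ι] {n : ℕ}

private theorem idm_self (K : KSys F Λ ι n) {M : Finset ι} {s : ι} (hs : s ∈ M) (r : ℤ) {w : Λ}
    (hw : w ∈ K.L (r - 1)) : K.E s w ∈ K.IdM M r :=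
  Submodule.mem_iSup_of_mem s (Submodule.mem_iSup_of_mem hs (Submodule.mem_map_of_mem hw))

theorem mem_IdM (K : KSys F Λ ι n) (M : Finset ι) (r : ℤ) (x : Λ) :
    x ∈ K.IdM M r ↔ ∃ w : ι → Λ, (∀ s, w s ∈ K.L (r - 1)) ∧ x = ∑ s ∈ M, K.E s (w s) := by
  constructor
  · induction M using Finset.induction_on generalizing x with
    | empty =>
      intro hx
      have hx0 : x = 0 := by simpa [IdM] using hx
      exact ⟨fun _ => 0, fun _ => Submodule.zero_mem _, by simp [hx0]⟩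
    | insert s M hs ih =>
      intro hx
      rw [IdM, Finset.iSup_insert, Submodule.mem_sup] at hx
      obtain ⟨y, hy, z, hz, rfl⟩ := hx
      obtain ⟨w0, hw0, rfl⟩ := Submodule.mem_map.1 hy
      obtain ⟨w, hw, rfl⟩ := ih z hz
      refine ⟨Function.update w s w0, fun t => ?_, ?_⟩
      · by_cases h : t = s
        · subst h; simpa using hw0
        · simpa [Function.update_of_ne h] using hw t
      · rw [Finset.sum_insert hs, Function.update_self]
        congr 1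
        refine Finset.sum_congr rfl (fun t ht => ?_)
        have h : t ≠ s := fun h => hs (h ▸ ht)
        rw [Function.update_of_ne h]
  · rintro ⟨w, hw, rfl⟩
    exact Submodule.sum_mem _ (fun s hs => idm_self K hs r (hw s))

theorem IdM_mono (K : KSys F Λ ι n) {M M' : Finset ι} (h : M ⊆ M') (r : ℤ) :
    K.IdM M r ≤ K.IdM M' r :=
  biSup_mono (fun _ hs => h hs)

theorem IdM_le (K : KSys F Λ ι n) (M : Finset ι) (r : ℤ) : K.IdM M r ≤ K.L r := by
  refine iSup₂_le (fun s _ => ?_)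
  rw [Submodule.map_le_iff_le_comap]
  intro x hx
  have h := K.E_mem s (r - 1) x hx
  rw [sub_add_cancel] at h
  exact h

theorem IdM_empty (K : KSys F Λ ι n) (r : ℤ) : K.IdM ∅ r = ⊥ := by
  simp [IdM]

theorem IdM_nonpos (K : KSys F Λ ι n) (M : Finset ι) (r : ℤ) (hr : r ≤ 0) : K.IdM M r = ⊥ := by
  have h : K.L (r - 1) = ⊥ := K.L_neg (r - 1) (by omega)
  simp [IdM, h]

theorem E_mem_IdM_self (K : KSys F Λ ι n) {M : Finset ι} {s : ι} (hs : s ∈ M) (r : ℤ) {w : Λ}
    (hw : w ∈ K.L (r - 1)) : K.E s w ∈ K.IdM M r :=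
  idm_self K hs r hw

private theorem idm_swap (K : KSys F Λ ι n) {M : Finset ι} (r : ℤ) (s : ι) {t : ι} (ht : t ∈ M)
    {w : Λ} (hw : w ∈ K.L (r - 1)) : K.E s (K.E t w) ∈ K.IdM M (r + 1) := by
  rw [K.E_anti]
  refine Submodule.neg_mem _ (idm_self K ht (r + 1) ?_)
  have h := K.E_mem s (r - 1) w hw
  rw [sub_add_cancel] at h
  rw [add_sub_cancel_right]
  exact h

theorem E_mem_IdM (K : KSys F Λ ι n) (M : Finset ι) (r : ℤ) (s : ι) {x : Λ}
    (hx : x ∈ K.IdM M r) : K.E s x ∈ K.IdM M (r + 1) := by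
  obtain ⟨w, hw, rfl⟩ := (mem_IdM K M r x).1 hx
  rw [map_sum]
  exact Submodule.sum_mem _ (fun t ht => idm_swap K r s ht (hw t))

theorem E_mem_IdM_insert (K : KSys F Λ ι n) (M : Finset ι) (r : ℤ) (s : ι) {x : Λ}
    (hx : x ∈ K.IdM (insert s M) r) : K.E s x ∈ K.IdM M (r + 1) := by
  obtain ⟨w, hw, rfl⟩ := (mem_IdM K (insert s M) r x).1 hx
  rw [map_sum]
  refine Submodule.sum_mem _ (fun t ht => ?_)
  rcases Finset.mem_insert.1 ht with h | h
  · subst h
    rw [K.E_sq]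
    exact Submodule.zero_mem _
  · exact idm_swap K r s h (hw t)

theorem exists_sub_mem_IdM (K : KSys F Λ ι n) (M : Finset ι) (r : ℤ) (s : ι) {x : Λ}
    (hx : x ∈ K.IdM (insert s M) r) :
    ∃ w ∈ K.L (r - 1), x - K.E s w ∈ K.IdM M r := by
  by_cases hs : s ∈ M
  · rw [Finset.insert_eq_of_mem hs] at hx
    exact ⟨0, Submodule.zero_mem _, by simpa using hx⟩
  · obtain ⟨w, hw, rfl⟩ := (mem_IdM K (insert s M) r x).1 hx
    refine ⟨w s, hw s, ?_⟩
    rw [Finset.sum_insert hs, add_sub_cancel_left]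
    exact Submodule.sum_mem _ (fun t ht => idm_self K ht r (hw t))

theorem contr_mem_IdM (K : KSys F Λ ι n) (M : Finset ι) (r : ℤ) (c : Λ →ₗ[F] Λ)
    (hc : ∀ (r : ℤ) (x : Λ), x ∈ K.L (r + 1) → c x ∈ K.L r)
    (hM : ∀ t ∈ M, ∀ x : Λ, c (K.E t x) + K.E t (c x) = 0) {x : Λ}
    (hx : x ∈ K.IdM M (r + 1)) : c x ∈ K.IdM M r := by
  obtain ⟨w, hw, rfl⟩ := (mem_IdM K M (r + 1) x).1 hx
  rw [map_sum]
  refine Submodule.sum_mem _ (fun t ht => ?_)
  rw [eq_neg_of_add_eq_zero_left (hM t ht (w t))]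
  refine Submodule.neg_mem _ (idm_self K ht r (hc (r - 1) (w t) ?_))
  have h := hw t
  rw [add_sub_cancel_right] at h
  rw [sub_add_cancel]
  exact h

theorem IdM_inj (K : KSys F Λ ι n) (M : Finset ι) (s : ι) (hs : s ∉ M)
    (hn : (insert s M).card ≤ n) (r : ℤ) {w : Λ} (hw : w ∈ K.L r)
    (h : K.E s w ∈ K.IdM M (r + 1)) : w ∈ K.IdM (insert s M) r := by
  obtain ⟨c, hc1, hc2, hc3⟩ := K.contr (insert s M) hn s (Finset.mem_insert_self s M)
  have h1 : c (K.E s w) ∈ K.IdM M r :=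
    contr_mem_IdM K M r c hc1 (fun t ht x => hc3 t (Finset.mem_insert_of_mem ht)
      (fun hts => hs (hts ▸ ht)) x) h
  have h2 : K.E s (c w) ∈ K.IdM (insert s M) r := by
    refine idm_self K (Finset.mem_insert_self s M) r (hc1 (r - 1) w ?_)
    rw [sub_add_cancel]
    exact hw
  have h3 := Submodule.add_mem _ (IdM_mono K (Finset.subset_insert s M) r h1) h2
  rw [hc2 w] at h3
  exact h3

end KSys

end MDS
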