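import Pool.Agent.MDS.STEP
import Pool.Agent.MDS.IDM

/-!
# MDS.XL: exactness of sigma with the coefficients `L r / IdM (X ∪ Z) r`

Induction on `T` (all other variables generalized; statement for all `X`, `r`, `d`, `a`, `f`).

If `r < 0` then `L r = ⊥`, `f = 0` and `g = 0` works. If `d < 0` take `g = 0` (nothing to prove).
So let `r ≥ 0`, `d ≥ 0`. `T = ∅`: then `n ≤ |X|`, so `2 d + a ≤ n - |X| - r ≤ 0`, impossible.

`insert x T'` with `x ∉ T'`; put `X' := insert x X` (`x ∉ X` by disjointness), so that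
`|X'| + |T'| = |X| + |T|` and `n - |X'| - r = (n - |X| - r) - 1`.

STEP B. Apply `MDS.step` with `T := T'`, `P := L r`, `J Z := IdM (X' ∪ Z) r` (monotone by
`IdM_mono`), `b := n - |X'| - r`, `ih` := the induction hypothesis for `X'` and `r`. `h0`: for
`Z ⊆ T'` we have `s^a f Z ∈ IdM (X ∪ Z) r ≤ IdM (X' ∪ Z) r`; `h1`: at `insert x Z` one has
`X ∪ insert x Z = X' ∪ Z`. This gives `G` with values in `L r`. Put `f2 := s^(p-a) G - f`
(values in `L r`). For `Z ⊆ T'` of size `d - 1`: `f2 (insert x Z) ∈ IdM (X ∪ insert x Z) r`.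
For `Z ⊆ T'` of size `d`: `f2 Z ∈ IdM (X' ∪ Z) r = IdM (insert x (X ∪ Z)) r`, so by
`exists_sub_mem_IdM` there is `w Z ∈ L (r - 1)` with `f2 Z - E x (w Z) ∈ IdM (X ∪ Z) r`
(choose `w Z := 0` for all other `Z`).

STEP A. For `Z ⊆ T'` of size `d + a`: `s^a f2 Z = s^p G Z - s^a f Z = - s^a f Z ∈ IdM (X ∪ Z) r`
and `s^a (f2 - E x ∘ w) Z ∈ IdM (X ∪ Z) r` (`sg_iter_mem`), so
`E x (s^a w Z) ∈ IdM (X ∪ Z) r` (`sg_iter_map`). As `x ∉ X ∪ Z` and
`|insert x (X ∪ Z)| ≤ |X| + 1 + d + a ≤ n` when `r ≥ 1` (from `2 d + a ≤ n - |X| - r`, `d ≥ 0`),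
`IdM_inj` (with `r - 1`) gives `s^a w Z ∈ IdM (insert x (X ∪ Z)) (r - 1) = IdM (X' ∪ Z) (r-1)`.
(When `r = 0` all `w Z` lie in `L (-1) = ⊥`, so this is trivial.) The induction hypothesis for
`X'` and `r - 1` (bound `n - |X'| - (r - 1) = n - |X| - r`) gives `w1` with values in
`L (r - 1)` and `s^(p-a) w1 Z - w Z ∈ IdM (X' ∪ Z) (r - 1)` for `Z ⊆ T'` of size `d`; by
`E_mem_IdM_insert`, `E x (s^(p-a) w1 Z) - E x (w Z) ∈ IdM (X ∪ Z) r`.

Put `G2 Z := if x ∈ Z then 0 else E x (w1 Z)` (values in `L r`) and `g := G - G2`. Check for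
`Z ⊆ T` of size `d`. If `x ∉ Z`: `s^(p-a) g Z - f Z = f2 Z - E x (s^(p-a) w1 Z)`, and
`f2 Z - E x (w Z)`, `E x (w Z) - E x (s^(p-a) w1 Z)` are in `IdM (X ∪ Z) r`. If `x ∈ Z`,
`Z = insert x Z'`: `s^(p-a) G Z - f Z ∈ IdM (X ∪ Z) r`, and `s^(p-a) G2 Z` is
(`sg_iter_insert`) `(p-a) • s^(p-a-1) G2 Z' + 0 = (p-a) • E x (..)`, in `IdM (X ∪ Z) r` by
`E_mem_IdM_self` as `x ∈ Z`.
-/

set_option autoImplicit false

namespace MDS

open Finset

variable {F Λ ι : Type*} [Field F] [AddCommGroup Λ] [Module F Λ] [DecidableEq ι] {n : ℕ}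

private theorem trivial_case (K : KSys F Λ ι n) (r d : ℤ) (m : ℕ) (T X : Finset ι)
    (h : r < 0 ∨ d < 0) (f : Finset ι → Λ) (hf : ∀ Z, f Z ∈ K.L r) :
    ∃ g : Finset ι → Λ, (∀ Z, g Z ∈ K.L r) ∧
        ∀ Z ⊆ T, (Z.card : ℤ) = d →
          (sg^[m] g : Finset ι → Λ) Z - f Z ∈ K.IdM (X ∪ Z) r := by
  refine ⟨0, fun Z => Submodule.zero_mem _, fun Z _ hZ => ?_⟩
  rcases h with h | h
  · have h1 := hf Z
    rw [K.L_neg r h, Submodule.mem_bot] at h1
    rw [h1, sg_iter_zero]
    simp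
  · exfalso
    omega

theorem xl (K : KSys F Λ ι n) (p : ℕ) [Fact p.Prime] [CharP F p] (T : Finset ι) :
    ∀ (X : Finset ι) (r d : ℤ) (a : ℕ), Disjoint X T → n ≤ X.card + T.card → 1 ≤ a → a < p →
      2 * d + a ≤ (n : ℤ) - X.card - r → ∀ f : Finset ι → Λ, (∀ Z, f Z ∈ K.L r) →
      (∀ Z ⊆ T, (Z.card : ℤ) = d + a → (sg^[a] f : Finset ι → Λ) Z ∈ K.IdM (X ∪ Z) r) →
      ∃ g : Finset ι → Λ, (∀ Z, g Z ∈ K.L r) ∧
        ∀ Z ⊆ T, (Z.card : ℤ) = d →
          (sg^[p - a] g : Finset ι → Λ) Z - f Z ∈ K.IdM (X ∪ Z) r := by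
  induction T using Finset.induction_on with
  | empty =>
    intro X r d a _ hn ha hap hb f hf hs
    by_cases hrd : r < 0 ∨ d < 0
    · exact trivial_case K r d _ _ X hrd f hf
    push Not at hrd
    exfalso
    rw [Finset.card_empty] at hn
    omega
  | insert x T' hx ih =>
    intro X r d a hdisj hn ha hap hb f hf hs
    by_cases hrd : r < 0 ∨ d < 0
    · exact trivial_case K r d _ _ X hrd f hf
    push Not at hrd
    obtain ⟨hr0, hd0⟩ := hrd
    rw [Finset.disjoint_insert_right] at hdisj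
    obtain ⟨hxX, hdisj⟩ := hdisj
    have hdisj' : Disjoint (insert x X) T' := by
      rw [Finset.disjoint_insert_left]
      exact ⟨hx, hdisj⟩
    have hc1 : (insert x X).card = X.card + 1 := Finset.card_insert_of_notMem hxX
    have hc2 : (insert x T').card = T'.card + 1 := Finset.card_insert_of_notMem hx
    have hcard' : n ≤ (insert x X).card + T'.card := by omega
    have hu1 : ∀ Z : Finset ι, insert x X ∪ Z = insert x (X ∪ Z) := fun Z => Finset.insert_union _ _ _
    have hu2 : ∀ Z : Finset ι, X ∪ insert x Z = insert x (X ∪ Z) := fun Z => Finset.union_insert _ _ _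
    have hxZ : ∀ Z ⊆ T', x ∉ Z := fun Z hZ h => hx (hZ h)
    have hcZ : ∀ Z ⊆ T', (insert x Z).card = Z.card + 1 := fun Z hZ =>
      Finset.card_insert_of_notMem (hxZ Z hZ)
    -- step B
    obtain ⟨G, hGP, hG0, hG1⟩ := step (F := F) p (K.L r) (fun Z => K.IdM (insert x X ∪ Z) r)
      (fun Y Z hYZ => K.IdM_mono (Finset.union_subset_union_right hYZ) r) T' x hx
      ((n : ℤ) - (insert x X).card - r)
      (fun d a h1 h2 h3 f hf hs => ih (insert x X) r d a hdisj' hcard' h1 h2 h3 f hf hs)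
      d a ha hap (by rw [hc1]; push_cast; omega) f hf
      (fun Z hZ hc => K.IdM_mono (Finset.union_subset_union_left (Finset.subset_insert _ _)) r
        (hs Z (hZ.trans (Finset.subset_insert _ _)) hc))
      (fun Z hZ hc => by
        have := hs (insert x Z) (Finset.insert_subset_insert _ hZ) (by
          rw [hcZ Z hZ]; push_cast; omega)
        rw [hu2] at this
        show _ ∈ K.IdM (insert x X ∪ Z) r
        rw [hu1]
        exact this)
    set f2 : Finset ι → Λ := (sg^[p - a] G : Finset ι → Λ) - f with hf2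
    have hGit : ∀ Z, (sg^[p - a] G : Finset ι → Λ) Z ∈ K.L r := sg_iter_val _ _ _ hGP
    have hf2v : ∀ Z, f2 Z ∈ K.L r := fun Z => Submodule.sub_mem _ (hGit Z) (hf Z)
    have hex : ∀ Z : Finset ι, ∃ w ∈ K.L (r - 1), (Z ⊆ T' → (Z.card : ℤ) = d →
        f2 Z - K.E x w ∈ K.IdM (X ∪ Z) r) := by
      intro Z
      by_cases h : Z ⊆ T' ∧ (Z.card : ℤ) = d
      · have h1 := hG0 Z h.1 h.2
        simp only [hu1] at h1
        obtain ⟨w, hw, hw'⟩ := K.exists_sub_mem_IdM (X ∪ Z) r x h1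
        exact ⟨w, hw, fun _ _ => hw'⟩
      · exact ⟨0, Submodule.zero_mem _, fun h1 h2 => absurd ⟨h1, h2⟩ h⟩
    choose w hw1 hw2 using hex
    -- step A
    have hA : ∀ Z ⊆ T', (Z.card : ℤ) = d + a →
        (sg^[a] w : Finset ι → Λ) Z ∈ K.IdM (insert x X ∪ Z) (r - 1) := by
      intro Z hZ hc
      have hval : (sg^[a] w : Finset ι → Λ) Z ∈ K.L (r - 1) := sg_iter_val _ _ _ hw1 Z
      by_cases hr1 : r = 0
      · rw [K.L_neg (r - 1) (by omega), Submodule.mem_bot] at hval
        rw [hval]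
        exact Submodule.zero_mem _
      · have e1 : (sg^[a] f2 : Finset ι → Λ) Z ∈ K.IdM (X ∪ Z) r := by
          rw [hf2, sg_iter_sub, ← Function.iterate_add_apply, Nat.add_sub_cancel' hap.le,
            sg_iter_char (F := F) p G, zero_sub]
          exact Submodule.neg_mem _ (hs Z (hZ.trans (Finset.subset_insert _ _)) hc)
        have e2 : (sg^[a] (f2 - fun Y => K.E x (w Y)) : Finset ι → Λ) Z ∈ K.IdM (X ∪ Z) r :=
          sg_iter_mem (F := F) (fun Z => K.IdM (X ∪ Z) r)
            (fun Y Z hYZ => K.IdM_mono (Finset.union_subset_union_right hYZ) r) T' d a _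
            (fun Z hZ hc => hw2 Z hZ hc) Z hZ hc
        rw [sg_iter_sub] at e2
        have e3 : K.E x ((sg^[a] w : Finset ι → Λ) Z) ∈ K.IdM (X ∪ Z) r := by
          have e4 := Submodule.sub_mem _ e1 e2
          rw [Pi.sub_apply, sub_sub_cancel, sg_iter_map] at e4
          exact e4
        rw [hu1]
        refine K.IdM_inj (X ∪ Z) x ?_ ?_ (r - 1) hval ?_
        · rw [Finset.mem_union]
          rintro (h | h)
          · exact hxX h
          · exact hxZ Z hZ h
        · have h1 := Finset.card_insert_le x (X ∪ Z)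
          have h2 := Finset.card_union_le X Z
          omega
        · rw [sub_add_cancel]
          exact e3
    obtain ⟨w1, hw11, hw12⟩ := ih (insert x X) (r - 1) d a hdisj' hcard' ha hap
      (by rw [hc1]; push_cast; omega) w hw1 hA
    set G2 : Finset ι → Λ := fun Z => if x ∈ Z then 0 else K.E x (w1 Z) with hG2
    have hG2v : ∀ Z, G2 Z ∈ K.L r := by
      intro Z
      rw [hG2]
      show (if x ∈ Z then 0 else K.E x (w1 Z)) ∈ K.L r
      split_ifs
      · exact Submodule.zero_mem _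
      · have := K.E_mem x (r - 1) (w1 Z) (hw11 Z)
        rwa [sub_add_cancel] at this
    refine ⟨G - G2, fun Z => Submodule.sub_mem _ (hGP Z) (hG2v Z), ?_⟩
    intro Z hZ hc
    have key : (sg^[p - a] (G - G2) : Finset ι → Λ) Z - f Z =
        f2 Z - (sg^[p - a] G2 : Finset ι → Λ) Z := by
      rw [sg_iter_sub, hf2, Pi.sub_apply, Pi.sub_apply]
      abel
    rw [key]
    by_cases hxz : x ∈ Z
    · set Z' := Z.erase x with hZ'
      have hins : insert x Z' = Z := Finset.insert_erase hxz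
      have hZ'T : Z' ⊆ T' := by
        intro y hy
        have h1 := hZ (Finset.mem_of_mem_erase hy)
        exact (Finset.mem_insert.1 h1).resolve_left (Finset.ne_of_mem_erase hy)
      have hc' : (Z'.card : ℤ) = d - 1 := by
        have := hcZ Z' hZ'T
        rw [hins] at this
        omega
      have h1 := hG1 Z' hZ'T hc'
      simp only [hu1] at h1
      rw [← hu2, hins] at h1
      refine Submodule.sub_mem _ h1 ?_
      have h2 : (sg^[p - a] G2 : Finset ι → Λ) Z =
          (p - a) • K.E x ((sg^[p - a - 1] w1 : Finset ι → Λ) Z') := by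
        conv_lhs => rw [← hins]
        rw [sg_iter_insert _ _ _ _ (hxZ Z' hZ'T)]
        have h3 : (fun Y => G2 (insert x Y)) = 0 := by
          funext Y
          rw [hG2]
          simp
        rw [h3, sg_iter_zero]
        have h4 : (sg^[p - a - 1] G2 : Finset ι → Λ) Z' =
            (sg^[p - a - 1] (fun Y => K.E x (w1 Y)) : Finset ι → Λ) Z' := by
          apply sg_iter_congr
          intro Y hY
          rw [hG2]
          exact if_neg (fun h => hxZ Z' hZ'T (hY h))
        rw [h4, sg_iter_map]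
        simp
      rw [h2]
      refine nsmul_mem ?_ _
      exact K.E_mem_IdM_self (Finset.mem_union_right _ hxz) r (sg_iter_val _ _ _ hw11 _)
    · have hZT : Z ⊆ T' := by
        intro y hy
        exact (Finset.mem_insert.1 (hZ hy)).resolve_left (fun h => hxz (h ▸ hy))
      have h4 : (sg^[p - a] G2 : Finset ι → Λ) Z =
          K.E x ((sg^[p - a] w1 : Finset ι → Λ) Z) := by
        rw [← sg_iter_map]
        apply sg_iter_congr
        intro Y hY
        rw [hG2]
        exact if_neg (fun h => hxz (hY h))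
      have h5 := hw12 Z hZT hc
      rw [hu1] at h5
      have h6 := K.E_mem_IdM_insert (X ∪ Z) (r - 1) x h5
      rw [sub_add_cancel, map_sub] at h6
      have h7 := hw2 Z hZT hc
      have h8 : f2 Z - (sg^[p - a] G2 : Finset ι → Λ) Z = (f2 Z - K.E x (w Z)) -
          (K.E x ((sg^[p - a] w1 : Finset ι → Λ) Z) - K.E x (w Z)) := by
        rw [h4]
        abel
      rw [h8]
      exact Submodule.sub_mem _ h7 h6

end MDS
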