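import Pool.Agent.MDS.CHD
import Pool.Agent.MDS.XL

/-!
# MDS.CHB: the base cases of the chain argument

Notation: all congruences are modulo `IdM M _`, at disjoint `(M, Z)` of the stated sizes.
`s = sG`, `δ = K.dl`, `s δ = δ s` (`dl_sG_iter`), `δ δ = 0` (`dl_dl`), `s^p = 0`
(`sG_iter_char`).

`base_A : stA 0 d`. Given `h` with `s^(p-1) δ h ≡ 0` at `(0, d+p)`, i.e. exactly `0`
(`IdM_empty`). `exact_M` with `j = 0` gives `g` with `(s g) ∅ Z = (δ h) ∅ Z` for `|Z| = d+1`, and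
`(δ h) ∅ Z = ∑ s ∈ Z, E s _ ∈ IdM Z e`. Apply `xl` with `X = ∅`, `T = univ`, `r = e`, `a = 1` to
`g ∅`: there is `u0` with values in `L e`, `s^(p-1) u0 Z - g ∅ Z ∈ IdM Z e` for `|Z| = d`.
By `mem_IdM` choose for each such `Z` elements with `g ∅ Z - s^(p-1) u0 Z = ∑ s ∈ Z, E s (ω Z s)`,
`ω Z s ∈ L (e-1)` (and `ω Z s = 0` for all other `Z`), and put
`w M Z' := ∑ s ∈ M, ω (M ∪ Z') s`, so that for `|Z| = d`
`(δ w) ∅ Z = ∑ s ∈ Z, E s (w {s} (Z.erase s)) = g ∅ Z - s^(p-1) u0 Z`. Then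
`δ (h - s w) ∅ Z = δ h ∅ Z - s δ w ∅ Z = δ h ∅ Z - s g ∅ Z + s^p u0 Z = 0` for `|Z| = d+1`.

`base_B : stB 0 d`: the same with `a = 1` and `a = p - 1` exchanged: `exact_M` with `a = 1` gives
`g` with `s^(p-1) g ∅ Z = δ h ∅ Z` at `|Z| = d+1`; `xl` for `g ∅` in degree `d-p+2`, `a = p-1`,
gives `u0` with `s u0 Z - g ∅ Z ∈ IdM Z e` for `|Z| = d-p+2`; then as before.
-/

set_option autoImplicit false

namespace MDS

open Finset

variable {F Λ ι : Type*} [Field F] [AddCommGroup Λ] [Module F Λ] [DecidableEq ι] {n : ℕ}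

/-- Lifting an element of `IdM Z e` for every `Z` of size `d` to a function of pairs. -/
private theorem chb_lift (K : KSys F Λ ι n) (e d : ℤ) (x : Finset ι → Λ)
    (hx : ∀ Z : Finset ι, (Z.card : ℤ) = d → x Z ∈ K.IdM Z e) :
    ∃ w : Finset ι → Finset ι → Λ, K.Val w (e - 1) ∧
      ∀ Z : Finset ι, (Z.card : ℤ) = d → K.dl w ∅ Z = x Z := by
  classical
  have h1 : ∀ Z : Finset ι, ∃ ω : ι → Λ, (∀ s, ω s ∈ K.L (e - 1)) ∧
      ((Z.card : ℤ) = d → x Z = ∑ s ∈ Z, K.E s (ω s)) := by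
    intro Z
    by_cases hZ : (Z.card : ℤ) = d
    · obtain ⟨ω, hω1, hω2⟩ := (K.mem_IdM Z e (x Z)).1 (hx Z hZ)
      exact ⟨ω, hω1, fun _ => hω2⟩
    · exact ⟨fun _ => 0, fun _ => Submodule.zero_mem _, fun h => absurd h hZ⟩
  choose ω hω1 hω2 using h1
  refine ⟨fun M Z' => ∑ s ∈ M, ω (M ∪ Z') s, ?_, ?_⟩
  · intro M Z
    exact Submodule.sum_mem _ fun s _ => hω1 _ s
  · intro Z hZ
    rw [hω2 Z hZ]
    unfold KSys.dl
    refine Finset.sum_congr rfl fun s hs => ?_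
    have h2 : (insert s (∅ : Finset ι)) ∪ Z.erase s = Z := by
      ext t
      simp only [Finset.mem_union, Finset.mem_insert, Finset.notMem_empty, or_false,
        Finset.mem_erase]
      constructor
      · rintro (rfl | ⟨_, h⟩)
        · exact hs
        · exact h
      · intro h
        by_cases hts : t = s
        · exact Or.inl hts
        · exact Or.inr ⟨hts, h⟩
    show K.E s (∑ t ∈ insert s (∅ : Finset ι), ω (insert s (∅ : Finset ι) ∪ Z.erase s) t) = _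
    rw [h2]
    simp

variable [Fintype ι]

private theorem chb_base (K : KSys F Λ ι n) (p : ℕ) [Fact p.Prime] [CharP F p]
    (hnN : n ≤ Fintype.card ι) (e d : ℤ) (a : ℕ) (ha1 : 1 ≤ a) (hap : a < p)
    (hN : 2 * (d + 1) + (p - a) ≤ Fintype.card ι)
    (hd : 2 * (d + 1 - a) + a ≤ (n : ℤ) - e)
    (h : Finset ι → Finset ι → Λ) (hv : K.Val h (e - 1))
    (hz : K.Zer (KSys.sG^[p - a] (K.dl h)) 0 (d + 1 + (p - a)) e) :
    ∃ u : Finset ι → Finset ι → Λ, K.Val u (e - 1) ∧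
      K.Zer (K.dl (h - KSys.sG^[a] u)) 0 (d + 1) e := by
  have hcast : ((p - a : ℕ) : ℤ) = (p : ℤ) - a := by
    rw [Nat.cast_sub hap.le]
  have hvd : K.Val (K.dl h) e := by
    have := K.Val_dl hv
    rwa [sub_add_cancel] at this
  obtain ⟨g, hg1, hg2⟩ := exact_M K p 0 (d + 1) e (p - a) (by omega) (by omega)
    (by rw [hcast]; push_cast; linarith) (K.dl h) hvd
    (by rw [hcast]; exact hz)
  have hpa : p - (p - a) = a := by omega
  rw [hpa] at hg2
  -- the relation at the empty set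
  have hg3 : ∀ Z : Finset ι, (Z.card : ℤ) = d + 1 →
      (sg^[a] (g ∅) : Finset ι → Λ) Z = K.dl h ∅ Z := by
    intro Z hZ
    have h1 := hg2 ∅ Z (Finset.disjoint_empty_left Z) Finset.card_empty hZ
    rw [K.IdM_empty, Submodule.mem_bot] at h1
    have h2 : (KSys.sG^[a] g : Finset ι → Finset ι → Λ) ∅ Z - K.dl h ∅ Z = 0 := h1
    rw [KSys.sG_iter_apply] at h2
    exact sub_eq_zero.1 h2
  have hdl : ∀ Z : Finset ι, K.dl h ∅ Z ∈ K.IdM Z e := by
    intro Z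
    unfold KSys.dl
    exact Submodule.sum_mem _ fun s hs => K.E_mem_IdM_self hs e (hv _ _)
  obtain ⟨u0, hu1, hu2⟩ := xl K p (Finset.univ : Finset ι) ∅ e (d + 1 - a) a
    (Finset.disjoint_empty_left _) (by simpa using hnN) ha1 hap
    (by simpa using hd) (g ∅) (fun Z => hg1 ∅ Z)
    (fun Z _ hZ => by
      rw [Finset.empty_union, hg3 Z (by rw [hZ]; ring)]
      exact hdl Z)
  obtain ⟨w, hw1, hw2⟩ := chb_lift K e (d + 1 - a)
    (fun Z => g ∅ Z - (sg^[p - a] u0 : Finset ι → Λ) Z)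
    (fun Z hZ => by
      have h1 := hu2 Z (Finset.subset_univ Z) hZ
      rw [Finset.empty_union] at h1
      have h2 := Submodule.neg_mem _ h1
      rwa [neg_sub] at h2)
  refine ⟨w, hw1, ?_⟩
  intro M Z _ hM hZ
  have hM' : M = ∅ := Finset.card_eq_zero.1 hM
  subst hM'
  rw [K.IdM_empty, Submodule.mem_bot]
  have h3 : K.dl (h - KSys.sG^[a] w) ∅ Z
      = K.dl h ∅ Z - (sg^[a] (K.dl w ∅) : Finset ι → Λ) Z := by
    rw [K.dl_sub, K.dl_sG_iter, Pi.sub_apply, Pi.sub_apply, KSys.sG_iter_apply]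
  rw [h3]
  -- compare with the right function
  have h4 : (sg^[a] (K.dl w ∅ - (g ∅ - (sg^[p - a] u0 : Finset ι → Λ))) : Finset ι → Λ) Z
      ∈ (⊥ : Submodule F Λ) := by
    refine sg_iter_mem (fun _ => (⊥ : Submodule F Λ)) (fun _ _ _ => le_refl _)
      (Finset.univ : Finset ι) (d + 1 - a) a _ ?_ Z (Finset.subset_univ Z) (by rw [hZ]; ring)
    intro Y _ hY
    rw [Submodule.mem_bot, Pi.sub_apply, Pi.sub_apply, hw2 Y hY, sub_self]
  rw [Submodule.mem_bot, sg_iter_sub, sg_iter_sub, ← Function.iterate_add_apply] at h4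
  have hap' : a + (p - a) = p := by omega
  have h5 : (sg^[p] u0 : Finset ι → Λ) = 0 := sg_iter_char (F := F) p u0
  rw [hap', h5, sub_zero, Pi.sub_apply, hg3 Z hZ] at h4
  rw [sub_eq_zero] at h4 ⊢
  exact h4.symm

theorem base_A (K : KSys F Λ ι n) (p : ℕ) [Fact p.Prime] [CharP F p]
    (hnN : n ≤ Fintype.card ι) (e d : ℤ)
    (hN : 2 * d + p + 1 ≤ Fintype.card ι) (hd : 2 * d + 1 ≤ (n : ℤ) - e) :
    stA K p e 0 d := by
  intro h hv hz
  have hp : 2 ≤ p := (Fact.out : p.Prime).two_le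
  have hv' : K.Val h (e - 1) := by simpa using hv
  have hz' : K.Zer (KSys.sG^[p - 1] (K.dl h)) 0 (d + 1 + ((p : ℤ) - (1 : ℕ))) e := by
    have h1 : d + 1 + ((p : ℤ) - (1 : ℕ)) = d + p := by push_cast; ring
    rw [h1]
    simpa using hz
  obtain ⟨u, hu1, hu2⟩ := chb_base K p hnN e d 1 le_rfl (by omega)
    (by push_cast; linarith) (by push_cast; linarith) h hv' hz'
  refine ⟨u, by simpa using hu1, ?_⟩
  simpa using hu2

theorem base_B (K : KSys F Λ ι n) (p : ℕ) [Fact p.Prime] [CharP F p]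
    (hnN : n ≤ Fintype.card ι) (e d : ℤ)
    (hN : 2 * d + 3 ≤ Fintype.card ι) (hd : 2 * (d - p + 2) + p - 1 ≤ (n : ℤ) - e) :
    stB K p e 0 d := by
  intro h hv hz
  have hp : 2 ≤ p := (Fact.out : p.Prime).two_le
  have hcast : ((p - 1 : ℕ) : ℤ) = (p : ℤ) - 1 := by
    rw [Nat.cast_sub (by omega)]
    rfl
  have hv' : K.Val h (e - 1) := by simpa using hv
  have hz' : K.Zer (KSys.sG^[p - (p - 1)] (K.dl h)) 0 (d + 1 + ((p : ℤ) - ((p - 1 : ℕ) : ℤ)))
      e := by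
    have h1 : d + 1 + ((p : ℤ) - ((p - 1 : ℕ) : ℤ)) = d + 2 := by rw [hcast]; ring
    have h2 : p - (p - 1) = 1 := by omega
    rw [h1, h2]
    simpa using hz
  obtain ⟨u, hu1, hu2⟩ := chb_base K p hnN e d (p - 1) (by omega) (by omega)
    (by rw [hcast]; linarith) (by rw [hcast]; linarith) h hv' hz'
  refine ⟨u, by simpa using hu1, ?_⟩
  simpa using hu2

end MDS
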