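import Pool.Agent.MDS.SGB
import Pool.Agent.MDS.IDM

/-!
# MDS.DLB: elementary facts on `dl` and `sG`

* `dl_sG`: both sides at `(M, Z)` are the sum over the ordered pairs `s ≠ z` of `Z` of
  `E s (h (insert s M) ((Z.erase s).erase z))` (`Finset.erase_right_comm`).
* `dl_dl`: at `(M, Z)` the sum over the ordered pairs `s ≠ t` of `Z` of
  `E s (E t (h (insert t (insert s M)) ((Z.erase s).erase t)))`, which is antisymmetric in
  `(s, t)`; conclude from `S = - S` and `2 ≠ 0`.
* `Zer_dl`: for `s ∈ Z`, `|insert s M| = |M| + 1`, `|Z.erase s| = |Z| - 1`, disjoint, and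
  `E s` maps `IdM (insert s M) r` to `IdM M (r + 1)` (`E_mem_IdM_insert`).
* `Zer_sG`: `sg_iter_mem` with constant `J`, `T := Z`.
* `sG^[a] h M = sg^[a] (h M)` by induction (`sG_iter_apply`).
-/

set_option autoImplicit false

namespace MDS

open Finset

namespace KSys

variable {F Λ ι : Type*} [Field F] [AddCommGroup Λ] [Module F Λ] [DecidableEq ι] {n : ℕ}

theorem sG_iter_apply (a : ℕ) (h : Finset ι → Finset ι → Λ) (M : Finset ι) :
    (sG^[a] h : Finset ι → Finset ι → Λ) M = sg^[a] (h M) := by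
  induction a with
  | zero => rfl
  | succ a ih =>
    rw [Function.iterate_succ_apply', Function.iterate_succ_apply', ← ih]
    rfl

theorem sG_iter_sub (a : ℕ) (h h' : Finset ι → Finset ι → Λ) :
    (sG^[a] (h - h') : Finset ι → Finset ι → Λ) = sG^[a] h - sG^[a] h' := by
  funext M
  rw [Pi.sub_apply, sG_iter_apply, sG_iter_apply, sG_iter_apply, ← sg_iter_sub]
  rfl

theorem sG_iter_char (F : Type*) [Field F] [Module F Λ] (p : ℕ) [Fact p.Prime] [CharP F p]
    (h : Finset ι → Finset ι → Λ) : (sG^[p] h : Finset ι → Finset ι → Λ) = 0 := by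
  funext M
  rw [sG_iter_apply, sg_iter_char (F := F) p]
  rfl

theorem dl_sub (K : KSys F Λ ι n) (h h' : Finset ι → Finset ι → Λ) :
    K.dl (h - h') = K.dl h - K.dl h' := by
  funext M Z
  simp only [dl, Pi.sub_apply, map_sub, sum_sub_distrib]

private theorem dl_sG (K : KSys F Λ ι n) (h : Finset ι → Finset ι → Λ) :
    K.dl (sG h) = sG (K.dl h) := by
  funext M Z
  simp only [dl, sG, sg, map_sum]
  rw [sum_comm' (t' := Z) (s' := fun z => Z.erase z)]
  · refine sum_congr rfl fun z _ => sum_congr rfl fun s _ => ?_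
    rw [erase_right_comm]
  · intro s z
    simp only [mem_erase]
    tauto

theorem dl_sG_iter (K : KSys F Λ ι n) (a : ℕ) (h : Finset ι → Finset ι → Λ) :
    K.dl (sG^[a] h) = sG^[a] (K.dl h) := by
  induction a with
  | zero => rfl
  | succ a ih =>
    rw [Function.iterate_succ_apply', Function.iterate_succ_apply', dl_sG, ih]

theorem dl_dl (K : KSys F Λ ι n) (h2 : (2 : F) ≠ 0) (h : Finset ι → Finset ι → Λ) :
    K.dl (K.dl h) = 0 := by
  funext M Z
  have h1 : K.dl (K.dl h) M Z = ∑ s ∈ Z, ∑ t ∈ Z.erase s,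
      K.E s (K.E t (h (insert t (insert s M)) ((Z.erase s).erase t))) := by
    simp only [dl, map_sum]
  have h3 : K.dl (K.dl h) M Z = - K.dl (K.dl h) M Z := by
    have h5 : K.dl (K.dl h) M Z = ∑ s ∈ Z, ∑ t ∈ Z.erase s,
        K.E t (K.E s (h (insert s (insert t M)) ((Z.erase t).erase s))) := by
      rw [h1, sum_comm' (t' := Z) (s' := fun z => Z.erase z)]
      intro s z
      simp only [mem_erase]
      tauto
    conv_rhs => rw [h1]
    rw [h5, ← sum_neg_distrib]
    · refine sum_congr rfl fun s _ => ?_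
      rw [← sum_neg_distrib]
      refine sum_congr rfl fun t _ => ?_
      rw [K.E_anti t s, erase_right_comm, insert_comm]
  have h4 : (2 : F) • K.dl (K.dl h) M Z = 0 := by
    rw [two_smul]
    exact add_eq_zero_iff_eq_neg.2 h3
  rcases smul_eq_zero.1 h4 with h5 | h5
  · exact absurd h5 h2
  · exact h5

theorem Zer_add (K : KSys F Λ ι n) {h h' : Finset ι → Finset ι → Λ} {j : ℕ} {d r : ℤ}
    (H : K.Zer h j d r) (H' : K.Zer h' j d r) : K.Zer (h + h') j d r :=
  fun M Z h1 h2 h3 => Submodule.add_mem _ (H M Z h1 h2 h3) (H' M Z h1 h2 h3)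

theorem Zer_sub (K : KSys F Λ ι n) {h h' : Finset ι → Finset ι → Λ} {j : ℕ} {d r : ℤ}
    (H : K.Zer h j d r) (H' : K.Zer h' j d r) : K.Zer (h - h') j d r :=
  fun M Z h1 h2 h3 => Submodule.sub_mem _ (H M Z h1 h2 h3) (H' M Z h1 h2 h3)

theorem Zer_neg (K : KSys F Λ ι n) {h : Finset ι → Finset ι → Λ} {j : ℕ} {d r : ℤ}
    (H : K.Zer h j d r) : K.Zer (-h) j d r :=
  fun M Z h1 h2 h3 => Submodule.neg_mem _ (H M Z h1 h2 h3)

theorem Zer_dl (K : KSys F Λ ι n) {h : Finset ι → Finset ι → Λ} {j : ℕ} {d r : ℤ}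
    (H : K.Zer h (j + 1) d r) : K.Zer (K.dl h) j (d + 1) (r + 1) := by
  intro M Z h1 h2 h3
  refine Submodule.sum_mem _ fun s hs => ?_
  refine K.E_mem_IdM_insert M r s ?_
  have hsM : s ∉ M := fun h => disjoint_left.1 h1 h hs
  refine H (insert s M) (Z.erase s) ?_ ?_ ?_
  · rw [disjoint_insert_left]
    exact ⟨notMem_erase _ _, h1.mono_right (erase_subset _ _)⟩
  · rw [card_insert_of_notMem hsM, h2]
  · rw [card_erase_of_mem hs]
    have := card_pos.2 ⟨s, hs⟩
    omega

theorem Zer_sG (K : KSys F Λ ι n) (a : ℕ) {h : Finset ι → Finset ι → Λ} {j : ℕ} {d r : ℤ}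
    (H : K.Zer h j d r) : K.Zer (sG^[a] h) j (d + a) r := by
  intro M Z h1 h2 h3
  rw [sG_iter_apply]
  exact sg_iter_mem (fun _ => K.IdM M r) (fun _ _ _ => le_rfl) Z d a (h M)
    (fun Y hY hc => H M Y (h1.mono_right hY) h2 hc) Z (Finset.Subset.refl Z) h3

theorem Val_sub (K : KSys F Λ ι n) {h h' : Finset ι → Finset ι → Λ} {r : ℤ}
    (H : K.Val h r) (H' : K.Val h' r) : K.Val (h - h') r :=
  fun M Z => Submodule.sub_mem _ (H M Z) (H' M Z)

theorem Val_dl (K : KSys F Λ ι n) {h : Finset ι → Finset ι → Λ} {r : ℤ}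
    (H : K.Val h r) : K.Val (K.dl h) (r + 1) :=
  fun _ _ => Submodule.sum_mem _ fun s _ => K.E_mem s r _ (H _ _)

theorem Val_sG (K : KSys F Λ ι n) (a : ℕ) {h : Finset ι → Finset ι → Λ} {r : ℤ}
    (H : K.Val h r) : K.Val (sG^[a] h) r := by
  intro M Z
  rw [sG_iter_apply]
  exact sg_iter_val (K.L r) a (h M) (H M) Z

end KSys

end MDS
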