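import Pool.Agent.MDS.SIG
import Pool.Agent.MDS.DLB

/-!
# MDS.CHD: statements A and B, and exactness for every `M`

`exact_M` is `sig_const` applied for every `M` with `|M| = j` to `T := univ \ M`, `P := L r`,
`J := IdM M r` (choose the functions `g` for all such `M`, and `g M = 0` for the other `M`);
`|T| = N - j` and a finset `Z` is disjoint from `M` iff `Z ⊆ univ \ M` (`sG_iter_apply`).
-/

set_option autoImplicit false

namespace MDS

open Finset

variable {F Λ ι : Type*} [Field F] [AddCommGroup Λ] [Module F Λ] [DecidableEq ι] {n : ℕ}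

/-- Statement A of the chain argument. -/
def stA (K : KSys F Λ ι n) (p : ℕ) (e : ℤ) (j : ℕ) (d : ℤ) : Prop :=
  ∀ h : Finset ι → Finset ι → Λ, K.Val h (e - (j + 1)) →
    K.Zer (KSys.sG^[p - 1] (K.dl h)) j (d + p) (e - j) →
    ∃ u : Finset ι → Finset ι → Λ, K.Val u (e - (j + 1)) ∧
      K.Zer (K.dl (h - KSys.sG u)) j (d + 1) (e - j)

/-- Statement B of the chain argument. -/
def stB (K : KSys F Λ ι n) (p : ℕ) (e : ℤ) (j : ℕ) (d : ℤ) : Prop :=
  ∀ h : Finset ι → Finset ι → Λ, K.Val h (e - (j + 1)) →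
    K.Zer (KSys.sG (K.dl h)) j (d + 2) (e - j) →
    ∃ u : Finset ι → Finset ι → Λ, K.Val u (e - (j + 1)) ∧
      K.Zer (K.dl (h - KSys.sG^[p - 1] u)) j (d + 1) (e - j)

variable [Fintype ι]

theorem exact_M (K : KSys F Λ ι n) (p : ℕ) [Fact p.Prime] [CharP F p] (j : ℕ) (d r : ℤ)
    (a : ℕ) (ha1 : 1 ≤ a) (hap : a < p) (hN : 2 * d + a + j ≤ Fintype.card ι)
    (f : Finset ι → Finset ι → Λ) (hv : K.Val f r) (hf : K.Zer (KSys.sG^[a] f) j (d + a) r) :
    ∃ g : Finset ι → Finset ι → Λ, K.Val g r ∧ K.Zer (KSys.sG^[p - a] g - f) j d r := by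
  have key : ∀ M : Finset ι, ∃ g : Finset ι → Λ, (∀ Z, g Z ∈ K.L r) ∧
      (M.card = j → ∀ Z : Finset ι, Disjoint M Z → (Z.card : ℤ) = d →
        (sg^[p - a] g : Finset ι → Λ) Z - f M Z ∈ K.IdM M r) := by
    intro M
    by_cases hM : M.card = j
    · have hT : ((univ \ M : Finset ι).card : ℤ) = Fintype.card ι - j := by
        rw [Finset.card_sdiff_of_subset (Finset.subset_univ M), Finset.card_univ, hM]
        have : j ≤ Fintype.card ι := by rw [← hM]; exact Finset.card_le_univ M
        push_cast [this]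
        ring
      obtain ⟨g, hg1, hg2⟩ := sig_const p (K.L r) (K.IdM M r) (univ \ M) d a ha1 hap
        (by rw [hT]; linarith) (f M) (hv M) (by
          intro Z hZ hc
          have hdis : Disjoint M Z := by
            rw [Finset.disjoint_left]
            intro x hx hxZ
            exact (Finset.mem_sdiff.mp (hZ hxZ)).2 hx
          have := hf M Z hdis hM hc
          rwa [KSys.sG_iter_apply] at this)
      refine ⟨g, hg1, fun _ Z hZ hc => hg2 Z ?_ hc⟩
      intro x hx
      exact Finset.mem_sdiff.mpr ⟨Finset.mem_univ x, fun hxM => Finset.disjoint_left.mp hZ hxM hx⟩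
    · exact ⟨0, fun Z => (K.L r).zero_mem, fun h => absurd h hM⟩
  choose g hg1 hg2 using key
  refine ⟨g, fun M Z => hg1 M Z, fun M Z hd hM hZ => ?_⟩
  have := hg2 M hM Z hd hZ
  rw [Pi.sub_apply, Pi.sub_apply, KSys.sG_iter_apply]
  exact this

end MDS
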