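import Pool.Agent.MDS.KOY
import Pool.Agent.MDS.DLB

/-!
# MDS.KOS: exactness of the Koszul differential in the variables `(M, Z)`

For every `Y` with `|Y| = j + 1 + d` (if `d < 0` nothing to prove: take `u = 0`) apply
`koszul_fixed` to `k M := h M (Y \ M)`, `|Y| ≤ n` by `hn`. The cycle condition at `M ⊆ Y`,
`|M| = j`, is `hc` at `(M, Y \ M)` (`|Y \ M| = d + 1`, `Y \ insert s M = (Y \ M).erase s`). Let
`uY` be the function obtained for `Y`, choose it for all `Y` (`uY = 0` if `|Y| ≠ j + 1 + d`) and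
put `u M Z := u_(M ∪ Z) M`. For disjoint `M`, `Z`, `|M| = j + 1`, `|Z| = d`, `Y := M ∪ Z`:
`Y \ M = Z` and for `s ∈ Z`: `insert s M ∪ Z.erase s = Y`, so
`(dl u) M Z = ∑ s ∈ Z, E s (uY (insert s M))`.
-/

set_option autoImplicit false

namespace MDS

open Finset

variable {F Λ ι : Type*} [Field F] [AddCommGroup Λ] [Module F Λ] [DecidableEq ι] {n : ℕ}

theorem koszul (K : KSys F Λ ι n) (h2 : (2 : F) ≠ 0) (j : ℕ) (d r : ℤ)
    (hn : (j : ℤ) + 1 + d ≤ n) (h : Finset ι → Finset ι → Λ) (hv : K.Val h r)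
    (hc : K.Zer (K.dl h) j (d + 1) (r + 1)) :
    ∃ u : Finset ι → Finset ι → Λ, K.Val u (r - 1) ∧ K.Zer (h - K.dl u) (j + 1) d r := by
  have key : ∀ Y : Finset ι, (Y.card : ℤ) = j + 1 + d → ∃ u : Finset ι → Λ,
      (∀ M, u M ∈ K.L (r - 1)) ∧ ∀ M ⊆ Y, M.card = j + 1 →
        h M (Y \ M) - ∑ s ∈ Y \ M, K.E s (u (insert s M)) ∈ K.IdM M r := by
    intro Y hY
    have hYn : Y.card ≤ n := by omega
    refine koszul_fixed K h2 Y hYn j r (fun M => h M (Y \ M)) (fun M => hv M _) ?_
    intro M hM hMj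
    have hcard : ((Y \ M).card : ℤ) = d + 1 := by
      have h1 := Finset.card_sdiff_add_card_eq_card hM
      omega
    have h1 := hc M (Y \ M) Finset.disjoint_sdiff hMj hcard
    have h3 : K.dl h M (Y \ M)
        = ∑ s ∈ Y \ M, K.E s (h (insert s M) (Y \ insert s M)) := by
      unfold KSys.dl
      refine Finset.sum_congr rfl fun s _ => ?_
      rw [Finset.sdiff_insert]
    rw [h3] at h1
    exact h1
  classical
  set uu : Finset ι → Finset ι → Λ := fun Y =>
    if hY : (Y.card : ℤ) = j + 1 + d then (key Y hY).choose else 0 with huu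
  refine ⟨fun M Z => uu (M ∪ Z) M, ?_, ?_⟩
  · intro M Z
    rw [huu]
    by_cases hY : ((M ∪ Z).card : ℤ) = j + 1 + d
    · simp only [hY, dite_true]
      exact (key (M ∪ Z) hY).choose_spec.1 M
    · simp only [hY, dite_false]
      exact (K.L (r - 1)).zero_mem
  · intro M Z hMZ hMj hZ
    have hY : ((M ∪ Z).card : ℤ) = j + 1 + d := by
      rw [Finset.card_union_of_disjoint hMZ]
      omega
    have hsd : (M ∪ Z) \ M = Z := by
      rw [Finset.union_sdiff_left, Finset.sdiff_eq_self_of_disjoint hMZ.symm]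
    have h1 := (key (M ∪ Z) hY).choose_spec.2 M Finset.subset_union_left hMj
    rw [hsd] at h1
    have h3 : (h - K.dl fun M Z => uu (M ∪ Z) M) M Z
        = h M Z - ∑ s ∈ Z, K.E s ((key (M ∪ Z) hY).choose (insert s M)) := by
      rw [Pi.sub_apply, Pi.sub_apply]
      congr 1
      unfold KSys.dl
      refine Finset.sum_congr rfl fun s hs => ?_
      have h4 : insert s M ∪ Z.erase s = M ∪ Z := by
        rw [Finset.insert_union, ← Finset.union_insert, Finset.insert_erase hs]
      have h5 : uu (M ∪ Z) = (key (M ∪ Z) hY).choose := by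
        rw [huu]
        simp only [hY, dite_true]
      change K.E s (uu (insert s M ∪ Z.erase s) (insert s M)) = _
      rw [h4, h5]
    rw [h3]
    exact h1

end MDS
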