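import Pool.Agent.MDS.CHD
import Pool.Agent.MDS.KOS

/-!
# MDS.CHI: the two induction steps of the chain argument

Notation: all congruences are modulo `IdM M _`, at disjoint `(M, Z)` of the stated sizes.
`s = sG`, `δ = K.dl`, `s δ = δ s` (`dl_sG_iter`), `δ δ = 0` (`dl_dl`), `s^p = 0`
(`sG_iter_char`).

`A_of_B : stB j d → stA (j+1) d`. Given `h` (values in `L (e-(j+2))`) with
`s^(p-1) δ h ≡ 0` at `(j+1, d+p)`. `exact_M` with `(j+1, d+1, a = p-1)` gives `g` (values in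
`L (e-(j+1))`) with `s g ≡ δ h` at `(j+1, d+1)`. Apply `Zer_dl`: `δ s g - δ δ h = s δ g ≡ 0` at
`(j, d+2)`. `stB j d` gives `u`, `g' := g - s^(p-1) u` with `δ g' ≡ 0` at `(j, d+1)`. `koszul`
(with `r := e-(j+1)`) gives `w` (values in `L (e-(j+2))`) with `g' ≡ δ w` at `(j+1, d)`. Then
`δ (h - s w) = δ h - s δ w ≡ δ h - s g' = δ h - s g + s^p u ≡ 0` at `(j+1, d+1)`. So `w` works.

`B_of_A : stA j (d-p+2) → stB (j+1) d`. Given `h` with `s δ h ≡ 0` at `(j+1, d+2)`. `exact_M` with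
`(j+1, d+1, a = 1)` gives `g` with `s^(p-1) g ≡ δ h` at `(j+1, d+1)`; hence
`s^(p-1) δ g ≡ 0` at `(j, d+2) = (j, (d-p+2)+p)`. `stA j (d-p+2)` gives `u`, `g' := g - s u`,
`δ g' ≡ 0` at `(j, d-p+3)`. `koszul` gives `w` with `g' ≡ δ w` at `(j+1, d-p+2)`. Then
`δ (h - s^(p-1) w) ≡ δ h - s^(p-1) g' = δ h - s^(p-1) g + s^p u ≡ 0` at `(j+1, d+1)`.
-/

set_option autoImplicit false

namespace MDS

open Finset

variable {F Λ ι : Type*} [Field F] [AddCommGroup Λ] [Module F Λ] [DecidableEq ι] {n : ℕ}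

variable [Fintype ι]

theorem chi_p_ge (F : Type*) [Field F] (p : ℕ) [Fact p.Prime] [CharP F p] (h2 : (2 : F) ≠ 0) :
    3 ≤ p := by
  have hp : p.Prime := Fact.out
  have h1 : p ≠ 2 := by
    rintro rfl
    apply h2
    have := CharP.cast_eq_zero F 2
    exact_mod_cast this
  have := hp.two_le
  omega

theorem A_of_B (K : KSys F Λ ι n) (p : ℕ) [Fact p.Prime] [CharP F p] (h2 : (2 : F) ≠ 0)
    (e : ℤ) (j : ℕ) (d : ℤ) (hN : 2 * d + p + j + 2 ≤ Fintype.card ι) (hn : (j : ℤ) + 1 + d ≤ n)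
    (H : stB K p e j d) : stA K p e (j + 1) d := by
  have hp3 := chi_p_ge F p h2
  have hpz : ((p - 1 : ℕ) : ℤ) = (p : ℤ) - 1 := by
    rw [Nat.cast_sub (by omega)]
    simp
  intro h hv hz
  obtain ⟨r, hr⟩ : ∃ r : ℤ, r = e - ((j : ℤ) + 1) := ⟨_, rfl⟩
  have e1 : e - (((j + 1 : ℕ) : ℤ) + 1) = r - 1 := by
    rw [hr]
    push_cast
    ring
  have e2 : e - ((j + 1 : ℕ) : ℤ) = r := by
    rw [hr]
    push_cast
    ring
  have e3 : e - (j : ℤ) = r + 1 := by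
    rw [hr]
    ring
  rw [e1] at hv ⊢
  rw [e2] at hz ⊢
  have hvd : K.Val (K.dl h) r := by
    have := KSys.Val_dl K hv
    rwa [sub_add_cancel] at this
  obtain ⟨g, hg1, hg2⟩ := exact_M K p (j + 1) (d + 1) r (p - 1) (by omega) (by omega)
    (by rw [hpz]; push_cast; linarith) (K.dl h) hvd (by
      rw [hpz]
      have e4 : d + 1 + ((p : ℤ) - 1) = d + p := by ring
      rw [e4]
      exact hz)
  have e5 : p - (p - 1) = 1 := by omega
  rw [e5, Function.iterate_one] at hg2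
  have h3 := KSys.Zer_dl K hg2
  rw [KSys.dl_sub, KSys.dl_dl K h2, sub_zero] at h3
  have h4 := KSys.dl_sG_iter K 1 g
  rw [Function.iterate_one] at h4
  rw [h4] at h3
  have e6 : d + 1 + 1 = d + 2 := by ring
  rw [e6] at h3
  obtain ⟨u, hu1, hu2⟩ := H g (by rw [← hr]; exact hg1) (by rw [e3]; exact h3)
  rw [← hr] at hu1
  rw [e3] at hu2
  have hg' : K.Val (g - KSys.sG^[p - 1] u) r := KSys.Val_sub K hg1 (KSys.Val_sG K (p - 1) hu1)
  obtain ⟨w, hw1, hw2⟩ := koszul K h2 j d r hn (g - KSys.sG^[p - 1] u) hg' hu2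
  refine ⟨w, hw1, ?_⟩
  have h5 := KSys.Zer_sG K 1 hw2
  rw [KSys.sG_iter_sub, KSys.sG_iter_sub] at h5
  simp only [Function.iterate_one] at h5
  have h6 : KSys.sG (KSys.sG^[p - 1] u) = (0 : Finset ι → Finset ι → Λ) := by
    rw [← Function.iterate_succ_apply' KSys.sG (p - 1) u]
    have e7 : (p - 1).succ = p := by omega
    rw [e7]
    exact KSys.sG_iter_char F p u
  rw [h6, sub_zero] at h5
  have h7 := KSys.dl_sG_iter K 1 w
  rw [Function.iterate_one] at h7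
  have h8 : K.dl (h - KSys.sG w) = (KSys.sG g - KSys.sG (K.dl w)) - (KSys.sG g - K.dl h) := by
    rw [KSys.dl_sub, h7]
    abel
  rw [h8]
  have h9 : K.Zer (KSys.sG g - KSys.sG (K.dl w)) (j + 1) (d + 1) r := by
    have := h5
    push_cast at this
    exact this
  exact KSys.Zer_sub K h9 hg2

theorem B_of_A (K : KSys F Λ ι n) (p : ℕ) [Fact p.Prime] [CharP F p] (h2 : (2 : F) ≠ 0)
    (e : ℤ) (j : ℕ) (d : ℤ) (hN : 2 * d + j + 4 ≤ Fintype.card ι)
    (hn : (j : ℤ) + 1 + (d - p + 2) ≤ n)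
    (H : stA K p e j (d - p + 2)) : stB K p e (j + 1) d := by
  have hp3 := chi_p_ge F p h2
  have hpz : ((p - 1 : ℕ) : ℤ) = (p : ℤ) - 1 := by
    rw [Nat.cast_sub (by omega)]
    simp
  intro h hv hz
  obtain ⟨r, hr⟩ : ∃ r : ℤ, r = e - ((j : ℤ) + 1) := ⟨_, rfl⟩
  have e1 : e - (((j + 1 : ℕ) : ℤ) + 1) = r - 1 := by
    rw [hr]
    push_cast
    ring
  have e2 : e - ((j + 1 : ℕ) : ℤ) = r := by
    rw [hr]
    push_cast
    ring
  have e3 : e - (j : ℤ) = r + 1 := by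
    rw [hr]
    ring
  rw [e1] at hv ⊢
  rw [e2] at hz ⊢
  have hvd : K.Val (K.dl h) r := by
    have := KSys.Val_dl K hv
    rwa [sub_add_cancel] at this
  obtain ⟨g, hg1, hg2⟩ := exact_M K p (j + 1) (d + 1) r 1 le_rfl (by omega)
    (by push_cast; linarith) (K.dl h) hvd (by
      rw [Function.iterate_one]
      have e4 : d + 1 + ((1 : ℕ) : ℤ) = d + 2 := by push_cast; ring
      rw [e4]
      exact hz)
  have h3 := KSys.Zer_dl K hg2
  rw [KSys.dl_sub, KSys.dl_dl K h2, sub_zero, KSys.dl_sG_iter] at h3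
  have e6 : d + 1 + 1 = (d - p + 2) + p := by ring
  rw [e6] at h3
  obtain ⟨u, hu1, hu2⟩ := H g (by rw [← hr]; exact hg1) (by rw [e3]; exact h3)
  rw [← hr] at hu1
  rw [e3] at hu2
  have hsu : K.Val (KSys.sG u) r := by
    have := KSys.Val_sG K 1 hu1
    rwa [Function.iterate_one] at this
  have hg' : K.Val (g - KSys.sG u) r := KSys.Val_sub K hg1 hsu
  obtain ⟨w, hw1, hw2⟩ := koszul K h2 j (d - p + 2) r hn (g - KSys.sG u) hg' hu2
  refine ⟨w, hw1, ?_⟩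
  have h5 := KSys.Zer_sG K (p - 1) hw2
  rw [KSys.sG_iter_sub, KSys.sG_iter_sub] at h5
  have h6 : KSys.sG^[p - 1] (KSys.sG u) = (0 : Finset ι → Finset ι → Λ) := by
    rw [← Function.iterate_succ_apply KSys.sG (p - 1) u]
    have e7 : (p - 1).succ = p := by omega
    rw [e7]
    exact KSys.sG_iter_char F p u
  rw [h6, sub_zero, hpz] at h5
  have e8 : d - (p : ℤ) + 2 + (p - 1) = d + 1 := by ring
  rw [e8] at h5
  have h8 : K.dl (h - KSys.sG^[p - 1] w) =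
      (KSys.sG^[p - 1] g - KSys.sG^[p - 1] (K.dl w)) - (KSys.sG^[p - 1] g - K.dl h) := by
    rw [KSys.dl_sub, KSys.dl_sG_iter]
    abel
  rw [h8]
  exact KSys.Zer_sub K h5 hg2

end MDS
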