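import Pool.Agent.MDS.CHI
import Pool.Agent.MDS.CHB

/-!
# MDS.CHN: the chain argument (finished)
-/

set_option autoImplicit false

namespace MDS

open Finset

variable {F Λ ι : Type*} [Field F] [AddCommGroup Λ] [Module F Λ] [DecidableEq ι] {n : ℕ}

variable [Fintype ι]

theorem chain (K : KSys F Λ ι n) (p : ℕ) [Fact p.Prime] [CharP F p] (h2 : (2 : F) ≠ 0)
    (hnN : n ≤ Fintype.card ι) (e : ℤ) (j : ℕ) :
    (∀ d : ℤ, 2 * d + p + j + 1 ≤ Fintype.card ι → (j : ℤ) + d ≤ n →
      2 * d + p - 1 - (j + 1) * (p - 2) ≤ (n : ℤ) - e → stA K p e j d) ∧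
    (∀ d : ℤ, 2 * d + j + 3 ≤ Fintype.card ι → (j : ℤ) + d ≤ n →
      2 * d + 1 - (j + 1) * (p - 2) ≤ (n : ℤ) - e → stB K p e j d) := by
  have hp : 2 ≤ p := (Fact.out : p.Prime).two_le
  have hp' : (2 : ℤ) ≤ p := by exact_mod_cast hp
  induction j with
  | zero =>
    refine ⟨fun d hN _ hd => ?_, fun d hN _ hd => ?_⟩
    · exact base_A K p hnN e d (by push_cast at hN ⊢; linarith) (by push_cast at hd; linarith)
    · exact base_B K p hnN e d (by push_cast at hN ⊢; linarith) (by push_cast at hd; linarith)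
  | succ j ih =>
    refine ⟨fun d hN hn hd => ?_, fun d hN hn hd => ?_⟩
    · refine A_of_B K p h2 e j d (by push_cast at hN ⊢; linarith) (by push_cast at hn; linarith) ?_
      exact ih.2 d (by push_cast at hN ⊢; linarith) (by push_cast at hn; linarith)
        (by push_cast at hd; linarith)
    · refine B_of_A K p h2 e j d (by push_cast at hN ⊢; linarith)
        (by push_cast at hn; linarith) ?_
      exact ih.1 (d - p + 2) (by push_cast at hN ⊢; linarith) (by push_cast at hn; linarith)
        (by push_cast at hd; linarith)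

end MDS
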