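import Pool.Agent.MDS.Defs

/-!
# MDS.ELL: the functionals `ell v C`

* `ell_lin`: the determinant is linear in its first row (`Matrix.detRowAlternating`, or
  `Matrix.det_updateRow_add`, ...); if `C` has the wrong size the functional is `0`.
* `ell_self`: two equal rows (`Matrix.det_zero_of_row_eq`).
* `ell_ne_zero`: `Y := insert s C` has `m + 2` elements; the rows are the vectors `v i`, `i ∈ Y`,
  listed without repetition, hence linearly independent, so the determinant is nonzero
  (`Matrix.linearIndependent_rows_iff_isUnit`).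
* `ell_insert`: both enumerations `i ↦ (insert z A).orderEmbOfFin _ i` and
  `Fin.cons z (A.orderEmbOfFin hA)` of `insert z A` are injective with the same range, so the
  second is the first composed with a permutation of `Fin (m+1)`; extended by `0 ↦ 0` this is a
  permutation of the rows `1, ..., m+1` (`Matrix.det_permute`); `ε` is its sign.
-/

set_option autoImplicit false

namespace MDS

open Finset

variable {F : Type*} [Field F] {N m : ℕ}

theorem ell_lin (v : Fin N → (Fin (m + 2) → F)) (C : Finset (Fin N)) :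
    ∃ ψ : (Fin (m + 2) → F) →ₗ[F] F, ∀ u, ell v C u = ψ u := by
  by_cases h : C.card = m + 1
  · refine ⟨(Matrix.detRowAlternating (R := F) (n := Fin (m + 2))).toMultilinearMap.toLinearMap
      (Fin.cons 0 (fun i => v (C.orderEmbOfFin h i))) 0, ?_⟩
    intro u
    unfold ell
    rw [dif_pos h]
    simp only [MultilinearMap.toLinearMap_apply, Fin.update_cons_zero]
    rfl
  · refine ⟨0, ?_⟩
    intro u
    unfold ell
    rw [dif_neg h]
    rfl

theorem ell_self (v : Fin N → (Fin (m + 2) → F)) (C : Finset (Fin N)) (s : Fin N)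
    (hs : s ∈ C) : ell v C (v s) = 0 := by
  unfold ell
  split_ifs with h
  · have hr : s ∈ Set.range (C.orderEmbOfFin h) := by
      rw [Finset.range_orderEmbOfFin]; exact hs
    obtain ⟨i, hi⟩ := hr
    refine Matrix.det_zero_of_row_eq (i := 0) (j := i.succ) (Fin.succ_ne_zero i).symm ?_
    show v s = v (C.orderEmbOfFin h i)
    rw [hi]
  · rfl

theorem ell_cons_comp {α β : Type*} {l : ℕ} (v : α → β) (s : α) (g : Fin l → α) :
    (Fin.cons (v s) (fun i => v (g i)) : Fin (l + 1) → β) =
      v ∘ (Fin.cons s g : Fin (l + 1) → α) := by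
  funext i
  refine Fin.cases ?_ (fun i => ?_) i
  · rfl
  · rfl

theorem ell_ne_zero (v : Fin N → (Fin (m + 2) → F)) (hv : IsArc (F := F) v (m + 2))
    (C : Finset (Fin N)) (hC : C.card = m + 1) (s : Fin N) (hs : s ∉ C) :
    ell v C (v s) ≠ 0 := by
  unfold ell
  rw [dif_pos hC, ell_cons_comp]
  have hY : (insert s C).card ≤ m + 2 := by
    rw [Finset.card_insert_of_notMem hs, hC]
  have hli := hv (insert s C) hY
  have hmem : ∀ i, (Fin.cons s (fun i => C.orderEmbOfFin hC i) : Fin (m + 2) → Fin N) i ∈
      ((insert s C : Finset (Fin N)) : Set (Fin N)) := by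
    intro i
    refine Fin.cases ?_ (fun i => ?_) i
    · simp
    · simp only [Fin.cons_succ, Finset.coe_insert]
      exact Set.mem_insert_of_mem _ (Finset.orderEmbOfFin_mem C hC i)
  have hinj : Function.Injective
      (Fin.cons s (fun i => C.orderEmbOfFin hC i) : Fin (m + 2) → Fin N) := by
    rw [Fin.cons_injective_iff]
    refine ⟨?_, (C.orderEmbOfFin hC).injective⟩
    rintro ⟨i, hi⟩
    exact hs (hi ▸ Finset.orderEmbOfFin_mem C hC i)
  have h2 : LinearIndependent F
      (v ∘ (Fin.cons s (fun i => C.orderEmbOfFin hC i) : Fin (m + 2) → Fin N)) := by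
    have h3 := hli.linearIndependent.comp
      (fun i => ⟨(Fin.cons s (fun i => C.orderEmbOfFin hC i) : Fin (m + 2) → Fin N) i, hmem i⟩)
      (fun a b hab => hinj (congrArg Subtype.val hab))
    exact h3
  have h4 : IsUnit (Matrix.of
      (v ∘ (Fin.cons s (fun i => C.orderEmbOfFin hC i) : Fin (m + 2) → Fin N))) := by
    rw [← Matrix.linearIndependent_rows_iff_isUnit]
    exact h2
  exact ((Matrix.isUnit_iff_isUnit_det _).1 h4).ne_zero

theorem ell_insert (v : Fin N → (Fin (m + 2) → F)) (A : Finset (Fin N)) (hA : A.card = m)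
    (z : Fin N) (hz : z ∉ A) :
    ∃ ε : F, ε ^ 2 = 1 ∧ ∀ u : Fin (m + 2) → F, ell v (insert z A) u
      = ε * Matrix.det (Matrix.of (Fin.cons u (Fin.cons (v z)
          (fun i => v (A.orderEmbOfFin hA i)) : Fin (m + 1) → (Fin (m + 2) → F)) :
        Fin (m + 2) → (Fin (m + 2) → F))) := by
  have hI : (insert z A).card = m + 1 := by
    rw [Finset.card_insert_of_notMem hz, hA]
  set g1 : Fin (m + 1) → Fin N := Fin.cons z (fun i => A.orderEmbOfFin hA i) with hg1
  set g2 : Fin (m + 1) → Fin N := fun i => (insert z A).orderEmbOfFin hI i with hg2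
  have hi1 : Function.Injective g1 := by
    rw [hg1, Fin.cons_injective_iff]
    refine ⟨?_, (A.orderEmbOfFin hA).injective⟩
    rintro ⟨i, hi⟩
    exact hz (hi ▸ Finset.orderEmbOfFin_mem A hA i)
  have hi2 : Function.Injective g2 := ((insert z A).orderEmbOfFin hI).injective
  have hr1 : Set.range g1 = ((insert z A : Finset (Fin N)) : Set (Fin N)) := by
    rw [hg1, Fin.range_cons, Finset.coe_insert]
    congr 1
    exact Finset.range_orderEmbOfFin A hA
  have hr2 : Set.range g2 = ((insert z A : Finset (Fin N)) : Set (Fin N)) :=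
    Finset.range_orderEmbOfFin (insert z A) hI
  let σ : Equiv.Perm (Fin (m + 1)) := (Equiv.ofInjective g2 hi2).trans
    ((Equiv.setCongr (hr2.trans hr1.symm)).trans (Equiv.ofInjective g1 hi1).symm)
  have hσ : ∀ i, g1 (σ i) = g2 i := by
    intro i
    have : g1 (σ i) = ((Equiv.ofInjective g1 hi1) (σ i) : Fin N) := rfl
    rw [this]
    simp only [σ, Equiv.trans_apply, Equiv.apply_symm_apply]
    rfl
  set τ : Equiv.Perm (Fin (m + 2)) := Equiv.Perm.decomposeFin.symm (0, σ) with hτ
  have hτ0 : τ 0 = 0 := by rw [hτ]; simp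
  have hτs : ∀ i : Fin (m + 1), τ i.succ = (σ i).succ := by
    intro i
    rw [hτ, Equiv.Perm.decomposeFin_symm_apply_succ]
    simp
  refine ⟨((Equiv.Perm.sign τ : ℤˣ) : ℤ), ?_, ?_⟩
  · rcases Int.units_eq_one_or (Equiv.Perm.sign τ) with h | h
    · rw [h]; simp
    · rw [h]; simp
  · intro u
    unfold ell
    rw [dif_pos hI, ← Matrix.det_permute]
    congr 1
    ext i j
    simp only [Matrix.of_apply, Matrix.submatrix_apply, id]
    refine Fin.cases ?_ (fun i => ?_) i
    · rw [hτ0]
      rfl
    · rw [hτs]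
      simp only [Fin.cons_succ]
      rw [ell_cons_comp]
      show v (g2 i) j = v (g1 (σ i)) j
      rw [hσ]

end MDS
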