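import Pool.Agent.MDS.IDM

/-!
# MDS.KOY: exactness of the Koszul complex of a fixed set `Y`

Write `(D u) M := ∑ s ∈ Y \ M, E s (u (insert s M))`. Then `D (D u) M = 0`: it is
`∑ s ∈ Y \ M, ∑ t ∈ Y \ (insert s M), E s (E t (u (insert t (insert s M))))`, antisymmetric in
`s ≠ t` (use `2 ≠ 0` in `F`, i.e. `S = - S`, or `Finset.sum_involution`).

Claim, by induction on a finset `Y1 ⊆ Y`: there is `u` with values in `L (r - 1)` such that
`k M - (D u) M ∈ IdM M r` for all `M ⊆ Y` with `|M| = j + 1` which meet `Y1`.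
For `Y1 = ∅` nothing to prove (`u = 0`); for `Y1 = Y` this is the theorem, since `M` is nonempty.

Step from `Y1` to `insert s0 Y1`: let `k' := k - D u` (values in `L r` by `E_mem`,
`(r - 1) + 1 = r`). It satisfies the cycle condition `(D k') M ∈ IdM M (r+1)` for `|M| = j`
(`D D = 0`). Let `c` be the contraction of `Y` at `s0`, and
`u' M := if s0 ∈ M then c (k' (M.erase s0)) else 0`, values in `L (r - 1)`. Take `u + u'`; we
need `k' M - (D u') M ∈ IdM M r` for `|M| = j + 1`, `M ⊆ Y` meeting `insert s0 Y1`.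
* `s0 ∉ M`: only `s = s0` contributes, `(D u') M = E s0 (c (k' M))`. Here `M` meets `Y1`, so
  `k' M ∈ IdM M r`; then `c (k' M) ∈ IdM M (r - 1)` (`contr_mem_IdM`, as `s0 ∉ M`) and
  `E s0 (c (k' M)) ∈ IdM M r` (`E_mem_IdM`).
* `s0 ∈ M`: let `M0 := M.erase s0`, `|M0| = j`, `Y \ M0 = insert s0 (Y \ M)`. The cycle condition
  at `M0`: `E s0 (k' M) + ∑ t ∈ Y \ M, E t (k' (insert t M0)) ∈ IdM M0 (r + 1)`. Apply `c`
  (`contr_mem_IdM` for `M0`, which does not contain `s0`), with `c (E s0 x) = x - E s0 (c x)` and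
  `c (E t x) = - E t (c x)`: `k' M - E s0 (c (k' M)) - ∑ t ∈ Y \ M, E t (c (k' (insert t M0)))`
  is in `IdM M0 r ≤ IdM M r`. As `(insert t M).erase s0 = insert t M0`, the last sum is
  `(D u') M`; and `E s0 (c (k' M)) ∈ IdM M r` by `E_mem_IdM_self` since `s0 ∈ M`.
-/

set_option autoImplicit false

namespace MDS

open Finset

variable {F Λ ι : Type*} [Field F] [AddCommGroup Λ] [Module F Λ] [DecidableEq ι] {n : ℕ}

private def D (K : KSys F Λ ι n) (Y : Finset ι) (u : Finset ι → Λ) (M : Finset ι) : Λ :=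
  ∑ s ∈ Y \ M, K.E s (u (insert s M))

private theorem D_add (K : KSys F Λ ι n) (Y : Finset ι) (u u' : Finset ι → Λ) (M : Finset ι) :
    D K Y (u + u') M = D K Y u M + D K Y u' M := by
  simp only [D, Pi.add_apply, map_add, sum_add_distrib]

private theorem D_sub (K : KSys F Λ ι n) (Y : Finset ι) (u u' : Finset ι → Λ) (M : Finset ι) :
    D K Y (u - u') M = D K Y u M - D K Y u' M := by
  simp only [D, Pi.sub_apply, map_sub, sum_sub_distrib]

private theorem D_mem (K : KSys F Λ ι n) (Y : Finset ι) {u : Finset ι → Λ} {r : ℤ}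
    (hu : ∀ M, u M ∈ K.L (r - 1)) (M : Finset ι) : D K Y u M ∈ K.L r := by
  refine Submodule.sum_mem _ fun s _ => ?_
  have h1 := K.E_mem s (r - 1) _ (hu (insert s M))
  rwa [sub_add_cancel] at h1

private theorem DD (K : KSys F Λ ι n) (h2 : (2 : F) ≠ 0) (Y : Finset ι) (u : Finset ι → Λ)
    (M : Finset ι) : D K Y (D K Y u) M = 0 := by
  have h1 : D K Y (D K Y u) M = ∑ s ∈ Y \ M, ∑ t ∈ Y \ insert s M,
      K.E s (K.E t (u (insert t (insert s M)))) := by
    simp only [D, map_sum]
  have h3 : D K Y (D K Y u) M = - D K Y (D K Y u) M := by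
    have h5 : D K Y (D K Y u) M = ∑ s ∈ Y \ M, ∑ t ∈ Y \ insert s M,
        K.E t (K.E s (u (insert s (insert t M)))) := by
      rw [h1, sum_comm' (t' := Y \ M) (s' := fun t => Y \ insert t M)]
      intro s t
      simp only [mem_sdiff, mem_insert, not_or]
      constructor
      · rintro ⟨⟨a1, a2⟩, a3, a4, a5⟩
        exact ⟨⟨a1, fun h => a4 h.symm, a2⟩, a3, a5⟩
      · rintro ⟨⟨a1, a2, a3⟩, a4, a5⟩
        exact ⟨⟨a1, a3⟩, a4, fun h => a2 h.symm, a5⟩
    conv_rhs => rw [h1]
    rw [h5, ← sum_neg_distrib]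
    · refine sum_congr rfl fun s _ => ?_
      rw [← sum_neg_distrib]
      refine sum_congr rfl fun t _ => ?_
      rw [K.E_anti t s, insert_comm]
  have h4 : (2 : F) • D K Y (D K Y u) M = 0 := by
    rw [two_smul]
    exact add_eq_zero_iff_eq_neg.2 h3
  rcases smul_eq_zero.1 h4 with h5 | h5
  · exact absurd h5 h2
  · exact h5

theorem koszul_fixed (K : KSys F Λ ι n) (h2 : (2 : F) ≠ 0) (Y : Finset ι) (hY : Y.card ≤ n)
    (j : ℕ) (r : ℤ) (k : Finset ι → Λ) (hk : ∀ M, k M ∈ K.L r)
    (hc : ∀ M ⊆ Y, M.card = j → ∑ s ∈ Y \ M, K.E s (k (insert s M)) ∈ K.IdM M (r + 1)) :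
    ∃ u : Finset ι → Λ, (∀ M, u M ∈ K.L (r - 1)) ∧
      ∀ M ⊆ Y, M.card = j + 1 →
        k M - ∑ s ∈ Y \ M, K.E s (u (insert s M)) ∈ K.IdM M r := by
  have claim : ∀ Y1 : Finset ι, Y1 ⊆ Y → ∃ u : Finset ι → Λ, (∀ M, u M ∈ K.L (r - 1)) ∧
      ∀ M ⊆ Y, M.card = j + 1 → (∃ x ∈ Y1, x ∈ M) → k M - D K Y u M ∈ K.IdM M r := by
    intro Y1
    induction Y1 using Finset.induction_on with
    | empty =>
      intro _
      exact ⟨0, fun M => Submodule.zero_mem _, fun M _ _ ⟨x, hx, _⟩ => absurd hx (notMem_empty x)⟩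
    | insert s0 Y1 hs0 ih =>
      intro hY1
      obtain ⟨u, hu, huM⟩ := ih ((subset_insert _ _).trans hY1)
      have hs0Y : s0 ∈ Y := hY1 (mem_insert_self _ _)
      obtain ⟨c, hc1, hc2, hc3⟩ := K.contr Y hY s0 hs0Y
      obtain ⟨k', hk'⟩ : ∃ k' : Finset ι → Λ, k' = k - D K Y u := ⟨_, rfl⟩
      have hk'L : ∀ M, k' M ∈ K.L r := by
        intro M
        rw [hk']
        exact Submodule.sub_mem _ (hk M) (D_mem K Y hu M)
      have hk'c : ∀ M ⊆ Y, M.card = j → D K Y k' M ∈ K.IdM M (r + 1) := by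
        intro M hM hMj
        rw [hk', D_sub, DD K h2, sub_zero]
        exact hc M hM hMj
      obtain ⟨u', hu'e⟩ : ∃ u' : Finset ι → Λ,
          u' = fun M => if s0 ∈ M then c (k' (M.erase s0)) else 0 := ⟨_, rfl⟩
      have hu'1 : ∀ M, s0 ∈ M → u' M = c (k' (M.erase s0)) := by
        intro M hM
        rw [hu'e]
        exact if_pos hM
      have hu'0 : ∀ M, s0 ∉ M → u' M = 0 := by
        intro M hM
        rw [hu'e]
        exact if_neg hM
      have hcL : ∀ M, c (k' M) ∈ K.L (r - 1) := fun M =>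
        hc1 (r - 1) _ (by rw [sub_add_cancel]; exact hk'L _)
      have hu' : ∀ M, u' M ∈ K.L (r - 1) := by
        intro M
        by_cases hM : s0 ∈ M
        · rw [hu'1 M hM]
          exact hcL _
        · rw [hu'0 M hM]
          exact Submodule.zero_mem _
      refine ⟨u + u', fun M => Submodule.add_mem _ (hu M) (hu' M), fun M hM hMj hx => ?_⟩
      have e1 : k M - D K Y (u + u') M = k' M - D K Y u' M := by
        rw [D_add, hk', Pi.sub_apply, sub_add_eq_sub_sub]
      rw [e1]
      by_cases hs : s0 ∈ M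
      · have hM0 : M.erase s0 ⊆ Y := (erase_subset _ _).trans hM
        have hM0c : (M.erase s0).card = j := by rw [card_erase_of_mem hs, hMj]; rfl
        have h1 := hk'c _ hM0 hM0c
        have h2 : c (D K Y k' (M.erase s0)) ∈ K.IdM (M.erase s0) r :=
          K.contr_mem_IdM (M.erase s0) r c hc1
            (fun t ht x => hc3 t (hM0 ht) (ne_of_mem_erase ht) x) h1
        have h3 : Y \ M.erase s0 = insert s0 (Y \ M) := by
          ext t
          simp only [mem_sdiff, mem_erase, mem_insert, not_and, ne_eq]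
          by_cases ht : t = s0
          · subst ht
            simp [hs0Y]
          · simp [ht]
        have h4 : s0 ∉ Y \ M := fun h => (mem_sdiff.1 h).2 hs
        have h5 : c (D K Y k' (M.erase s0)) = k' M - K.E s0 (c (k' M)) - D K Y u' M := by
          unfold D
          rw [h3, sum_insert h4, insert_erase hs, map_add, eq_sub_of_add_eq (hc2 (k' M)), map_sum,
            sub_eq_add_neg (k' M - K.E s0 (c (k' M))), ← sum_neg_distrib]
          congr 1
          refine sum_congr rfl fun t ht => ?_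
          have ht1 : t ∈ Y := (mem_sdiff.1 ht).1
          have ht2 : t ≠ s0 := fun h => (mem_sdiff.1 ht).2 (h ▸ hs)
          rw [hu'1 _ (mem_insert_of_mem hs), erase_insert_of_ne ht2,
            eq_neg_of_add_eq_zero_left (hc3 t ht1 ht2 _)]
        have h6 : k' M - D K Y u' M = c (D K Y k' (M.erase s0)) + K.E s0 (c (k' M)) := by
          rw [h5]
          abel
        rw [h6]
        exact Submodule.add_mem _ (K.IdM_mono (erase_subset _ _) r h2)
          (K.E_mem_IdM_self hs r (hcL M))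
      · have e2 : D K Y u' M = K.E s0 (c (k' M)) := by
          unfold D
          rw [sum_eq_single_of_mem s0 (mem_sdiff.2 ⟨hs0Y, hs⟩)]
          · rw [hu'1 _ (mem_insert_self _ _), erase_insert hs]
          · intro t ht hts
            have h7 : s0 ∉ insert t M := by
              rw [mem_insert, not_or]
              exact ⟨fun h => hts h.symm, hs⟩
            rw [hu'0 _ h7, map_zero]
        obtain ⟨x, hx1, hx2⟩ := hx
        have hx3 : x ∈ Y1 := by
          rcases mem_insert.1 hx1 with h | h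
          · exact absurd (h ▸ hx2) hs
          · exact h
        have h1 : k' M ∈ K.IdM M r := by
          rw [hk']
          exact huM M hM hMj ⟨x, hx3, hx2⟩
        rw [e2]
        refine Submodule.sub_mem _ h1 ?_
        have h2 : c (k' M) ∈ K.IdM M (r - 1) :=
          K.contr_mem_IdM M (r - 1) c hc1
            (fun t ht x => hc3 t (hM ht) (fun h => hs (h ▸ ht)) x) (by rwa [sub_add_cancel])
        have h3 := K.E_mem_IdM M (r - 1) s0 h2
        rwa [sub_add_cancel] at h3
  obtain ⟨u, hu, h⟩ := claim Y (Finset.Subset.refl Y)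
  refine ⟨u, hu, fun M hM hMj => ?_⟩
  obtain ⟨x, hx⟩ : M.Nonempty := card_pos.1 (by omega)
  exact h M hM hMj ⟨x, hM hx, hx⟩

end MDS
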