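import Pool.Agent.MDS.PLS
import Pool.Agent.MDS.BRK
import Pool.Agent.MDS.ELL
import Pool.Agent.MDS.GAL

/-!
# MDS.STR: the two properties of the function attached to an arc of size `q + 2`

`star_sum`: let `Y := M ∪ Z`, `|Y| = e + m + 1`, `A := Yᶜ`, `|A| = m` (by `hN`), `f` the linear map
of `exists_br` for `a i := v (A.orderEmbOfFin _ i)` and `y u := f (v u)`. For `z ∈ Z`:
`M ∪ Z.erase z = Y.erase z`, its complement is `insert z A`, and
`ell v (insert z A) (v u) = ε_z * br (y u) (y z)` for all `u`, `ε_z ^ 2 = 1` (`ell_insert`,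
`exists_br`). So `aH v M (Z.erase z) = (∏ u ∈ Y.erase z, (br (y u) (y z))^2)⁻¹ *
∏ s ∈ M, br (y s) (y z)`, since the squares kill `ε_z`, and `ε_z ^ e = 1` (`e` even). The sum of
the same expression over `z ∈ M` is `0` (the factor `s = z` is `br (y z) (y z) = 0`), so the sum
over `Z` is the sum over `Y`, which is `0` by `plane_sum`: `|Y| ≤ q + 1` since `m ≥ 1`,
`2 |Y| = q + 3 + e`, and `br (y u) (y z) ≠ 0` for `u ≠ z` in `Y` by `ell_ne_zero`
(`u ∉ insert z A`).

`star_rel`: `insert s M ∪ Z.erase s = M ∪ Z =: Q` for `s ∈ Z` (`M`, `Z` disjoint). Let `C := Qᶜ`,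
`ℓ u := ell v C (v u)`, `κ := (∏ u ∈ Q, ℓ u ^ 2)⁻¹ * ∏ t ∈ M, ℓ t`. Then
`aH v (insert s M) (Z.erase s) = κ * ℓ s`, and
`∑ s ∈ Z, ℓ s • gale s = - ∑ s ∈ M, ℓ s • gale s` by `gale_rel`, `ell_lin` and `ell_self`
(`ℓ s = 0` for `s ∈ C`).
-/

set_option autoImplicit false

namespace MDS

open Finset

variable {F : Type*} [Field F] {N m : ℕ}

/-- The function of pairs of disjoint sets attached to an arc. -/
noncomputable def aH (v : Fin N → (Fin (m + 2) → F)) (M Z : Finset (Fin N)) : F :=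
  (∏ u ∈ M ∪ Z, (ell v (M ∪ Z)ᶜ (v u)) ^ 2)⁻¹ * ∏ s ∈ M, ell v (M ∪ Z)ᶜ (v s)

theorem star_sum [Fintype F] [DecidableEq F] (hq : 3 ≤ Fintype.card F)
    (v : Fin N → (Fin (m + 2) → F))
    (hv : IsArc (F := F) v (m + 2)) (e : ℕ) (he : Even e) (hm : 1 ≤ m)
    (hNq : N = Fintype.card F + 2) (hN : N = 2 * m + 1 + e)
    (M Z : Finset (Fin N)) (hMZ : Disjoint M Z) (hM : M.card = e) (hZ : Z.card = m + 1) :
    ∑ z ∈ Z, aH v M (Z.erase z) = 0 := by
  have hYc : (M ∪ Z).card = e + (m + 1) := by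
    rw [Finset.card_union_of_disjoint hMZ, hM, hZ]
  have hA : ((M ∪ Z)ᶜ).card = m := by
    rw [Finset.card_compl, hYc, Fintype.card_fin]
    omega
  obtain ⟨f, hf⟩ := exists_br (fun i => v (((M ∪ Z)ᶜ).orderEmbOfFin hA i))
  set y : Fin N → F × F := fun u => f (v u) with hy
  have key : ∀ z ∈ M ∪ Z, ∃ ε : F, ε ^ 2 = 1 ∧ ∀ u : Fin N,
      ell v (insert z (M ∪ Z)ᶜ) (v u) = ε * br (y u) (y z) := by
    intro z hz
    have hz' : z ∉ (M ∪ Z)ᶜ := fun h => (Finset.mem_compl.1 h) hz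
    obtain ⟨ε, h1, h2⟩ := ell_insert v ((M ∪ Z)ᶜ) hA z hz'
    refine ⟨ε, h1, fun u => ?_⟩
    rw [h2 (v u), hf (v u) (v z)]
  have hcard : ∀ z ∈ M ∪ Z, (insert z (M ∪ Z)ᶜ).card = m + 1 := by
    intro z hz
    rw [Finset.card_insert_of_notMem (fun h => (Finset.mem_compl.1 h) hz), hA]
  have hne : ∀ u ∈ M ∪ Z, ∀ z ∈ M ∪ Z, u ≠ z → br (y u) (y z) ≠ 0 := by
    intro u hu z hz huz h0
    obtain ⟨ε, h1, h2⟩ := key z hz
    have h3 := ell_ne_zero v hv (insert z (M ∪ Z)ᶜ) (hcard z hz) u (by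
      rw [Finset.mem_insert]
      rintro (h | h)
      · exact huz h
      · exact (Finset.mem_compl.1 h) hu)
    apply h3
    rw [h2 u, h0, mul_zero]
  have hplane := plane_sum hq (M ∪ Z) M y (by rw [hYc]; omega) (by rw [hYc]; omega) hne
    (by rw [hYc, hM]; omega)
  have hterm : ∀ z ∈ Z, aH v M (Z.erase z) =
      (∏ u ∈ (M ∪ Z).erase z, (br (y u) (y z)) ^ 2)⁻¹ * ∏ s ∈ M, br (y s) (y z) := by
    intro z hz
    have hzY : z ∈ M ∪ Z := Finset.mem_union_right _ hz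
    have hzM : z ∉ M := fun h => (Finset.disjoint_left.1 hMZ) h hz
    have e1 : M ∪ Z.erase z = (M ∪ Z).erase z := by
      rw [Finset.erase_union_distrib, Finset.erase_eq_of_notMem hzM]
    have e2 : ((M ∪ Z).erase z)ᶜ = insert z (M ∪ Z)ᶜ := by
      rw [Finset.compl_erase]
    obtain ⟨ε, h1, h2⟩ := key z hzY
    unfold aH
    rw [e1, e2]
    have e3 : ∏ u ∈ (M ∪ Z).erase z, (ell v (insert z (M ∪ Z)ᶜ) (v u)) ^ 2 =
        ∏ u ∈ (M ∪ Z).erase z, (br (y u) (y z)) ^ 2 := by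
      apply Finset.prod_congr rfl
      intro u _
      rw [h2 u, mul_pow, h1, one_mul]
    have e4 : ∏ s ∈ M, ell v (insert z (M ∪ Z)ᶜ) (v s) = ∏ s ∈ M, br (y s) (y z) := by
      have e5 : ∏ s ∈ M, ell v (insert z (M ∪ Z)ᶜ) (v s) =
          ∏ s ∈ M, (ε * br (y s) (y z)) := Finset.prod_congr rfl fun s _ => h2 s
      obtain ⟨r, hr⟩ := he
      rw [e5, Finset.prod_mul_distrib, Finset.prod_const, hM, hr, ← two_mul, pow_mul, h1,
        one_pow, one_mul]
    rw [e3, e4]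
  rw [Finset.sum_congr rfl hterm]
  rw [Finset.sum_union hMZ] at hplane
  have hzero : ∑ z ∈ M, (∏ u ∈ (M ∪ Z).erase z, (br (y u) (y z)) ^ 2)⁻¹ *
      ∏ s ∈ M, br (y s) (y z) = 0 := by
    apply Finset.sum_eq_zero
    intro z hz
    have h0 : ∏ s ∈ M, br (y s) (y z) = 0 := by
      apply Finset.prod_eq_zero hz
      unfold br
      ring
    rw [h0, mul_zero]
  rw [hzero, zero_add] at hplane
  exact hplane

theorem star_rel (v : Fin N → (Fin (m + 2) → F)) (M Z : Finset (Fin N)) (hMZ : Disjoint M Z) :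
    ∑ s ∈ Z, aH v (insert s M) (Z.erase s) • gale F v s
      ∈ Submodule.span F (gale F v '' (M : Set (Fin N))) := by
  set C : Finset (Fin N) := (M ∪ Z)ᶜ with hC
  obtain ⟨ψ, hψ⟩ := ell_lin v C
  set κ : F := (∏ u ∈ M ∪ Z, (ell v C (v u)) ^ 2)⁻¹ * ∏ s ∈ M, ell v C (v s) with hκ
  have hterm : ∀ s ∈ Z, aH v (insert s M) (Z.erase s) • gale F v s =
      κ • (ell v C (v s) • gale F v s) := by
    intro s hs
    have hsM : s ∉ M := fun h => (Finset.disjoint_left.1 hMZ) h hs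
    have e1 : insert s M ∪ Z.erase s = M ∪ Z := by
      ext t
      simp only [Finset.mem_union, Finset.mem_insert, Finset.mem_erase]
      constructor
      · rintro ((h | h) | h)
        · exact Or.inr (h ▸ hs)
        · exact Or.inl h
        · exact Or.inr h.2
      · rintro (h | h)
        · exact Or.inl (Or.inr h)
        · by_cases hts : t = s
          · exact Or.inl (Or.inl hts)
          · exact Or.inr ⟨hts, h⟩
    unfold aH
    rw [e1, Finset.prod_insert hsM, ← hC, smul_smul]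
    congr 1
    rw [hκ]
    ring
  rw [Finset.sum_congr rfl hterm, ← Finset.smul_sum]
  apply Submodule.smul_mem
  have h0 := gale_rel (F := F) v ψ
  have h1 : ∑ i, ψ (v i) • gale F v i =
      (∑ i ∈ M, ell v C (v i) • gale F v i + ∑ i ∈ Z, ell v C (v i) • gale F v i) +
        ∑ i ∈ C, ell v C (v i) • gale F v i := by
    rw [← Finset.sum_union hMZ, ← Finset.sum_add_sum_compl (M ∪ Z)]
    simp only [hψ]
    rfl
  have h2 : ∑ i ∈ C, ell v C (v i) • gale F v i = 0 := by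
    apply Finset.sum_eq_zero
    intro i hi
    rw [ell_self v C i hi, zero_smul]
  rw [h0, h2, add_zero] at h1
  have h3 : ∑ i ∈ Z, ell v C (v i) • gale F v i = -∑ i ∈ M, ell v C (v i) • gale F v i := by
    rw [eq_neg_iff_add_eq_zero]
    exact (add_comm _ _).trans h1.symm
  rw [h3]
  apply Submodule.neg_mem
  apply Submodule.sum_mem
  intro i hi
  apply Submodule.smul_mem
  exact Submodule.subset_span ⟨i, hi, rfl⟩

theorem aH_ne_zero (v : Fin N → (Fin (m + 2) → F))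
    (hv : IsArc (F := F) v (m + 2)) (M Z : Finset (Fin N))
    (h : (M ∪ Z)ᶜ.card = m + 1) : aH v M Z ≠ 0 := by
  have h1 : ∀ u ∈ M ∪ Z, ell v (M ∪ Z)ᶜ (v u) ≠ 0 := fun u hu =>
    ell_ne_zero v hv _ h u fun h' => (Finset.mem_compl.1 h') hu
  unfold aH
  apply mul_ne_zero
  · apply inv_ne_zero
    apply Finset.prod_ne_zero_iff.2
    intro u hu
    exact pow_ne_zero 2 (h1 u hu)
  · apply Finset.prod_ne_zero_iff.2
    intro s hs
    exact h1 s (Finset.mem_union_left _ hs)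

end MDS
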