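import Pool.Agent.MDS.VAW
import Pool.Agent.MDS.STR

/-!
# MDS.NOA: no arcs of size `q + 2`

Write `k = m + 2`, `q = 2 m + 1 + e - 2`, i.e. `e = q + 5 - 2 k` is even (`q` odd) and `≥ 1`.
Suppose `v` is an arc. `van_vec` with `w := gale F v`, `n := N - k = m + e - 1` (`gale_arc`),
`a := aH v` gives `aH v M Z = 0` for disjoint `M`, `Z` with `|M| = e`, `|Z| = m`; such sets exist
(`e + m ≤ N`) and then `|(M ∪ Z)ᶜ| = m + 1`, contradicting `aH_ne_zero`.
-/

set_option autoImplicit false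

namespace MDS

open Finset

/-- No arc of size `q + 2` in dimension `k`. -/
theorem no_arc {F : Type*} [Field F] [Fintype F] [DecidableEq F] (p : ℕ) [Fact p.Prime]
    [CharP F p] (hp : p ≠ 2) (k : ℕ) (hk3 : 3 ≤ k) (hk2 : 2 * k ≤ Fintype.card F + 2)
    (hk : (2 * p - 3) * k ≤ (Fintype.card F + 5) * (p - 2) + p)
    (v : Fin (Fintype.card F + 2) → (Fin k → F)) : ¬ IsArc (F := F) v k := by
  intro hv
  obtain ⟨m, rfl⟩ : ∃ m, k = m + 2 := ⟨k - 2, by omega⟩
  have hp2 : 2 ≤ p := (Fact.out : p.Prime).two_le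
  have hp3 : 3 ≤ p := by omega
  have hodd : Odd (Fintype.card F) := by
    have h1 := FiniteField.card F p
    obtain ⟨r, _, hr⟩ := h1
    rw [hr]
    exact ((Fact.out : p.Prime).odd_of_ne_two hp).pow
  have hq3 : 3 ≤ Fintype.card F := by omega
  obtain ⟨e, he⟩ : ∃ e, Fintype.card F + 2 = 2 * m + 1 + e :=
    ⟨Fintype.card F + 1 - 2 * m, by omega⟩
  have heven : Even e := by
    obtain ⟨r, hr⟩ := hodd
    rw [Nat.even_iff]
    omega
  have he1 : 1 ≤ e := by omega
  have h2 : (2 : F) ≠ 0 := by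
    intro h
    have h3 : ((2 : ℕ) : F) = 0 := by exact_mod_cast h
    rw [CharP.cast_eq_zero_iff F p] at h3
    have := Nat.le_of_dvd (by norm_num) h3
    omega
  have hfin : Module.finrank F (Fin (m + 2) → F) = m + 2 := by simp
  have hkN : m + 2 ≤ Fintype.card (Fin (Fintype.card F + 2)) := by
    rw [Fintype.card_fin]
    omega
  have hw := gale_arc v (m + 2) hfin hv hkN
  rw [Fintype.card_fin] at hw
  have hkZ : ((m + 2 : ℕ) : ℤ) ≤ p + e * ((p : ℤ) - 2) := by
    have h4 : ((2 * p - 3 : ℕ) : ℤ) = 2 * p - 3 := by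
      rw [Nat.cast_sub (by omega)]
      push_cast
      ring
    have h5 : ((p - 2 : ℕ) : ℤ) = p - 2 := by
      rw [Nat.cast_sub (by omega)]
      norm_num
    have h6 : ((2 * p - 3 : ℕ) : ℤ) * ((m + 2 : ℕ) : ℤ)
        ≤ ((Fintype.card F : ℤ) + 5) * ((p - 2 : ℕ) : ℤ) + p := by exact_mod_cast hk
    rw [h4, h5] at h6
    have h7 : (Fintype.card F : ℤ) + 2 = 2 * m + 1 + e := by exact_mod_cast he
    have h8 : (Fintype.card F : ℤ) = 2 * m - 1 + e := by linarith
    rw [h8] at h6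
    push_cast at h6 ⊢
    nlinarith
  have hvan := van_vec p h2 (gale F v) (Fintype.card F + 2 - (m + 2)) hw e (m + 2) he1
    (by omega) (by rw [Fintype.card_fin]; omega) (by omega) hkZ (aH v)
    (fun M Z hMZ hM hZ => star_sum hq3 v hv e heven (by omega) rfl he M Z hMZ hM (by omega))
    (fun M Z hMZ _ _ => star_rel v M Z hMZ)
  obtain ⟨Q, _, hQ⟩ := Finset.exists_subset_card_eq
    (s := (Finset.univ : Finset (Fin (Fintype.card F + 2)))) (n := e + m)
    (by rw [Finset.card_univ, Fintype.card_fin]; omega)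
  obtain ⟨M, hMQ, hM⟩ := Finset.exists_subset_card_eq (s := Q) (n := e) (by omega)
  have hZ : (Q \ M).card = m := by
    rw [Finset.card_sdiff_of_subset hMQ, hQ, hM]
    omega
  have hdis : Disjoint M (Q \ M) := Finset.disjoint_sdiff
  have hun : M ∪ (Q \ M) = Q := Finset.union_sdiff_of_subset hMQ
  have h0 := hvan M (Q \ M) hdis hM (by omega)
  refine aH_ne_zero v hv M (Q \ M) ?_ h0
  rw [hun, Finset.card_compl, Fintype.card_fin, hQ]
  omega

end MDS
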