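import Pool.Agent.MDS.Defs

/-!
# MDS.PLA: the sum of a product of `q - 1` linear forms over the plane

The function `v ↦ ∏ i ∈ I, br (a i) v` is a combination of the monomials `v.1^i * v.2^j` with
`i + j = q - 1` (expand the product, e.g. `Finset.prod_add`: `br (a i) v = (a i).1 * v.2 -
(a i).2 * v.1`), and `∑ v : F × F, v.1^i * v.2^j = (∑ x, x^i) * (∑ y, y^j) = 0`, since `i < q - 1`
or `j < q - 1` (`FiniteField.sum_pow_lt_card_sub_one`; here `q ≥ 3`, so `q - 1 ≥ 1`).
Alternatively `MvPolynomial.sum_eval_eq_zero` (total degree `≤ q - 1 < 2 (q - 1)`).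
-/

set_option autoImplicit false

namespace MDS

open Finset

theorem sum_prod_br {F κ : Type*} [Field F] [Fintype F] [DecidableEq F]
    (hq : 3 ≤ Fintype.card F) (I : Finset κ) (a : κ → F × F)
    (hI : I.card + 1 = Fintype.card F) :
    ∑ v : F × F, ∏ i ∈ I, br (a i) v = 0 := by
  classical
  have hexp : ∀ v : F × F, ∏ i ∈ I, br (a i) v =
      ∑ t ∈ I.powerset, (∏ i ∈ t, (a i).1) * (∏ i ∈ I \ t, -(a i).2) *
        (v.2 ^ t.card * v.1 ^ (I \ t).card) := by
    intro v
    have h1 : ∀ i ∈ I, br (a i) v = (a i).1 * v.2 + (-(a i).2) * v.1 := by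
      intro i _
      simp only [br]
      ring
    rw [Finset.prod_congr rfl h1, Finset.prod_add]
    refine Finset.sum_congr rfl fun t _ => ?_
    rw [Finset.prod_mul_distrib, Finset.prod_mul_distrib, Finset.prod_const, Finset.prod_const]
    ring
  simp only [hexp]
  rw [Finset.sum_comm]
  refine Finset.sum_eq_zero fun t ht => ?_
  rw [← Finset.mul_sum]
  have h2 : ∑ v : F × F, v.2 ^ t.card * v.1 ^ (I \ t).card =
      (∑ x : F, x ^ (I \ t).card) * (∑ y : F, y ^ t.card) := by
    rw [Fintype.sum_prod_type, Finset.sum_mul_sum]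
    refine Finset.sum_congr rfl fun x _ => Finset.sum_congr rfl fun y _ => ?_
    ring
  rw [h2]
  have hsub : t ⊆ I := Finset.mem_powerset.mp ht
  have hc : (I \ t).card + t.card = I.card := by
    rw [Finset.card_sdiff_add_card_eq_card hsub]
  by_cases h3 : t.card < Fintype.card F - 1
  · rw [FiniteField.sum_pow_lt_card_sub_one (K := F) _ h3]
    simp
  · have h4 : (I \ t).card < Fintype.card F - 1 := by omega
    rw [FiniteField.sum_pow_lt_card_sub_one (K := F) _ h4]
    simp

end MDS
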