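import Pool.Agent.MDS.Defs

/-!
# MDS.PLB: normalized representatives of the points of the projective line

`rp (some b) = (1, b)`, `rp none = (0, 1)`.

* `exists_rp`: if `z.1 ≠ 0` then `z = z.1 • (1, z.2 / z.1)`, otherwise `z = z.2 • (0, 1)`.
* `br_rp`: `br (1, b) (1, a) = a - b`, `br (0, 1) (1, a) = -1`, `br (1, b) (0, 1) = 1`.
* `prod_rp`: for `i = none` all factors are `1`. For `i = some a`: the product over `some b`,
  `b ≠ a`, of `a - b` is the product of all nonzero elements of `F`, which is `-1`
  (`FiniteField.prod_univ_units_id_eq_neg_one`, a product over `Fˣ`), and the factor at `none`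
  is `-1`.
-/

set_option autoImplicit false

namespace MDS

open Finset

/-- Normalized representatives of the points of the projective line. -/
def rp {F : Type*} [Field F] : Option F → F × F
  | none => (0, 1)
  | some b => (1, b)

theorem exists_rp {F : Type*} [Field F] (z : F × F) (hz : z ≠ 0) :
    ∃ c : F, c ≠ 0 ∧ ∃ i : Option F, z = c • rp i := by
  obtain ⟨x, y⟩ := z
  by_cases hx : x = 0
  · refine ⟨y, ?_, none, ?_⟩
    · intro hy
      exact hz (by rw [hx, hy]; rfl)
    · simp [rp, hx]
  · refine ⟨x, hx, some (y / x), ?_⟩
    simp only [rp, Prod.smul_mk, smul_eq_mul, mul_one, Prod.mk.injEq, true_and]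
    field_simp

theorem br_rp {F : Type*} [Field F] (i j : Option F) : br (rp i) (rp j) = 0 ↔ i = j := by
  cases i with
  | none =>
    cases j with
    | none => simp [rp, br]
    | some a => simp [rp, br]
  | some b =>
    cases j with
    | none => simp [rp, br]
    | some a =>
      simp only [rp, br, one_mul, mul_one, Option.some.injEq]
      rw [sub_eq_zero]
      exact eq_comm

private theorem plb_units {F : Type*} [Field F] [Fintype F] [DecidableEq F] :
    ∏ x ∈ (univ : Finset F).erase 0, x = -1 := by
  have h1 : ∏ u : Fˣ, (u : F) = -1 := by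
    have h := FiniteField.prod_univ_units_id_eq_neg_one (K := F)
    have h2 := congrArg (Units.coeHom F) h
    rw [map_prod] at h2
    simpa using h2
  rw [← h1]
  symm
  refine Finset.prod_bij (fun u _ => (u : F)) ?_ ?_ ?_ ?_
  · intro u _
    exact Finset.mem_erase.2 ⟨u.ne_zero, Finset.mem_univ _⟩
  · intro u _ w _ h
    exact Units.ext h
  · intro x hx
    exact ⟨Units.mk0 x (Finset.mem_erase.1 hx).1, Finset.mem_univ _, rfl⟩
  · intro u _
    rfl

private theorem plb_sub {F : Type*} [Field F] [Fintype F] [DecidableEq F] (a : F) :
    ∏ b ∈ (univ : Finset F).erase a, (a - b) = -1 := by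
  rw [← plb_units (F := F)]
  refine Finset.prod_bij (fun b _ => a - b) ?_ ?_ ?_ ?_
  · intro b hb
    refine Finset.mem_erase.2 ⟨?_, Finset.mem_univ _⟩
    intro h
    exact (Finset.mem_erase.1 hb).1 (sub_eq_zero.1 h).symm
  · intro b _ c _ h
    exact sub_right_injective h
  · intro x hx
    refine ⟨a - x, Finset.mem_erase.2 ⟨?_, Finset.mem_univ _⟩, by ring⟩
    intro h
    apply (Finset.mem_erase.1 hx).1
    linear_combination -h
  · intro b _
    rfl

theorem prod_rp {F : Type*} [Field F] [Fintype F] [DecidableEq F] (i : Option F) :
    ∏ j ∈ univ.erase i, br (rp j) (rp i) = 1 := by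
  cases i with
  | none =>
    apply Finset.prod_eq_one
    intro j hj
    cases j with
    | none => exact absurd rfl (Finset.mem_erase.1 hj).1
    | some b => simp [rp, br]
  | some a =>
    have h1 : (univ : Finset (Option F)).erase (some a) =
        insert none (((univ : Finset F).erase a).map Function.Embedding.some) := by
      ext j
      cases j with
      | none => simp
      | some b => simp
    rw [h1, Finset.prod_insert (by simp), Finset.prod_map]
    have h2 : ∏ x ∈ (univ : Finset F).erase a,
        br (rp (Function.Embedding.some x)) (rp (some a)) = -1 := by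
      rw [← plb_sub a]
      apply Finset.prod_congr rfl
      intro b _
      simp [rp, br]
    rw [h2]
    simp [rp, br]

end MDS
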