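import Pool.Agent.MDS.PLA
import Pool.Agent.MDS.PLB

/-!
# MDS.PLS: a sum over points of the projective line over a finite field

`q = card F`.

(1) All `y u`, `u ∈ Y`, are nonzero (there is another element in `Y`), so `y u = c u • rp (i u)`
    with `c u ≠ 0` (`exists_rp`), and the `i u` are distinct. Let `I` be the complement of
    `{i u : u ∈ Y}` in `Option F`, `|I| = q + 1 - |Y|`.
(2) For `z ∈ Y`, with `C := ∏ u ∈ Y, c u ≠ 0`:
    `(∏ u ∈ Y.erase z, br (y u) (y z)) * ∏ j ∈ I, br (rp j) (y z) = C`. Indeed the left side is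
    `(∏ u ∈ Y.erase z, c u) * (c z)^q * ∏ j ≠ i z, br (rp j) (rp (i z))`, by `prod_rp` and
    `(c z)^q = c z` (`FiniteField.pow_card`).
(3) Let `G v := (∏ j ∈ I, br (rp j) v)^2 * ∏ s ∈ M, br (y s) v`, a product of
    `2 |I| + |M| = 2 (q + 1 - |Y|) + |M| = q - 1` brackets. By (2) the sum in the theorem is
    `(C^2)⁻¹ * ∑ z ∈ Y, G (y z)`. For `c ≠ 0`: `G (c • v) = c^(q-1) G v = G v`. `G v = 0` when
    `v = 0` (as `q - 1 > 0`) or `v` is a multiple of some `rp j`, `j ∈ I`. Every other `v` is
    `c • y z` for a unique `z ∈ Y` and a unique `c ≠ 0`. So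
    `∑ v : F × F, G v = ∑ c : Fˣ, ∑ z ∈ Y, G (c • y z) = (q - 1) ∑ z ∈ Y, G (y z)
      = - ∑ z ∈ Y, G (y z)`.
(4) `∑ v : F × F, G v = 0` by `sum_prod_br` for a disjoint union of two copies of `I` and `M`.
-/

set_option autoImplicit false

namespace MDS

open Finset

private theorem pls_left {F : Type*} [Field F] (c : F) (a b : F × F) :
    br (c • a) b = c * br a b := by
  simp only [br, Prod.smul_fst, Prod.smul_snd, smul_eq_mul]
  ring

private theorem pls_right {F : Type*} [Field F] (c : F) (a b : F × F) :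
    br a (c • b) = c * br a b := by
  simp only [br, Prod.smul_fst, Prod.smul_snd, smul_eq_mul]
  ring

/-- the sum of a function invariant under scalars -/
private theorem pls_sum {F : Type*} [Field F] [Fintype F] [DecidableEq F] (G : F × F → F)
    (h0 : G 0 = 0) (hG : ∀ (c : F) (v : F × F), c ≠ 0 → G (c • v) = G v) :
    ∑ v : F × F, G v = - ∑ j : Option F, G (rp j) := by
  have hcard : ((Fintype.card F : ℕ) : F) = 0 := FiniteField.cast_card_eq_zero F
  have hc1 : (((univ : Finset F).erase 0).card : F) = -1 := by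
    rw [Finset.card_erase_of_mem (Finset.mem_univ _), Finset.card_univ,
      Nat.cast_sub Fintype.card_pos, hcard]
    simp
  rw [Fintype.sum_prod_type, Fintype.sum_option,
    ← Finset.add_sum_erase _ _ (Finset.mem_univ (0 : F))]
  have h1 : ∑ y : F, G (0, y) = - G (rp none) := by
    rw [← Finset.add_sum_erase _ _ (Finset.mem_univ (0 : F))]
    have h2 : ∀ y ∈ (univ : Finset F).erase 0, G (0, y) = G (rp none) := by
      intro y hy
      have h3 := hG y (0, 1) (Finset.mem_erase.1 hy).1
      have h4 : y • ((0, 1) : F × F) = (0, y) := by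
        simp
      rw [h4] at h3
      exact h3
    rw [Finset.sum_congr rfl h2, Finset.sum_const, nsmul_eq_mul, hc1]
    have h5 : G (0, 0) = 0 := h0
    rw [h5]
    ring
  have h6 : ∀ x ∈ (univ : Finset F).erase 0, ∑ y : F, G (x, y) = ∑ b : F, G (rp (some b)) := by
    intro x hx
    have hx0 := (Finset.mem_erase.1 hx).1
    refine Finset.sum_bij (fun y _ => x⁻¹ * y) (fun y _ => Finset.mem_univ _) ?_ ?_ ?_
    · intro y _ y' _ h
      exact mul_left_cancel₀ (inv_ne_zero hx0) h
    · intro b _
      exact ⟨x * b, Finset.mem_univ _, by rw [inv_mul_cancel_left₀ hx0]⟩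
    · intro y _
      rw [← hG x (rp (some (x⁻¹ * y))) hx0]
      congr 1
      simp only [rp, Prod.smul_mk, smul_eq_mul, mul_one]
      rw [mul_inv_cancel_left₀ hx0]
  rw [Finset.sum_congr rfl h6, Finset.sum_const, nsmul_eq_mul, hc1, h1]
  ring

theorem plane_sum {F ι : Type*} [Field F] [Fintype F] [DecidableEq F] [DecidableEq ι]
    (hq : 3 ≤ Fintype.card F) (Y M : Finset ι) (y : ι → F × F)
    (hY2 : 2 ≤ Y.card) (hYq : Y.card ≤ Fintype.card F + 1)
    (hY : ∀ u ∈ Y, ∀ z ∈ Y, u ≠ z → br (y u) (y z) ≠ 0)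
    (hM : 2 * Y.card = Fintype.card F + 3 + M.card) :
    ∑ z ∈ Y, (∏ u ∈ Y.erase z, (br (y u) (y z)) ^ 2)⁻¹ * ∏ s ∈ M, br (y s) (y z) = 0 := by
  have hne : ∀ u ∈ Y, y u ≠ 0 := by
    intro u hu h0
    obtain ⟨z, hz, hzu⟩ := Finset.exists_mem_ne (by omega : 1 < Y.card) u
    apply hY u hu z hz (Ne.symm hzu)
    rw [h0]
    simp [br]
  have hex : ∀ u : ι, ∃ c : F, ∃ i : Option F, u ∈ Y → c ≠ 0 ∧ y u = c • rp i := by
    intro u
    by_cases hu : u ∈ Y
    · obtain ⟨c, hc, i, hi⟩ := exists_rp (y u) (hne u hu)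
      exact ⟨c, i, fun _ => ⟨hc, hi⟩⟩
    · exact ⟨0, none, fun h => absurd h hu⟩
  choose c i hci using hex
  have hinj : Set.InjOn i (Y : Set ι) := by
    intro u hu z hz h
    by_contra huz
    apply hY u hu z hz huz
    rw [(hci u hu).2, (hci z hz).2, pls_left, pls_right, (br_rp _ _).2 h]
    ring
  set I : Finset (Option F) := univ \ Y.image i with hI
  have hIcard : I.card + Y.card = Fintype.card F + 1 := by
    have h1 := Finset.card_sdiff_add_card_eq_card (Finset.subset_univ (Y.image i))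
    rw [Finset.card_image_of_injOn hinj, Finset.card_univ, Fintype.card_option] at h1
    exact h1
  set C : F := ∏ u ∈ Y, c u with hC
  have hC0 : C ≠ 0 := Finset.prod_ne_zero_iff.2 fun u hu => (hci u hu).1
  -- step 2
  have hstep : ∀ z ∈ Y, (∏ u ∈ Y.erase z, br (y u) (y z)) * ∏ j ∈ I, br (rp j) (y z) = C := by
    intro z hz
    have h1 : ∏ u ∈ Y.erase z, br (y u) (y z) =
        (∏ u ∈ Y.erase z, c u) * ((c z) ^ (Y.card - 1) *
          ∏ j ∈ (Y.image i).erase (i z), br (rp j) (rp (i z))) := by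
      have h2 : ∀ u ∈ Y.erase z, br (y u) (y z) = c u * (c z * br (rp (i u)) (rp (i z))) := by
        intro u hu
        rw [(hci u (Finset.mem_of_mem_erase hu)).2, (hci z hz).2, pls_left, pls_right]
      rw [Finset.prod_congr rfl h2, Finset.prod_mul_distrib, Finset.prod_mul_distrib,
        Finset.prod_const, Finset.card_erase_of_mem hz]
      congr 2
      have h3 : (Y.image i).erase (i z) = (Y.erase z).image i := by
        ext j
        simp only [Finset.mem_erase, Finset.mem_image]
        constructor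
        · rintro ⟨h4, u, hu, rfl⟩
          exact ⟨u, ⟨fun h5 => h4 (by rw [h5]), hu⟩, rfl⟩
        · rintro ⟨u, ⟨huz, hu⟩, rfl⟩
          exact ⟨fun h5 => huz (hinj hu hz h5), u, hu, rfl⟩
      rw [h3, Finset.prod_image]
      intro u hu v hv h
      exact hinj (Finset.mem_of_mem_erase hu) (Finset.mem_of_mem_erase hv) h
    have h4 : ∏ j ∈ I, br (rp j) (y z) = (c z) ^ I.card * ∏ j ∈ I, br (rp j) (rp (i z)) := by
      have h5 : ∀ j ∈ I, br (rp j) (y z) = c z * br (rp j) (rp (i z)) := by
        intro j _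
        rw [(hci z hz).2, pls_right]
      rw [Finset.prod_congr rfl h5, Finset.prod_mul_distrib, Finset.prod_const]
    have h6 : (∏ j ∈ (Y.image i).erase (i z), br (rp j) (rp (i z))) *
        ∏ j ∈ I, br (rp j) (rp (i z)) = 1 := by
      rw [← prod_rp (i z), ← Finset.prod_union]
      · congr 1
        ext j
        simp only [hI, Finset.mem_union, Finset.mem_erase, Finset.mem_sdiff, Finset.mem_univ,
          true_and, and_true]
        have h7 : i z ∈ Y.image i := Finset.mem_image_of_mem _ hz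
        constructor
        · rintro (h8 | h8)
          · exact h8.1
          · rintro rfl
            exact h8 h7
        · intro h8
          by_cases h9 : j ∈ Y.image i
          · exact Or.inl ⟨h8, h9⟩
          · exact Or.inr h9
      · rw [Finset.disjoint_left]
        intro j hj hj'
        exact (Finset.mem_sdiff.1 hj').2 (Finset.mem_of_mem_erase hj)
    have h7 : (c z) ^ (Y.card - 1) * (c z) ^ I.card = c z := by
      rw [← pow_add, show Y.card - 1 + I.card = Fintype.card F by omega, FiniteField.pow_card]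
    rw [h1, h4, hC, ← Finset.prod_erase_mul _ _ hz]
    calc _ = (∏ u ∈ Y.erase z, c u) * ((c z) ^ (Y.card - 1) * (c z) ^ I.card) *
          ((∏ j ∈ (Y.image i).erase (i z), br (rp j) (rp (i z))) *
            ∏ j ∈ I, br (rp j) (rp (i z))) := by ring
      _ = _ := by rw [h6, h7, mul_one]
  -- step 3
  set G : F × F → F := fun v => (∏ j ∈ I, br (rp j) v) ^ 2 * ∏ s ∈ M, br (y s) v with hG
  have hterm : ∀ z ∈ Y, (∏ u ∈ Y.erase z, (br (y u) (y z)) ^ 2)⁻¹ * ∏ s ∈ M, br (y s) (y z) =
      (C ^ 2)⁻¹ * G (y z) := by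
    intro z hz
    have h1 := hstep z hz
    have h2 : (∏ u ∈ Y.erase z, br (y u) (y z)) ≠ 0 := Finset.prod_ne_zero_iff.2 fun u hu =>
      hY u (Finset.mem_of_mem_erase hu) z hz (Finset.mem_erase.1 hu).1
    rw [Finset.prod_pow, hG, ← h1]
    have h3 : (∏ j ∈ I, br (rp j) (y z)) ≠ 0 := by
      intro h4
      rw [h4, mul_zero] at h1
      exact hC0 h1.symm
    simp only
    field_simp
  rw [Finset.sum_congr rfl hterm, ← Finset.mul_sum]
  have hcnt : 2 * I.card + M.card + 1 = Fintype.card F := by omega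
  have hsmul : ∀ (a : F) (v : F × F), G (a • v) = a ^ (Fintype.card F - 1) * G v := by
    intro a v
    simp only [hG, pls_right, Finset.prod_mul_distrib, Finset.prod_const]
    rw [show Fintype.card F - 1 = I.card + I.card + M.card by omega, pow_add, pow_add]
    ring
  have hG0 : G 0 = 0 := by
    have h1 := hsmul 0 0
    rw [smul_zero, zero_pow (by omega), zero_mul] at h1
    exact h1
  have hGs : ∀ (a : F) (v : F × F), a ≠ 0 → G (a • v) = G v := by
    intro a v ha
    rw [hsmul, FiniteField.pow_card_sub_one_eq_one a ha, one_mul]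
  have hzero : ∑ v : F × F, G v = 0 := by
    have h1 := sum_prod_br (F := F) (κ := (Option F ⊕ Option F) ⊕ ι) hq
      ((I.disjSum I).disjSum M) (Sum.elim (Sum.elim rp rp) y) (by
        rw [Finset.card_disjSum, Finset.card_disjSum]
        omega)
    rw [← h1]
    refine Finset.sum_congr rfl fun v _ => ?_
    rw [Finset.prod_disjSum, Finset.prod_disjSum]
    simp only [hG, Sum.elim_inl, Sum.elim_inr]
    ring
  have hfin : ∑ j : Option F, G (rp j) = ∑ z ∈ Y, G (y z) := by
    have h1 : ∀ z ∈ Y, G (y z) = G (rp (i z)) := by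
      intro z hz
      rw [(hci z hz).2, hGs _ _ (hci z hz).1]
    rw [Finset.sum_congr rfl h1, ← Finset.sum_image (f := fun j => G (rp j)) hinj]
    symm
    refine Finset.sum_subset (Finset.subset_univ _) ?_
    intro j _ hj
    have h2 : j ∈ I := Finset.mem_sdiff.2 ⟨Finset.mem_univ _, hj⟩
    simp only [hG]
    rw [Finset.prod_eq_zero h2 ((br_rp j j).2 rfl)]
    ring
  rw [pls_sum G hG0 hGs, hfin, neg_eq_zero] at hzero
  rw [hzero, mul_zero]

end MDS
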