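import Pool.Agent.MDS.Defs

/-!
# MDS.SGB: elementary facts on the operator `sg`

`sg f Z = ∑ z ∈ Z, f (Z.erase z)`. Everything here is elementary.

* `sg_iter_insert`: for `x ∉ Z`,
  `sg^[a] f (insert x Z) = a • sg^[a-1] f Z + sg^[a] (fun Y => f (insert x Y)) Z`.
  Induction on `a`: `sg^[a+1] f = sg (sg^[a] f)` (`Function.iterate_succ_apply'`), the sum over
  `insert x Z` splits off `z = x` (`(insert x Z).erase x = Z`), and for `z ∈ Z` one has
  `(insert x Z).erase z = insert x (Z.erase z)`, `x ∉ Z.erase z`.
* `sg_iter_char`: in characteristic `p` one has `sg^[p] f = 0`: induction on `Z` for all `f`,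
  with `sg_iter_insert`; at `∅` the outer sum is empty as `p ≥ 1`.
* `sg_iter_mem`: if `J` is monotone and `f Z ∈ J Z` for all `Z ⊆ T` of size `d`, then
  `sg^[a] f Z ∈ J Z` for all `Z ⊆ T` of size `d + a`. Induction on `a`
  (`Z.erase z ⊆ Z`, so `J (Z.erase z) ≤ J Z`).
* `sg_iter_congr`: `sg^[a] f Z` depends only on the values at the subsets of `Z`.
-/

set_option autoImplicit false

namespace MDS

open Finset

variable {F E E' ι : Type*} [Field F] [AddCommGroup E] [Module F E] [AddCommGroup E']
  [Module F E'] [DecidableEq ι]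

private theorem sgb_add (f g : Finset ι → E) :
    (sg (f + g) : Finset ι → E) = sg f + sg g := by
  funext Z
  simp [sg, Finset.sum_add_distrib]

private theorem sgb_sub (f g : Finset ι → E) :
    (sg (f - g) : Finset ι → E) = sg f - sg g := by
  funext Z
  simp [sg, Finset.sum_sub_distrib]

private theorem sgb_smul (c : F) (f : Finset ι → E) :
    (sg (c • f) : Finset ι → E) = c • sg f := by
  funext Z
  simp [sg, Finset.smul_sum]

theorem sg_iter_add (a : ℕ) (f g : Finset ι → E) :
    (sg^[a] (f + g) : Finset ι → E) = sg^[a] f + sg^[a] g := by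
  induction a with
  | zero => rfl
  | succ a ih =>
    rw [Function.iterate_succ_apply', Function.iterate_succ_apply',
      Function.iterate_succ_apply', ih, sgb_add]

theorem sg_iter_sub (a : ℕ) (f g : Finset ι → E) :
    (sg^[a] (f - g) : Finset ι → E) = sg^[a] f - sg^[a] g := by
  induction a with
  | zero => rfl
  | succ a ih =>
    rw [Function.iterate_succ_apply', Function.iterate_succ_apply',
      Function.iterate_succ_apply', ih, sgb_sub]

theorem sg_iter_smul (a : ℕ) (c : F) (f : Finset ι → E) :
    (sg^[a] (c • f) : Finset ι → E) = c • sg^[a] f := by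
  induction a with
  | zero => rfl
  | succ a ih =>
    rw [Function.iterate_succ_apply', Function.iterate_succ_apply', ih, sgb_smul]

theorem sg_iter_zero (a : ℕ) : (sg^[a] (0 : Finset ι → E)) = 0 := by
  induction a with
  | zero => rfl
  | succ a ih =>
    rw [Function.iterate_succ_apply', ih]
    funext Z
    simp [sg]

theorem sg_iter_map (a : ℕ) (φ : E →ₗ[F] E') (f : Finset ι → E) (Z : Finset ι) :
    (sg^[a] (fun Y => φ (f Y)) : Finset ι → E') Z = φ ((sg^[a] f : Finset ι → E) Z) := by
  induction a generalizing Z with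
  | zero => rfl
  | succ a ih =>
    rw [Function.iterate_succ_apply', Function.iterate_succ_apply']
    simp only [sg, map_sum]
    exact Finset.sum_congr rfl (fun z _ => ih _)

theorem sg_iter_insert (a : ℕ) (f : Finset ι → E) (x : ι) (Z : Finset ι) (hx : x ∉ Z) :
    (sg^[a] f : Finset ι → E) (insert x Z)
      = a • (sg^[a - 1] f : Finset ι → E) Z
        + (sg^[a] (fun Y => f (insert x Y)) : Finset ι → E) Z := by
  induction a generalizing Z with
  | zero => simp
  | succ a ih =>
    rw [Function.iterate_succ_apply', Function.iterate_succ_apply']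
    have h1 : (sg (sg^[a] f) : Finset ι → E) (insert x Z)
        = (sg^[a] f : Finset ι → E) Z
          + ∑ z ∈ Z, (sg^[a] f : Finset ι → E) (insert x (Z.erase z)) := by
      simp only [sg]
      rw [Finset.sum_insert hx, Finset.erase_insert hx]
      congr 1
      refine Finset.sum_congr rfl (fun z hz => ?_)
      have hxz : x ≠ z := fun h => hx (h ▸ hz)
      rw [Finset.erase_insert_of_ne hxz]
    have h2 : ∑ z ∈ Z, (sg^[a] f : Finset ι → E) (insert x (Z.erase z))
        = a • ∑ z ∈ Z, (sg^[a - 1] f : Finset ι → E) (Z.erase z)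
          + (sg (sg^[a] (fun Y => f (insert x Y))) : Finset ι → E) Z := by
      rw [Finset.smul_sum]
      simp only [sg]
      rw [← Finset.sum_add_distrib]
      refine Finset.sum_congr rfl (fun z hz => ?_)
      exact ih (Z.erase z) (fun h => hx (Finset.mem_of_mem_erase h))
    have h3 : a • ∑ z ∈ Z, (sg^[a - 1] f : Finset ι → E) (Z.erase z)
        = a • (sg^[a] f : Finset ι → E) Z := by
      rcases Nat.eq_zero_or_pos a with h | h
      · subst h; simp
      · obtain ⟨b, rfl⟩ := Nat.exists_eq_succ_of_ne_zero h.ne'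
        rw [Nat.succ_sub_one, Function.iterate_succ_apply']
        rfl
    rw [h1, h2, h3, Nat.add_sub_cancel, add_smul, one_smul]
    abel

private theorem sgb_char_aux (p : ℕ) [Fact p.Prime] [CharP F p] (Z : Finset ι) :
    ∀ f : Finset ι → E, (sg^[p] f : Finset ι → E) Z = 0 := by
  have hp : p.Prime := Fact.out
  induction Z using Finset.induction_on with
  | empty =>
    intro f
    obtain ⟨b, hb⟩ := Nat.exists_eq_succ_of_ne_zero hp.ne_zero
    rw [hb, Function.iterate_succ_apply']
    simp [sg]
  | insert x Z hx ih =>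
    intro f
    rw [sg_iter_insert p f x Z hx, ih]
    have h : p • (sg^[p - 1] f : Finset ι → E) Z = 0 := by
      rw [← Nat.cast_smul_eq_nsmul F, CharP.cast_eq_zero, zero_smul]
    rw [h, add_zero]

theorem sg_iter_char (p : ℕ) [Fact p.Prime] [CharP F p] (f : Finset ι → E) :
    (sg^[p] f : Finset ι → E) = 0 := by
  funext Z
  exact sgb_char_aux (F := F) p Z f

theorem sg_iter_mem (J : Finset ι → Submodule F E) (hJ : ∀ Y Z : Finset ι, Y ⊆ Z → J Y ≤ J Z)
    (T : Finset ι) (d : ℤ) (a : ℕ) (f : Finset ι → E)
    (hf : ∀ Z ⊆ T, (Z.card : ℤ) = d → f Z ∈ J Z) :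
    ∀ Z ⊆ T, (Z.card : ℤ) = d + a → (sg^[a] f : Finset ι → E) Z ∈ J Z := by
  induction a with
  | zero =>
    intro Z hZ hc
    exact hf Z hZ (by simpa using hc)
  | succ a ih =>
    intro Z hZ hc
    rw [Function.iterate_succ_apply']
    simp only [sg]
    refine Submodule.sum_mem _ (fun z hz => ?_)
    refine hJ _ _ (Finset.erase_subset z Z) ?_
    refine ih _ ((Finset.erase_subset z Z).trans hZ) ?_
    have h1 := Finset.card_erase_add_one hz
    push_cast at hc
    omega

theorem sg_iter_val (P : Submodule F E) (a : ℕ) (f : Finset ι → E) (hf : ∀ Z, f Z ∈ P) :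
    ∀ Z, (sg^[a] f : Finset ι → E) Z ∈ P := by
  induction a with
  | zero => exact hf
  | succ a ih =>
    intro Z
    rw [Function.iterate_succ_apply']
    exact Submodule.sum_mem _ (fun z _ => ih _)

theorem sg_iter_congr (a : ℕ) (f g : Finset ι → E) (Z : Finset ι)
    (hfg : ∀ Y ⊆ Z, f Y = g Y) :
    (sg^[a] f : Finset ι → E) Z = (sg^[a] g : Finset ι → E) Z := by
  induction a generalizing Z with
  | zero => exact hfg Z (Finset.Subset.refl Z)
  | succ a ih =>
    rw [Function.iterate_succ_apply', Function.iterate_succ_apply']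
    simp only [sg]
    exact Finset.sum_congr rfl (fun z _ =>
      ih _ (fun Y hY => hfg Y (hY.trans (Finset.erase_subset z Z))))

theorem sg_iter_small (a : ℕ) (f : Finset ι → E) (Z : Finset ι) (h : Z.card < a) :
    (sg^[a] f : Finset ι → E) Z = 0 := by
  induction a generalizing Z with
  | zero => exact absurd h (Nat.not_lt_zero _)
  | succ a ih =>
    rw [Function.iterate_succ_apply']
    simp only [sg]
    refine Finset.sum_eq_zero (fun z hz => ih _ ?_)
    have h1 := Finset.card_erase_add_one hz
    omega

end MDS
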