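import Pool.Agent.MDS.STEP

/-!
# MDS.SIG: exactness of sigma with constant coefficients

Induction on `T` (`Finset.induction_on`, all other variables generalized).
`T = ∅`: `2 d + a ≤ 0` and `a ≥ 1` give `d < 0`, no set has size `d`: take `g = 0`.
`insert x T'` (`x ∉ T'`): apply `MDS.step` with `T := T'`, `b := T'.card`, `J` constant, and `ih`
the induction hypothesis. `h0` is the hypothesis for `Z ⊆ T' ⊆ insert x T'`, and `h1` the
hypothesis at `insert x Z` (size `d + a`). The conclusion for `Z ⊆ insert x T'`: if `x ∉ Z` then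
`Z ⊆ T'`, and if `x ∈ Z` then `Z = insert x (Z.erase x)` with `Z.erase x ⊆ T'`.
-/

set_option autoImplicit false

namespace MDS

open Finset

variable {F E ι : Type*} [Field F] [AddCommGroup E] [Module F E] [DecidableEq ι]

theorem sig_const (p : ℕ) [Fact p.Prime] [CharP F p] (P J : Submodule F E) (T : Finset ι) :
    ∀ (d : ℤ) (a : ℕ), 1 ≤ a → a < p → 2 * d + a ≤ T.card → ∀ f : Finset ι → E,
      (∀ Z, f Z ∈ P) →
      (∀ Z ⊆ T, (Z.card : ℤ) = d + a → (sg^[a] f : Finset ι → E) Z ∈ J) →
      ∃ g : Finset ι → E, (∀ Z, g Z ∈ P) ∧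
        ∀ Z ⊆ T, (Z.card : ℤ) = d → (sg^[p - a] g : Finset ι → E) Z - f Z ∈ J := by
  induction T using Finset.induction_on with
  | empty =>
    intro d a ha hap hd f hf h
    refine ⟨0, fun Z => P.zero_mem, fun Z hZ hc => ?_⟩
    exfalso
    rw [card_empty] at hd
    have := Int.natCast_nonneg Z.card
    omega
  | insert x T' hx ih =>
    intro d a ha hap hd f hf h
    rw [card_insert_of_notMem hx] at hd
    obtain ⟨G, hG, hG0, hG1⟩ := step p P (fun _ => J) (fun _ _ _ => le_rfl) T' x hx T'.card ih
      d a ha hap (by push_cast at hd; exact hd) f hf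
      (fun Z hZ hc => h Z (hZ.trans (subset_insert _ _)) hc)
      (fun Z hZ hc => h _ (insert_subset_insert _ hZ) (by
        rw [card_insert_of_notMem (fun hh => hx (hZ hh))]
        push_cast
        omega))
    refine ⟨G, hG, fun Z hZ hc => ?_⟩
    by_cases hxZ : x ∈ Z
    · have h1 := hG1 (Z.erase x) (by rwa [← subset_insert_iff]) (by
        rw [card_erase_of_mem hxZ]
        have := card_pos.2 ⟨x, hxZ⟩
        omega)
      rwa [insert_erase hxZ] at h1
    · exact hG0 Z ((subset_insert_iff_of_notMem hxZ).1 hZ) hc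

end MDS
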