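import Pool.Agent.MDS.SGB

/-!
# MDS.STEP: the step of the exactness lemmas

Write `s^a` for `sg^[a]`, and let `f1 Y := f (insert x Y)`. By `sg_iter_insert`, for `Z ⊆ T`
(so `x ∉ Z`): `(s^a f)(insert x Z) = a • s^(a-1) f Z + s^a f1 Z`.
In the following all congruences are modulo `J Z`, for `Z ⊆ T` of the given size; by
`sg_iter_mem` a congruence at size `d` gives, after applying `s^b`, one at size `d + b`.

1. Let `φ := a • f + s f1` (values in `P`). There is `g` (values in `P`) with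
   `s^(p-a+1) g ≡ φ` at size `d`. If `a ≥ 2`: `s^(a-1) φ = a s^(a-1) f + s^a f1 ∈ J` at size
   `d + a - 1` by `h1`, and `ih` with `(d, a - 1)` applies (`2 d + (a-1) ≤ b`). If `a = 1` take
   `g = 0`: `φ Z = (s f)(insert x Z) ∈ J Z` at size `d` by `h1`.
2. `s^(a+1) f1 ∈ J` at size `d + a`: indeed `s^a φ = a s^a f + s^(a+1) f1`, and
   `s^a φ ≡ s^a s^(p-a+1) g = s^(p+1) g = 0` (`sg_iter_char`), and `s^a f ∈ J` by `h0`.
3. There is `u` (values in `P`) with `s^(p-a-1) u ≡ f1` at size `d - 1`: if `a + 1 < p` by `ih`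
   with `(d-1, a+1)` (`2(d-1) + a + 1 ≤ b`); if `a + 1 = p` take `u = f1`.
4. Put `F0 := -(1/a) • (u - s g)`, `F1 := g` (note `(a : F) ≠ 0` as `1 ≤ a < p`), and
   `G Z := if x ∈ Z then F1 (Z.erase x) else F0 Z`. For `Z ⊆ T` (`sg_iter_congr`):
   `s^(p-a) G Z = s^(p-a) F0 Z = -(1/a)(s^(p-a) u - s^(p-a+1) g) ≡ -(1/a)(s f1 - a f - s f1) = f`
   at size `d`, and (`sg_iter_insert`, `(p - a : F) = -a`)
   `s^(p-a) G (insert x Z) = (p-a) s^(p-a-1) F0 Z + s^(p-a) F1 Z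
     = (s^(p-a-1) u - s^(p-a) g) + s^(p-a) g = s^(p-a-1) u ≡ f1` at size `d - 1`.
-/

set_option autoImplicit false

namespace MDS

open Finset

variable {F E ι : Type*} [Field F] [AddCommGroup E] [Module F E] [DecidableEq ι]

theorem step (p : ℕ) [Fact p.Prime] [CharP F p] (P : Submodule F E)
    (J : Finset ι → Submodule F E) (hJ : ∀ Y Z : Finset ι, Y ⊆ Z → J Y ≤ J Z)
    (T : Finset ι) (x : ι) (hx : x ∉ T) (b : ℤ)
    (ih : ∀ (d : ℤ) (a : ℕ), 1 ≤ a → a < p → 2 * d + a ≤ b → ∀ f : Finset ι → E,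
      (∀ Z, f Z ∈ P) →
      (∀ Z ⊆ T, (Z.card : ℤ) = d + a → (sg^[a] f : Finset ι → E) Z ∈ J Z) →
      ∃ g : Finset ι → E, (∀ Z, g Z ∈ P) ∧
        ∀ Z ⊆ T, (Z.card : ℤ) = d → (sg^[p - a] g : Finset ι → E) Z - f Z ∈ J Z)
    (d : ℤ) (a : ℕ) (ha1 : 1 ≤ a) (hap : a < p) (hb : 2 * d + a ≤ b + 1)
    (f : Finset ι → E) (hf : ∀ Z, f Z ∈ P)
    (h0 : ∀ Z ⊆ T, (Z.card : ℤ) = d + a → (sg^[a] f : Finset ι → E) Z ∈ J Z)
    (h1 : ∀ Z ⊆ T, (Z.card : ℤ) = d + a - 1 → (sg^[a] f : Finset ι → E) (insert x Z) ∈ J Z) :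
    ∃ G : Finset ι → E, (∀ Z, G Z ∈ P) ∧
      (∀ Z ⊆ T, (Z.card : ℤ) = d → (sg^[p - a] G : Finset ι → E) Z - f Z ∈ J Z) ∧
      (∀ Z ⊆ T, (Z.card : ℤ) = d - 1 →
        (sg^[p - a] G : Finset ι → E) (insert x Z) - f (insert x Z) ∈ J Z) := by
  classical
  have hp : p.Prime := Fact.out
  obtain ⟨q, hq⟩ : ∃ q, p = a + q + 1 := ⟨p - a - 1, by omega⟩
  have hpa : p - a = q + 1 := by omega
  have haF : (a : F) ≠ 0 := by
    rw [Ne, CharP.cast_eq_zero_iff F p]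
    intro h
    exact absurd (Nat.le_of_dvd (by omega) h) (by omega)
  have hqF : ((q + 1 : ℕ) : F) = -(a : F) := by
    have h : ((a + q + 1 : ℕ) : F) = 0 := by
      rw [← hq]
      exact CharP.cast_eq_zero F p
    push_cast at h ⊢
    linear_combination h
  have hxZ : ∀ Z ⊆ T, x ∉ Z := fun Z hZ h => hx (hZ h)
  obtain ⟨f1, hf1⟩ : ∃ f1 : Finset ι → E, f1 = fun Y => f (insert x Y) := ⟨_, rfl⟩
  have hf1P : ∀ Z, f1 Z ∈ P := fun Z => by rw [hf1]; exact hf _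
  obtain ⟨φ, hφ⟩ : ∃ φ : Finset ι → E, φ = (a : F) • f + sg f1 := ⟨_, rfl⟩
  have hφP : ∀ Z, φ Z ∈ P := fun Z => by
    rw [hφ]
    exact P.add_mem (P.smul_mem _ (hf Z)) (sg_iter_val P 1 f1 hf1P Z)
  -- the iterates of phi
  have hφit : ∀ k : ℕ, (sg^[k] φ : Finset ι → E) = (a : F) • sg^[k] f + sg^[k + 1] f1 := by
    intro k
    rw [hφ, sg_iter_add, sg_iter_smul, Function.iterate_succ_apply]
  have hins : ∀ Z ⊆ T, (sg^[a] f : Finset ι → E) (insert x Z) = (sg^[a - 1] φ : Finset ι → E) Z := by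
    intro Z hZ
    rw [sg_iter_insert a f x Z (hxZ Z hZ), hφit, Nat.sub_add_cancel ha1, ← hf1]
    rw [Pi.add_apply, Pi.smul_apply, Nat.cast_smul_eq_nsmul]
  -- step 1
  obtain ⟨g, hgP, hg⟩ : ∃ g : Finset ι → E, (∀ Z, g Z ∈ P) ∧
      ∀ Z ⊆ T, (Z.card : ℤ) = d → (sg^[q + 2] g : Finset ι → E) Z - φ Z ∈ J Z := by
    by_cases ha : a = 1
    · refine ⟨0, fun _ => P.zero_mem, fun Z hZ hc => ?_⟩
      rw [sg_iter_zero, Pi.zero_apply, zero_sub]
      refine (J Z).neg_mem ?_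
      have h := h1 Z hZ (by rw [hc, ha]; push_cast; ring)
      rw [hins Z hZ, ha] at h
      exact h
    · have h2 := ih d (a - 1) (by omega) (by omega) (by omega) φ hφP (fun Z hZ hc => by
        rw [← hins Z hZ]
        exact h1 Z hZ (by omega))
      obtain ⟨g, hgP, hg⟩ := h2
      refine ⟨g, hgP, fun Z hZ hc => ?_⟩
      have h3 := hg Z hZ hc
      rw [show p - (a - 1) = q + 2 by omega] at h3
      exact h3
  -- step 2
  have h2 : ∀ Z ⊆ T, (Z.card : ℤ) = d + a → (sg^[a + 1] f1 : Finset ι → E) Z ∈ J Z := by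
    intro Z hZ hc
    have h3 := sg_iter_mem J hJ T d a (sg^[q + 2] g - φ) (fun Z hZ hc => hg Z hZ hc) Z hZ hc
    rw [sg_iter_sub, ← Function.iterate_add_apply, show a + (q + 2) = p + 1 by omega,
      Function.iterate_succ_apply, sg_iter_char (F := F) p, zero_sub, Pi.neg_apply] at h3
    have h4 := (J Z).neg_mem h3
    rw [neg_neg, hφit, Pi.add_apply, Pi.smul_apply] at h4
    have h5 := (J Z).sub_mem h4 ((J Z).smul_mem (a : F) (h0 Z hZ hc))
    rw [add_sub_cancel_left] at h5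
    exact h5
  -- step 3
  obtain ⟨u, huP, hu⟩ : ∃ u : Finset ι → E, (∀ Z, u Z ∈ P) ∧
      ∀ Z ⊆ T, (Z.card : ℤ) = d - 1 → (sg^[q] u : Finset ι → E) Z - f1 Z ∈ J Z := by
    by_cases ha : a + 1 = p
    · refine ⟨f1, hf1P, fun Z _ _ => ?_⟩
      rw [show q = 0 by omega]
      simp
    · have h3 := ih (d - 1) (a + 1) (by omega) (by omega) (by push_cast; omega) f1 hf1P
        (fun Z hZ hc => h2 Z hZ (by push_cast at hc; omega))
      obtain ⟨u, huP, hu⟩ := h3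
      refine ⟨u, huP, fun Z hZ hc => ?_⟩
      have h4 := hu Z hZ hc
      rw [show p - (a + 1) = q by omega] at h4
      exact h4
  -- step 4
  obtain ⟨F0, hF0⟩ : ∃ F0 : Finset ι → E, F0 = (-((a : F)⁻¹)) • (u - sg g) := ⟨_, rfl⟩
  have hF0P : ∀ Z, F0 Z ∈ P := fun Z => by
    rw [hF0]
    exact P.smul_mem _ (P.sub_mem (huP Z) (sg_iter_val P 1 g hgP Z))
  have hF0it : ∀ k : ℕ, (sg^[k] F0 : Finset ι → E)
      = (-((a : F)⁻¹)) • (sg^[k] u - sg^[k + 1] g) := by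
    intro k
    rw [hF0, sg_iter_smul, sg_iter_sub, Function.iterate_succ_apply]
  obtain ⟨G, hG⟩ : ∃ G : Finset ι → E, G = fun Z => if x ∈ Z then g (Z.erase x) else F0 Z :=
    ⟨_, rfl⟩
  have hG0 : ∀ Z : Finset ι, x ∉ Z → G Z = F0 Z := fun Z h => by rw [hG]; simp [h]
  have hG1 : ∀ Z : Finset ι, x ∉ Z → G (insert x Z) = g Z := fun Z h => by
    rw [hG]; simp [Finset.erase_insert h]
  refine ⟨G, fun Z => ?_, fun Z hZ hc => ?_, fun Z hZ hc => ?_⟩
  · rw [hG]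
    dsimp only
    split_ifs
    · exact hgP _
    · exact hF0P _
  · rw [hpa, sg_iter_congr (q + 1) G F0 Z (fun Y hY => hG0 Y (fun h => hxZ Z hZ (hY h))), hF0it]
    have hA : (sg (sg^[q] u - f1) : Finset ι → E) Z ∈ J Z :=
      sg_iter_mem J hJ T (d - 1) 1 (sg^[q] u - f1) (fun Z hZ hc => hu Z hZ hc) Z hZ
        (by rw [hc]; push_cast; ring)
    have hA2 : (sg (sg^[q] u - f1) : Finset ι → E)
        = sg^[q + 1] u - sg f1 := by
      have h := sg_iter_sub 1 (sg^[q] u) f1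
      simp only [Function.iterate_one] at h
      rw [h, Function.iterate_succ_apply']
    rw [hA2] at hA
    have hB := hg Z hZ hc
    have hφZ : φ Z = (a : F) • f Z + (sg f1 : Finset ι → E) Z := by rw [hφ]; rfl
    have h6 : ((-((a : F)⁻¹)) • (sg^[q + 1] u - sg^[q + 1 + 1] g) : Finset ι → E) Z - f Z
        = (-((a : F)⁻¹)) • ((sg^[q + 1] u - sg f1 : Finset ι → E) Z
            - ((sg^[q + 2] g : Finset ι → E) Z - φ Z)) := by
      rw [hφZ]
      simp only [Pi.smul_apply, Pi.sub_apply]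
      have h7 : f Z = (a : F)⁻¹ • ((a : F) • f Z) := by
        rw [smul_smul, inv_mul_cancel₀ haF, one_smul]
      generalize hX : (a : F) • f Z = X at h7 ⊢
      rw [h7]
      module
    rw [h6]
    exact (J Z).smul_mem _ ((J Z).sub_mem hA hB)
  · rw [hpa, sg_iter_insert (q + 1) G x Z (hxZ Z hZ), Nat.add_sub_cancel,
      sg_iter_congr q G F0 Z (fun Y hY => hG0 Y (fun h => hxZ Z hZ (hY h))), hF0it,
      sg_iter_congr (q + 1) (fun Y => G (insert x Y)) g Z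
        (fun Y hY => hG1 Y (fun h => hxZ Z hZ (hY h)))]
    have h6 : (q + 1) • ((-((a : F)⁻¹)) • (sg^[q] u - sg^[q + 1] g) : Finset ι → E) Z
        = (sg^[q] u : Finset ι → E) Z - (sg^[q + 1] g : Finset ι → E) Z := by
      rw [← Nat.cast_smul_eq_nsmul F, hqF, Pi.smul_apply, smul_smul, neg_mul_neg,
        mul_inv_cancel₀ haF, one_smul, Pi.sub_apply]
    rw [h6, sub_add_cancel]
    have h7 := hu Z hZ hc
    rw [hf1] at h7
    exact h7

end MDS
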