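import Pool.Agent.MDS.CHN

/-!
# MDS.VAN: the vanishing theorem for Koszul systems

Write `e = e' + 1`. `IdM M 0 = ⊥` (`IdM_nonpos`). `exact_M` with `j = e`, `d = k - 2`, `a = 1`,
`r = 0` (`2 (k-2) + 1 + e ≤ N`) gives `h` with values in `L 0` and `s^(p-1) h ≡ α` at
`(e, k-2)`. Then `δ s^(p-1) h - δ α ≡ 0` at `(e-1, k-1)` (`Zer_dl`), and `δ α ≡ 0` there (`hδ`),
so `s^(p-1) δ h ≡ 0` at `(e-1, k-1) = (e-1, d+p)` with `d := k - 1 - p`. `chain` (first part,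
`j = e' = e - 1`; `2 d + p + e ≤ N`, `e - 1 + d ≤ n`,
`2 d + p - 1 - e (p-2) ≤ n - e = k - 3`, this is `hk`) gives `u` with values in `L 0`,
`h' := h - s u`, `δ h' ≡ 0` at `(e-1, d+1)`. `koszul` with `j = e'`, `r = 0` gives `w` with values
in `L (-1) = ⊥`, so `w = 0`, and `h' - δ w = h'` vanishes at `(e, d)`. Then `s^(p-1) h'` vanishes
at `(e, d + p - 1) = (e, k - 2)`, and `s^(p-1) h' = s^(p-1) h - s^p u = s^(p-1) h`.
-/

set_option autoImplicit false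

namespace MDS

open Finset

variable {F Λ ι : Type*} [Field F] [AddCommGroup Λ] [Module F Λ] [DecidableEq ι] [Fintype ι]
  {n : ℕ}

theorem van (K : KSys F Λ ι n) (p : ℕ) [Fact p.Prime] [CharP F p] (h2 : (2 : F) ≠ 0)
    (e k : ℕ) (he : 1 ≤ e) (hk2 : 2 ≤ k) (hN : Fintype.card ι + 3 = 2 * k + e)
    (hn : n + 3 = k + e)
    (hk : (k : ℤ) ≤ p + e * ((p : ℤ) - 2)) (α : Finset ι → Finset ι → Λ) (hv : K.Val α 0)
    (hσ : K.Zer (KSys.sG α) e ((k : ℤ) - 1) 0)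
    (hδ : K.Zer (K.dl α) (e - 1) ((k : ℤ) - 1) 1) :
    K.Zer α e ((k : ℤ) - 2) 0 := by
  obtain ⟨e', rfl⟩ : ∃ e', e = e' + 1 := ⟨e - 1, by omega⟩
  have hp : 2 ≤ p := (Fact.out : p.Prime).two_le
  have hp' : (2 : ℤ) ≤ p := by exact_mod_cast hp
  have hnN : n ≤ Fintype.card ι := by omega
  have hNz : (Fintype.card ι : ℤ) + 3 = 2 * k + (e' + 1) := by exact_mod_cast hN
  have hnz : (n : ℤ) + 3 = k + (e' + 1) := by exact_mod_cast hn
  have e1 : e' + 1 - 1 = e' := by omega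
  rw [e1] at hδ
  have hσ' : K.Zer (KSys.sG^[1] α) (e' + 1) (((k : ℤ) - 2) + (1 : ℕ)) 0 := by
    have : ((k : ℤ) - 2) + (1 : ℕ) = (k : ℤ) - 1 := by push_cast; ring
    rw [this]
    exact hσ
  obtain ⟨h, hhv, hh⟩ := exact_M K p (e' + 1) ((k : ℤ) - 2) 0 1 le_rfl (by omega)
    (by push_cast; linarith) α hv hσ'
  have h1 := K.Zer_dl hh
  rw [K.dl_sub, K.dl_sG_iter] at h1
  have e2 : (k : ℤ) - 2 + 1 = (k : ℤ) - 1 := by ring
  have e3 : (0 : ℤ) + 1 = 1 := by norm_num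
  rw [e2, e3] at h1
  have h3 := K.Zer_add h1 hδ
  rw [sub_add_cancel] at h3
  have hch := (chain K p h2 hnN ((e' : ℤ) + 1) e').1 ((k : ℤ) - 1 - p)
    (by linarith) (by linarith) (by push_cast at hk; linarith)
  have e4 : ((e' : ℤ) + 1) - ((e' : ℤ) + 1) = 0 := by ring
  have e5 : ((e' : ℤ) + 1) - (e' : ℤ) = 1 := by ring
  have e6 : (k : ℤ) - 1 - p + p = (k : ℤ) - 1 := by ring
  unfold stA at hch
  rw [e4, e5, e6] at hch
  obtain ⟨u, huv, hu⟩ := hch h hhv h3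
  have hv' : K.Val (h - KSys.sG u) 0 := K.Val_sub hhv (K.Val_sG 1 huv)
  obtain ⟨w, hwv, hw⟩ := koszul K h2 e' ((k : ℤ) - 1 - p) 0 (by linarith) (h - KSys.sG u) hv'
    (by rw [e3]; exact hu)
  have hw0 : w = 0 := by
    funext M Z
    have := hwv M Z
    rw [K.L_neg (0 - 1) (by norm_num)] at this
    exact (Submodule.mem_bot F).1 this
  have hdw : K.dl w = 0 := by
    rw [hw0]
    funext M Z
    unfold KSys.dl
    simp
  rw [hdw, sub_zero] at hw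
  have h4 := K.Zer_sG (p - 1) hw
  rw [KSys.sG_iter_sub] at h4
  have h5 : (KSys.sG^[p - 1] (KSys.sG u) : Finset ι → Finset ι → Λ) = 0 := by
    rw [← Function.iterate_succ_apply]
    have : (p - 1).succ = p := by omega
    rw [this]
    exact KSys.sG_iter_char F p u
  rw [h5, sub_zero] at h4
  have e7 : (k : ℤ) - 1 - p + ((p - 1 : ℕ) : ℤ) = (k : ℤ) - 2 := by
    rw [Nat.cast_sub (by omega)]
    push_cast
    ring
  rw [e7] at h4
  have h6 := K.Zer_sub h4 hh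
  rw [sub_sub_cancel] at h6
  exact h6

end MDS
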