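import Pool.Agent.MDS.VAN
import Pool.Agent.MDS.ALG

/-!
# MDS.VAW: the vanishing theorem for families of scalars

Take `K` from `exists_ksys` and apply `van` to `α M Z := algebraMap (a M Z)`, whose values lie
in `L 0 = gr F W 0` (`algebraMap_mem_gr`). `hσ`: `∑ z ∈ Z, algebraMap (..) = algebraMap 0 = 0`.
`hδ`: `(dl α) M Z = ∑ s ∈ Z, ι (w s) * algebraMap (a _ _) = ι (∑ s ∈ Z, a _ _ • w s)`, and the
vector is a combination `∑ t ∈ M, c t • w t` (`Submodule.mem_span_image_finset_iff_exists_fun` or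
`Finsupp`), so this is `∑ t ∈ M, E t (algebraMap (c t)) ∈ IdM M 1` (`mem_IdM`, or
`E_mem_IdM_self`). Conclusion: `algebraMap (a M Z) ∈ IdM M 0 = ⊥`, and `algebraMap` is injective
(`ExteriorAlgebra.algebraMap_leftInverse`, or the algebra is nontrivial over a field).
-/

set_option autoImplicit false

namespace MDS

open Finset

variable {F W ι : Type*} [Field F] [AddCommGroup W] [Module F W] [DecidableEq ι] [Fintype ι]

theorem van_vec (p : ℕ) [Fact p.Prime] [CharP F p] (h2 : (2 : F) ≠ 0) (w : ι → W) (n : ℕ)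
    (hw : IsArc (F := F) w n) (e k : ℕ) (he : 1 ≤ e) (hk2 : 2 ≤ k)
    (hN : Fintype.card ι + 3 = 2 * k + e) (hn : n + 3 = k + e)
    (hk : (k : ℤ) ≤ p + e * ((p : ℤ) - 2)) (a : Finset ι → Finset ι → F)
    (h1 : ∀ M Z : Finset ι, Disjoint M Z → M.card = e → Z.card + 1 = k →
      ∑ z ∈ Z, a M (Z.erase z) = 0)
    (hd : ∀ M Z : Finset ι, Disjoint M Z → M.card + 1 = e → Z.card + 1 = k →
      ∑ s ∈ Z, a (insert s M) (Z.erase s) • w s ∈ Submodule.span F (w '' (M : Set ι))) :
    ∀ M Z : Finset ι, Disjoint M Z → M.card = e → Z.card + 2 = k → a M Z = 0 := by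
  obtain ⟨K, hL, hE⟩ := exists_ksys (F := F) w n hw
  have hE' : ∀ (s : ι) (x : ExteriorAlgebra F W), K.E s x = ExteriorAlgebra.ι F (w s) * x := by
    intro s x
    rw [hE]
    rfl
  let α : Finset ι → Finset ι → ExteriorAlgebra F W :=
    fun M Z => algebraMap F (ExteriorAlgebra F W) (a M Z)
  have hv : K.Val α 0 := by
    intro M Z
    rw [hL]
    exact algebraMap_mem_gr _
  have hσ : K.Zer (KSys.sG α) e ((k : ℤ) - 1) 0 := by
    intro M Z hMZ hM hZ
    have h0 : KSys.sG α M Z = 0 := by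
      change ∑ z ∈ Z, algebraMap F (ExteriorAlgebra F W) (a M (Z.erase z)) = 0
      rw [← map_sum, h1 M Z hMZ hM (by omega), map_zero]
    rw [h0]
    exact Submodule.zero_mem _
  have hδ : K.Zer (K.dl α) (e - 1) ((k : ℤ) - 1) 1 := by
    intro M Z hMZ hM hZ
    have h0 : K.dl α M Z =
        ExteriorAlgebra.ι F (∑ s ∈ Z, a (insert s M) (Z.erase s) • w s) := by
      change ∑ s ∈ Z, K.E s (algebraMap F (ExteriorAlgebra F W) (a (insert s M) (Z.erase s))) = _
      rw [map_sum]
      refine Finset.sum_congr rfl fun s _ => ?_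
      rw [hE', map_smul, ← Algebra.commutes, Algebra.smul_def]
    rw [h0]
    have h3 := hd M Z hMZ (by omega) (by omega)
    have h4 : ∀ v ∈ Submodule.span F (w '' (M : Set ι)),
        ExteriorAlgebra.ι F v ∈ K.IdM M 1 := by
      have h5 : Submodule.span F (w '' (M : Set ι)) ≤
          (K.IdM M 1).comap (ExteriorAlgebra.ι F : W →ₗ[F] ExteriorAlgebra F W) := by
        rw [Submodule.span_le]
        rintro _ ⟨t, ht, rfl⟩
        change ExteriorAlgebra.ι F (w t) ∈ K.IdM M 1
        have h6 : K.E t 1 ∈ K.IdM M 1 := by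
          refine KSys.E_mem_IdM_self K (by simpa using ht) 1 ?_
          rw [hL]
          have := algebraMap_mem_gr (F := F) (W := W) 1
          simpa using this
        rw [hE', mul_one] at h6
        exact h6
      intro v hv
      exact h5 hv
    exact h4 _ h3
  have key := van K p h2 e k he hk2 hN hn hk α hv hσ hδ
  intro M Z hMZ hM hZ
  have h7 := key M Z hMZ hM (by omega)
  rw [KSys.IdM_nonpos K M 0 le_rfl, Submodule.mem_bot] at h7
  have h8 := congrArg (ExteriorAlgebra.algebraMapInv (R := F) (M := W)) h7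
  simpa [α] using h8

end MDS
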